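import Mathlib

/-! A direction in the closed right half plane in which `|R - E| > |R|`, near a zero of order at
least two of `E`. -/

namespace Pool.Agent.H94Flex

open Set Filter Topology

theorem exists_unit {c : ℂ} (hc : c ≠ 0) {n : ℕ} (hn : 2 ≤ n) :
    ∃ u : ℂ, 0 ≤ u.re ∧ (u ^ n * c).re < 0 := by
  have hn0 : (0 : ℝ) < n := by exact_mod_cast (by omega : 0 < n)
  have hn2 : (2 : ℝ) ≤ n := by exact_mod_cast hn
  have key : ∀ σ : ℝ, (σ = 1 ∨ σ = -1) → |σ * Real.pi - c.arg| ≤ Real.pi →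
      ∃ u : ℂ, 0 ≤ u.re ∧ (u ^ n * c).re < 0 := by
    intro σ hσ hθ
    refine ⟨Complex.exp (((σ * Real.pi - c.arg) / n : ℝ) * Complex.I), ?_, ?_⟩
    · rw [Complex.exp_ofReal_mul_I_re]
      apply Real.cos_nonneg_of_neg_pi_div_two_le_of_le
      · have h1 := (abs_le.mp hθ).1
        rw [neg_le, ← neg_div, div_le_div_iff₀ hn0 two_pos]
        nlinarith [Real.pi_pos]
      · have h1 := (abs_le.mp hθ).2
        rw [div_le_div_iff₀ hn0 two_pos]
        nlinarith [Real.pi_pos]
    · rw [← Complex.exp_nat_mul]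
      have e : (n : ℂ) * ((((σ * Real.pi - c.arg) / n : ℝ) : ℂ) * Complex.I)
          = ((σ * Real.pi : ℝ) : ℂ) * Complex.I + -((c.arg : ℂ) * Complex.I) := by
        have : (n : ℂ) ≠ 0 := by exact_mod_cast hn0.ne'
        push_cast
        field_simp
        ring
      rw [e, Complex.exp_add]
      have h2 : Complex.exp (-((c.arg : ℂ) * Complex.I)) * c = (‖c‖ : ℂ) := by
        have h3 := Complex.norm_mul_exp_arg_mul_I c
        rw [Complex.exp_neg]
        nth_rewrite 2 [← h3]
        field_simp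
      have h4 : Complex.exp (((σ * Real.pi : ℝ) : ℂ) * Complex.I) = -1 := by
        rcases hσ with rfl | rfl
        · simp
        · simp [Complex.exp_neg]
      rw [mul_assoc, h2, h4]
      have : 0 < ‖c‖ := norm_pos_iff.mpr hc
      simp [this]
  have h1 := Complex.neg_pi_lt_arg c
  have h2 := Complex.arg_le_pi c
  rcases le_total 0 c.arg with h | h
  · apply key 1 (Or.inl rfl)
    rw [abs_le]
    constructor <;> linarith [Real.pi_pos]
  · apply key (-1) (Or.inr rfl)
    rw [abs_le]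
    constructor <;> linarith [Real.pi_pos]

theorem direction {E R : ℂ → ℂ} {a : ℂ} (hE : AnalyticAt ℂ E a) (hR : ContinuousAt R a)
    (hRa : R a ≠ 0) (h0 : E a = 0) (h1 : deriv E a = 0) (hne : ¬ ∀ᶠ z in 𝓝 a, E z = 0)
    {P : ℂ → Prop} (hP : ∀ᶠ z in 𝓝 a, P z) :
    ∃ s, P s ∧ a.re ≤ s.re ∧ ‖R s‖ < ‖R s - E s‖ := by
  obtain ⟨n, g, hg, hga, hEg⟩ := (hE.exists_eventuallyEq_pow_smul_nonzero_iff).mpr hne
  have hn : 2 ≤ n := by
    by_contra hn
    have hEa := hEg.self_of_nhds
    interval_cases n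
    · rw [h0] at hEa
      simp at hEa
      exact hga hEa.symm
    · have hd : HasDerivAt (fun z => (z - a) ^ 1 • g z) (g a) a := by
        have h1 : HasDerivAt (fun z => z - a) 1 a := (hasDerivAt_id a).sub_const a
        have h2 := h1.mul hg.differentiableAt.hasDerivAt
        simp only [sub_self, zero_mul, add_zero, one_mul] at h2
        have h3 : HasDerivAt (fun z => (z - a) * g z) (g a) a := h2
        simpa using h3
      have hd' := hd.congr_of_eventuallyEq hEg
      rw [hd'.deriv] at h1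
      exact hga h1
  obtain ⟨u, hu, huc⟩ := exists_unit (div_ne_zero hga hRa) hn
  have hpath : Tendsto (fun δ : ℝ => a + δ * u) (𝓝[>] 0) (𝓝 a) := by
    have : Continuous (fun δ : ℝ => a + δ * u) := by fun_prop
    have h := this.tendsto 0
    simp only [Complex.ofReal_zero, zero_mul, add_zero] at h
    exact h.mono_left nhdsWithin_le_nhds
  have hlim : Tendsto (fun δ : ℝ => u ^ n * (g (a + δ * u) / R (a + δ * u))) (𝓝[>] 0)
      (𝓝 (u ^ n * (g a / R a))) := by
    apply Tendsto.const_mul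
    apply Tendsto.div
    · exact hg.continuousAt.tendsto.comp hpath
    · exact hR.tendsto.comp hpath
    · exact hRa
  have hneg : ∀ᶠ δ : ℝ in 𝓝[>] 0, (u ^ n * (g (a + δ * u) / R (a + δ * u))).re < 0 := by
    have := (Complex.continuous_re.tendsto _).comp hlim
    exact this.eventually (gt_mem_nhds huc)
  have hR0 : ∀ᶠ δ : ℝ in 𝓝[>] 0, R (a + δ * u) ≠ 0 :=
    hpath.eventually (hR.eventually_ne hRa)
  obtain ⟨δ, hδ, hδP, hδE, hδn, hδR⟩ := ((self_mem_nhdsWithin : Ioi (0 : ℝ) ∈ 𝓝[>] 0)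
    |> fun h => (Filter.eventually_of_mem h (fun x hx => hx)).and
      ((hpath.eventually hP).and ((hpath.eventually hEg).and (hneg.and hR0)))).exists
  have hδ0 : (0 : ℝ) < δ := hδ
  refine ⟨a + δ * u, hδP, ?_, ?_⟩
  · simp
    positivity
  · set s := a + δ * u with hs
    have e1 : E s = (δ ^ n : ℝ) * (u ^ n * (g s / R s)) * R s := by
      rw [hδE, smul_eq_mul, hs]
      push_cast
      rw [← hs]
      field_simp
      ring
    have e2 : R s - E s = (1 - (δ ^ n : ℝ) * (u ^ n * (g s / R s))) * R s := by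
      rw [e1]; ring
    rw [e2, norm_mul]
    have hRs : 0 < ‖R s‖ := norm_pos_iff.mpr hδR
    have h3 : 1 < ‖1 - (δ ^ n : ℝ) * (u ^ n * (g s / R s))‖ := by
      have h4 : (1 - ((δ ^ n : ℝ) : ℂ) * (u ^ n * (g s / R s))).re
          ≤ ‖1 - ((δ ^ n : ℝ) : ℂ) * (u ^ n * (g s / R s))‖ := Complex.re_le_norm _
      have h5 : (1 - ((δ ^ n : ℝ) : ℂ) * (u ^ n * (g s / R s))).re
          = 1 - δ ^ n * (u ^ n * (g s / R s)).re := by
        rw [Complex.sub_re, Complex.re_ofReal_mul, Complex.one_re]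
      have h6 : δ ^ n * (u ^ n * (g s / R s)).re < 0 :=
        mul_neg_of_pos_of_neg (pow_pos hδ0 n) hδn
      linarith
    nlinarith

end Pool.Agent.H94Flex
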