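import Mathlib

/-! Basic facts on majorization of finite multisets of reals via the functions
`Phi x t = ∑ max (a - t) 0`. -/

namespace Pool.Agent.H94Flex

/-- `Φ_x(t) = ∑_{a ∈ x} max (a - t) 0`. -/
noncomputable def Phi (x : Multiset ℝ) (t : ℝ) : ℝ := (x.map (fun a => max (a - t) 0)).sum

/-- Tensor product of two vectors (as multisets of entries). -/
noncomputable def tp (x y : Multiset ℝ) : Multiset ℝ := x.bind (fun a => y.map (fun b => a * b))

/-- Majorization through the functions `Phi`. -/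
def Maj (x y : Multiset ℝ) : Prop := x.sum = y.sum ∧ ∀ t, 0 ≤ t → Phi x t ≤ Phi y t

section sums

theorem sum_map_tp {M : Type*} [AddCommMonoid M] (f : ℝ → M) (x y : Multiset ℝ) :
    ((tp x y).map f).sum = (x.map (fun a => (y.map (fun b => f (a * b))).sum)).sum := by
  unfold tp
  rw [Multiset.map_bind, Multiset.sum_bind]
  congr 1
  apply Multiset.map_congr rfl
  intro a _
  rw [Multiset.map_map]
  rfl

theorem mem_tp {x y : Multiset ℝ} {c : ℝ} (h : c ∈ tp x y) : ∃ a ∈ x, ∃ b ∈ y, c = a * b := by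
  unfold tp at h
  rw [Multiset.mem_bind] at h
  obtain ⟨a, ha, hc⟩ := h
  rw [Multiset.mem_map] at hc
  obtain ⟨b, hb, rfl⟩ := hc
  exact ⟨a, ha, b, hb, rfl⟩

theorem card_tp (x y : Multiset ℝ) : (tp x y).card = x.card * y.card := by
  unfold tp
  rw [Multiset.card_bind]
  simp

theorem sum_tp (x y : Multiset ℝ) : (tp x y).sum = x.sum * y.sum := by
  have h := sum_map_tp (fun a : ℝ => a) x y
  rw [Multiset.map_id'] at h
  rw [h]
  have e : ∀ a : ℝ, (y.map (fun b => a * b)).sum = a * y.sum := by
    intro a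
    have := Multiset.sum_map_mul_left (s := y) (f := fun b : ℝ => b) (a := a)
    rw [Multiset.map_id'] at this
    exact this
  simp only [e]
  have := Multiset.sum_map_mul_right (s := x) (f := fun b : ℝ => b) (a := y.sum)
  rw [Multiset.map_id'] at this
  exact this

/-- Multiplicative functions. -/
theorem sum_map_tp_mul {M : Type*} [CommSemiring M] (f : ℝ → M) (x y : Multiset ℝ)
    (hf : ∀ a ∈ x, ∀ b ∈ y, f (a * b) = f a * f b) :
    ((tp x y).map f).sum = (x.map f).sum * (y.map f).sum := by
  rw [sum_map_tp]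
  have : x.map (fun a => (y.map (fun b => f (a * b))).sum)
      = x.map (fun a => f a * (y.map f).sum) := by
    apply Multiset.map_congr rfl
    intro a ha
    rw [← Multiset.sum_map_mul_left]
    congr 1
    apply Multiset.map_congr rfl
    intro b hb
    exact hf a ha b hb
  rw [this, Multiset.sum_map_mul_right]

theorem tp_add_left (x x' y : Multiset ℝ) : tp (x + x') y = tp x y + tp x' y := by
  unfold tp
  rw [Multiset.add_bind]

end sums

section phi

theorem Phi_add (x y : Multiset ℝ) (t : ℝ) : Phi (x + y) t = Phi x t + Phi y t := by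
  simp [Phi]

theorem Phi_cons (a : ℝ) (x : Multiset ℝ) (t : ℝ) : Phi (a ::ₘ x) t = max (a - t) 0 + Phi x t := by
  simp [Phi]

theorem Phi_zero (t : ℝ) : Phi 0 t = 0 := by simp [Phi]

theorem Phi_nonneg (x : Multiset ℝ) (t : ℝ) : 0 ≤ Phi x t := by
  unfold Phi
  apply Multiset.sum_nonneg
  intro a ha
  rw [Multiset.mem_map] at ha
  obtain ⟨b, _, rfl⟩ := ha
  exact le_max_right _ _

theorem Phi_ge (x : Multiset ℝ) (t : ℝ) : x.sum - x.card * t ≤ Phi x t := by
  induction x using Multiset.induction_on with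
  | empty => simp [Phi]
  | cons a x ih =>
    rw [Phi_cons, Multiset.sum_cons, Multiset.card_cons]
    push_cast
    have := le_max_left (a - t) 0
    linarith

theorem Phi_eq_of_le (x : Multiset ℝ) (t : ℝ) (h : ∀ a ∈ x, t ≤ a) :
    Phi x t = x.sum - x.card * t := by
  induction x using Multiset.induction_on with
  | empty => simp [Phi]
  | cons a x ih =>
    rw [Phi_cons, Multiset.sum_cons, Multiset.card_cons, ih (fun b hb => h b (by simp [hb]))]
    push_cast
    have := h a (by simp)
    rw [max_eq_left (by linarith)]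
    ring

theorem Phi_eq_zero (x : Multiset ℝ) (t : ℝ) (h : ∀ a ∈ x, a ≤ t) : Phi x t = 0 := by
  induction x using Multiset.induction_on with
  | empty => simp [Phi]
  | cons a x ih =>
    rw [Phi_cons, ih (fun b hb => h b (by simp [hb])), add_zero]
    have := h a (by simp)
    exact max_eq_right (by linarith)

theorem Phi_continuous (x : Multiset ℝ) : Continuous (Phi x) := by
  induction x using Multiset.induction_on with
  | empty =>
    have : Phi 0 = fun _ => 0 := by funext t; exact Phi_zero t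
    rw [this]; exact continuous_const
  | cons a x ih =>
    have : Phi (a ::ₘ x) = fun t => max (a - t) 0 + Phi x t := by
      funext t; exact Phi_cons a x t
    rw [this]
    fun_prop

/-- `Φ_{x ⊗ y}(t) = ∑_{b ∈ y} b Φ_x(t / b)` for positive entries of `y`. -/
theorem Phi_tp (x y : Multiset ℝ) (hy : ∀ b ∈ y, 0 < b) (t : ℝ) :
    Phi (tp x y) t = (y.map (fun b => b * Phi x (t / b))).sum := by
  unfold Phi
  rw [sum_map_tp, Multiset.sum_map_sum_map]
  congr 1
  apply Multiset.map_congr rfl
  intro b hb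
  rw [← Multiset.sum_map_mul_left]
  congr 1
  apply Multiset.map_congr rfl
  intro a _
  have hb' := hy b hb
  rw [mul_max_of_nonneg _ _ hb'.le, mul_zero]
  congr 1
  field_simp

theorem Maj.refl (x : Multiset ℝ) : Maj x x := ⟨rfl, fun _ _ => le_rfl⟩

theorem Maj.trans {x y z : Multiset ℝ} (h1 : Maj x y) (h2 : Maj y z) : Maj x z :=
  ⟨h1.1.trans h2.1, fun t ht => (h1.2 t ht).trans (h2.2 t ht)⟩

theorem Maj.add {x y : Multiset ℝ} (h : Maj x y) (c : Multiset ℝ) : Maj (c + x) (c + y) := by
  refine ⟨by rw [Multiset.sum_add, Multiset.sum_add, h.1], fun t ht => ?_⟩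
  rw [Phi_add, Phi_add]
  linarith [h.2 t ht]

theorem Maj.tp {x y : Multiset ℝ} (h : Maj x y) (q : Multiset ℝ) (hq : ∀ b ∈ q, 0 < b) :
    Maj (tp x q) (tp y q) := by
  refine ⟨by rw [sum_tp, sum_tp, h.1], fun t ht => ?_⟩
  rw [Phi_tp x q hq, Phi_tp y q hq]
  apply Multiset.sum_map_le_sum_map
  intro b hb
  exact mul_le_mul_of_nonneg_left (h.2 _ (div_nonneg ht (hq b hb).le)) (hq b hb).le

theorem exists_lower (x : Multiset ℝ) (hx : ∀ a ∈ x, 0 < a) :
    ∃ ε : ℝ, 0 < ε ∧ ε ≤ 1 ∧ ∀ a ∈ x, ε ≤ a := by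
  induction x using Multiset.induction_on with
  | empty => exact ⟨1, one_pos, le_rfl, by simp⟩
  | cons a x ih =>
    obtain ⟨ε, hε, h1, h⟩ := ih (fun b hb => hx b (by simp [hb]))
    refine ⟨min ε a, lt_min hε (hx a (by simp)), (min_le_left _ _).trans h1, ?_⟩
    intro b hb
    rw [Multiset.mem_cons] at hb
    rcases hb with rfl | hb
    · exact min_le_right _ _
    · exact (min_le_left _ _).trans (h b hb)

/-- majorization implies fewer positive entries -/
theorem Maj.card_le {x y : Multiset ℝ} (h : Maj x y) (hx : ∀ a ∈ x, 0 < a) (hy : ∀ a ∈ y, 0 < a) :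
    y.card ≤ x.card := by
  obtain ⟨ε, hε, -, hε'⟩ := exists_lower (x + y) (by
    intro a ha
    rw [Multiset.mem_add] at ha
    rcases ha with ha | ha
    · exact hx a ha
    · exact hy a ha)
  have h1 := h.2 ε hε.le
  rw [Phi_eq_of_le x ε (fun a ha => hε' a (by simp [ha])),
    Phi_eq_of_le y ε (fun a ha => hε' a (by simp [ha])), h.1] at h1
  have h2 : (y.card : ℝ) * ε ≤ x.card * ε := by linarith
  have h3 := le_of_mul_le_mul_right h2 hε
  exact_mod_cast h3

end phi

end Pool.Agent.H94Flex
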