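import Mathlib
import Pool.Agent.H94Flex.Basic

/-! Second order Taylor formula and Karamata-type inequalities. -/

namespace Pool.Agent.H94Flex

open MeasureTheory intervalIntegral Set Filter Topology

section taylor

variable {E : Type*} [NormedAddCommGroup E] [NormedSpace ℝ E] [CompleteSpace E]

theorem taylor_single {f f' f'' : ℝ → E} (h1 : ∀ t, 0 < t → HasDerivAt f (f' t) t)
    (h2 : ∀ t, 0 < t → HasDerivAt f' (f'' t) t) (h3 : ContinuousOn f'' (Ioi 0))
    {ε a : ℝ} (hε : 0 < ε) (ha : ε ≤ a) (ha1 : a ≤ 1) :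
    f a = (f ε - ε • f' ε) + a • f' ε + ∫ t in ε..1, (max (a - t) 0) • f'' t := by
  have hsub : ∀ u v : ℝ, ε ≤ u → ε ≤ v → uIcc u v ⊆ Ioi 0 := by
    intro u v hu hv t ht
    rw [mem_uIcc] at ht
    rcases ht with ht | ht
    · exact lt_of_lt_of_le hε (hu.trans ht.1)
    · exact lt_of_lt_of_le hε (hv.trans ht.1)
  have hint : ∀ u v : ℝ, ε ≤ u → ε ≤ v →
      IntervalIntegrable (fun t => (max (a - t) 0) • f'' t) volume u v := by
    intro u v hu hv
    apply ContinuousOn.intervalIntegrable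
    apply ContinuousOn.smul
    · fun_prop
    · exact h3.mono (hsub u v hu hv)
  rw [← integral_add_adjacent_intervals (hint ε a le_rfl ha) (hint a 1 ha (ha.trans ha1))]
  have e2 : ∫ t in a..1, (max (a - t) 0) • f'' t = 0 := by
    have : ∫ t in a..1, (max (a - t) 0) • f'' t = ∫ t in a..1, (0 : E) := by
      apply integral_congr
      intro t ht
      rw [uIcc_of_le ha1] at ht
      simp only
      rw [max_eq_right (by linarith [ht.1]), zero_smul]
    rw [this, intervalIntegral.integral_zero]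
  have e1 : ∫ t in ε..a, (max (a - t) 0) • f'' t = ∫ t in ε..a, (a - t) • f'' t := by
    apply integral_congr
    intro t ht
    rw [uIcc_of_le ha] at ht
    simp only
    rw [max_eq_left (by linarith [ht.2])]
  have e3 : ∫ t in ε..a, (a - t) • f'' t
      = ((a - a) • f' a + f a) - ((a - ε) • f' ε + f ε) := by
    apply integral_eq_sub_of_hasDerivAt (f := fun t => (a - t) • f' t + f t)
    · intro t ht
      have ht0 : 0 < t := hsub ε a le_rfl ha ht
      have d1 : HasDerivAt (fun t : ℝ => a - t) (-1) t := by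
        simpa using (hasDerivAt_id t).const_sub a
      have hd : HasDerivAt (fun t => (a - t) • f' t + f t)
          ((a - t) • f'' t + (-1 : ℝ) • f' t + f' t) t := (d1.smul (h2 t ht0)).add (h1 t ht0)
      refine hd.congr_deriv ?_
      module
    · apply ContinuousOn.intervalIntegrable
      apply ContinuousOn.smul
      · fun_prop
      · exact h3.mono (hsub ε a le_rfl ha)
  rw [e1, e2, e3, add_zero, sub_self, zero_smul, zero_add]
  module

omit [CompleteSpace E] in
theorem phi_smul_intervalIntegrable {f'' : ℝ → E} (h3 : ContinuousOn f'' (Ioi 0))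
    {ε : ℝ} (hε : 0 < ε) (hε1 : ε ≤ 1) (x : Multiset ℝ) :
    IntervalIntegrable (fun t => Phi x t • f'' t) volume ε 1 := by
  apply ContinuousOn.intervalIntegrable
  apply ContinuousOn.smul
  · exact (Phi_continuous x).continuousOn
  · apply h3.mono
    intro t ht
    rw [uIcc_of_le hε1] at ht
    exact lt_of_lt_of_le hε ht.1

theorem taylor_multiset {f f' f'' : ℝ → E} (h1 : ∀ t, 0 < t → HasDerivAt f (f' t) t)
    (h2 : ∀ t, 0 < t → HasDerivAt f' (f'' t) t) (h3 : ContinuousOn f'' (Ioi 0))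
    {ε : ℝ} (hε : 0 < ε) (hε1 : ε ≤ 1) (x : Multiset ℝ) (hx : ∀ a ∈ x, ε ≤ a ∧ a ≤ 1) :
    (x.map f).sum = (x.card : ℝ) • (f ε - ε • f' ε) + x.sum • f' ε
      + ∫ t in ε..1, Phi x t • f'' t := by
  induction x using Multiset.induction_on with
  | empty => simp [Phi]
  | cons a x ih =>
    obtain ⟨ha, ha1⟩ := hx a (by simp)
    rw [Multiset.map_cons, Multiset.sum_cons, ih (fun b hb => hx b (by simp [hb])),
      taylor_single h1 h2 h3 hε ha ha1]
    have e : ∫ t in ε..1, Phi (a ::ₘ x) t • f'' t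
        = (∫ t in ε..1, (max (a - t) 0) • f'' t) + ∫ t in ε..1, Phi x t • f'' t := by
      rw [← intervalIntegral.integral_add]
      · apply integral_congr
        intro t _
        simp only
        rw [Phi_cons, add_smul]
      · have := phi_smul_intervalIntegrable h3 hε hε1 {a}
        convert this using 2
        simp [Phi]
      · exact phi_smul_intervalIntegrable h3 hε hε1 x
    rw [e, Multiset.card_cons, Multiset.sum_cons]
    push_cast
    module

end taylor

/-- The basic estimate at a fixed lower cut-off `ε`. -/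
theorem kara_fixed {f f' f'' : ℝ → ℂ} {g g' g'' : ℝ → ℝ}
    (h1 : ∀ t, 0 < t → HasDerivAt f (f' t) t)
    (h2 : ∀ t, 0 < t → HasDerivAt f' (f'' t) t) (h3 : ContinuousOn f'' (Ioi 0))
    (k1 : ∀ t, 0 < t → HasDerivAt g (g' t) t)
    (k2 : ∀ t, 0 < t → HasDerivAt g' (g'' t) t) (k3 : ContinuousOn g'' (Ioi 0))
    {C ε : ℝ} (hε : 0 < ε) (hε1 : ε ≤ 1) (hC : ∀ t, ε ≤ t → t ≤ 1 → ‖f'' t‖ ≤ C * g'' t)
    {x y : Multiset ℝ} (hx : ∀ a ∈ x, ε ≤ a ∧ a ≤ 1) (hy : ∀ a ∈ y, ε ≤ a ∧ a ≤ 1)
    (hm : Maj x y) :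
    ‖(y.map f).sum - (x.map f).sum - ((y.card : ℝ) - x.card) • (f ε - ε • f' ε)‖
      ≤ C * ((y.map g).sum - (x.map g).sum - ((y.card : ℝ) - x.card) * (g ε - ε * g' ε)) := by
  have ef : (y.map f).sum - (x.map f).sum - ((y.card : ℝ) - x.card) • (f ε - ε • f' ε)
      = ∫ t in ε..1, (Phi y t - Phi x t) • f'' t := by
    rw [taylor_multiset h1 h2 h3 hε hε1 x hx, taylor_multiset h1 h2 h3 hε hε1 y hy, hm.1]
    have : ∫ t in ε..1, (Phi y t - Phi x t) • f'' t
        = (∫ t in ε..1, Phi y t • f'' t) - ∫ t in ε..1, Phi x t • f'' t := by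
      rw [← intervalIntegral.integral_sub (phi_smul_intervalIntegrable h3 hε hε1 y)
        (phi_smul_intervalIntegrable h3 hε hε1 x)]
      apply integral_congr
      intro t _
      simp only
      rw [sub_smul]
    rw [this]
    module
  have eg : (y.map g).sum - (x.map g).sum - ((y.card : ℝ) - x.card) * (g ε - ε * g' ε)
      = ∫ t in ε..1, (Phi y t - Phi x t) * g'' t := by
    rw [taylor_multiset k1 k2 k3 hε hε1 x hx, taylor_multiset k1 k2 k3 hε hε1 y hy, hm.1]
    have : ∫ t in ε..1, (Phi y t - Phi x t) * g'' t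
        = (∫ t in ε..1, Phi y t • g'' t) - ∫ t in ε..1, Phi x t • g'' t := by
      rw [← intervalIntegral.integral_sub (phi_smul_intervalIntegrable k3 hε hε1 y)
        (phi_smul_intervalIntegrable k3 hε hε1 x)]
      apply integral_congr
      intro t _
      simp only [smul_eq_mul]
      ring
    rw [this]
    simp only [smul_eq_mul]
    ring
  rw [ef, eg, ← intervalIntegral.integral_const_mul]
  apply norm_integral_le_of_norm_le hε1
  · apply Filter.Eventually.of_forall
    intro t ht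
    have ht0 : 0 ≤ Phi y t - Phi x t := sub_nonneg.mpr (hm.2 t (hε.le.trans ht.1.le))
    rw [norm_smul, Real.norm_of_nonneg ht0]
    have := mul_le_mul_of_nonneg_left (hC t ht.1.le ht.2) ht0
    linarith
  · apply IntervalIntegrable.const_mul
    have a := phi_smul_intervalIntegrable k3 hε hε1 y
    have b := phi_smul_intervalIntegrable k3 hε hε1 x
    convert a.sub b using 2
    simp only [smul_eq_mul]
    ring

/-- The estimate in the limit `ε → 0`. -/
theorem kara_limit {f f' f'' : ℝ → ℂ} {g g' g'' : ℝ → ℝ}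
    (h1 : ∀ t, 0 < t → HasDerivAt f (f' t) t)
    (h2 : ∀ t, 0 < t → HasDerivAt f' (f'' t) t) (h3 : ContinuousOn f'' (Ioi 0))
    (k1 : ∀ t, 0 < t → HasDerivAt g (g' t) t)
    (k2 : ∀ t, 0 < t → HasDerivAt g' (g'' t) t) (k3 : ContinuousOn g'' (Ioi 0))
    {C : ℝ} (hC : ∀ t, 0 < t → t ≤ 1 → ‖f'' t‖ ≤ C * g'' t)
    (lf : Tendsto (fun ε : ℝ => f ε - ε • f' ε) (𝓝[>] 0) (𝓝 0))
    (lg : Tendsto (fun ε : ℝ => g ε - ε * g' ε) (𝓝[>] 0) (𝓝 0))
    {x y : Multiset ℝ} (hx : ∀ a ∈ x, 0 < a ∧ a ≤ 1) (hy : ∀ a ∈ y, 0 < a ∧ a ≤ 1)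
    (hm : Maj x y) :
    ‖(y.map f).sum - (x.map f).sum‖ ≤ C * ((y.map g).sum - (x.map g).sum) := by
  obtain ⟨δ, hδ, hδ1, hδ'⟩ := exists_lower (x + y) (by
    intro a ha
    rw [Multiset.mem_add] at ha
    rcases ha with ha | ha
    · exact (hx a ha).1
    · exact (hy a ha).1)
  have key : ∀ᶠ ε in 𝓝[>] (0 : ℝ),
      ‖(y.map f).sum - (x.map f).sum - ((y.card : ℝ) - x.card) • (f ε - ε • f' ε)‖
      ≤ C * ((y.map g).sum - (x.map g).sum - ((y.card : ℝ) - x.card) * (g ε - ε * g' ε)) := by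
    have : ∀ᶠ ε in 𝓝[>] (0 : ℝ), ε ∈ Ioc 0 δ := Ioc_mem_nhdsGT hδ
    filter_upwards [this] with ε hε
    apply kara_fixed h1 h2 h3 k1 k2 k3 hε.1 (hε.2.trans hδ1)
      (fun t ht ht1 => hC t (lt_of_lt_of_le hε.1 ht) ht1) _ _ hm
    · intro a ha
      exact ⟨hε.2.trans (hδ' a (by simp [ha])), (hx a ha).2⟩
    · intro a ha
      exact ⟨hε.2.trans (hδ' a (by simp [ha])), (hy a ha).2⟩
  have t1 : Tendsto (fun ε : ℝ =>
      ‖(y.map f).sum - (x.map f).sum - ((y.card : ℝ) - x.card) • (f ε - ε • f' ε)‖) (𝓝[>] 0)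
      (𝓝 ‖(y.map f).sum - (x.map f).sum‖) := by
    have := ((tendsto_const_nhds (x := (y.map f).sum - (x.map f).sum)).sub
      (lf.const_smul ((y.card : ℝ) - x.card))).norm
    simpa using this
  have t2 : Tendsto (fun ε : ℝ =>
      C * ((y.map g).sum - (x.map g).sum - ((y.card : ℝ) - x.card) * (g ε - ε * g' ε))) (𝓝[>] 0)
      (𝓝 (C * ((y.map g).sum - (x.map g).sum))) := by
    have := ((tendsto_const_nhds (x := (y.map g).sum - (x.map g).sum)).sub
      (lg.const_mul ((y.card : ℝ) - x.card))).const_mul C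
    simpa using this
  exact le_of_tendsto_of_tendsto t1 t2 key

end Pool.Agent.H94Flex
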