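import Mathlib
import Pool.Agent.H94Flex.Karamata

/-! Power sums and the Karamata estimate for them. -/

namespace Pool.Agent.H94Flex

open Set Filter Topology

/-- complex power sum -/
noncomputable def M (x : Multiset ℝ) (s : ℂ) : ℂ := (x.map (fun a : ℝ => (a : ℂ) ^ s)).sum

/-- real power sum -/
noncomputable def m (x : Multiset ℝ) (s : ℝ) : ℝ := (x.map (fun a : ℝ => a ^ s)).sum

/-- the convex function with second derivative `t ^ (α - 2)` -/
noncomputable def gf (α t : ℝ) : ℝ :=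
  if α = 1 then t * Real.log t else if α = 0 then -Real.log t else t ^ α / (α * (α - 1))

noncomputable def gf' (α t : ℝ) : ℝ :=
  if α = 1 then Real.log t + 1 else if α = 0 then -t⁻¹ else t ^ (α - 1) / (α - 1)

noncomputable def gf'' (α t : ℝ) : ℝ := t ^ (α - 2)

theorem hasDerivAt_gf (α t : ℝ) (ht : 0 < t) : HasDerivAt (gf α) (gf' α t) t := by
  unfold gf gf'
  split_ifs with h1 h0
  · exact Real.hasDerivAt_mul_log ht.ne'
  · exact (Real.hasDerivAt_log ht.ne').neg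
  · have h := (Real.hasDerivAt_rpow_const (x := t) (p := α) (Or.inl ht.ne')).div_const (α * (α - 1))
    refine h.congr_deriv ?_
    have : α - 1 ≠ 0 := sub_ne_zero.mpr h1
    field_simp

theorem hasDerivAt_gf' (α t : ℝ) (ht : 0 < t) : HasDerivAt (gf' α) (gf'' α t) t := by
  unfold gf' gf''
  split_ifs with h1 h0
  · subst h1
    have h := (Real.hasDerivAt_log ht.ne').add_const 1
    refine h.congr_deriv ?_
    rw [show (1 : ℝ) - 2 = -1 by norm_num, Real.rpow_neg_one]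
  · subst h0
    have h := (hasDerivAt_inv ht.ne').neg
    refine h.congr_deriv ?_
    rw [show (0 : ℝ) - 2 = -(2 : ℕ) by norm_num, Real.rpow_neg ht.le, Real.rpow_natCast]
    simp
  · have h := (Real.hasDerivAt_rpow_const (x := t) (p := α - 1) (Or.inl ht.ne')).div_const (α - 1)
    refine h.congr_deriv ?_
    have : α - 1 ≠ 0 := sub_ne_zero.mpr h1
    rw [show α - 1 - 1 = α - 2 by ring]
    field_simp

theorem continuousOn_gf'' (α : ℝ) : ContinuousOn (gf'' α) (Ioi 0) := by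
  intro t ht
  exact (Real.continuousAt_rpow_const t _ (Or.inl (ne_of_gt ht))).continuousWithinAt

theorem tendsto_gf (α : ℝ) (hα : 0 < α) :
    Tendsto (fun ε : ℝ => gf α ε - ε * gf' α ε) (𝓝[>] 0) (𝓝 0) := by
  unfold gf gf'
  split_ifs with h1 h0
  · have : Tendsto (fun ε : ℝ => -ε) (𝓝[>] 0) (𝓝 0) := by
      have : Tendsto (fun ε : ℝ => -ε) (𝓝 0) (𝓝 (-0)) := continuous_neg.tendsto 0
      rw [neg_zero] at this
      exact this.mono_left nhdsWithin_le_nhds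
    refine this.congr ?_
    intro ε
    ring
  · exact absurd h0 hα.ne'
  · have h2 : Tendsto (fun ε : ℝ => -(ε ^ α / α)) (𝓝[>] 0) (𝓝 0) := by
      have : Tendsto (fun ε : ℝ => ε ^ α) (𝓝 0) (𝓝 (0 ^ α)) :=
        (Real.continuousAt_rpow_const 0 α (Or.inr hα.le)).tendsto
      rw [Real.zero_rpow hα.ne'] at this
      have := (this.div_const α).neg
      simp only [zero_div, neg_zero] at this
      exact this.mono_left nhdsWithin_le_nhds
    refine h2.congr' ?_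
    filter_upwards [self_mem_nhdsWithin] with ε hε
    have hε0 : (0 : ℝ) < ε := hε
    have h3 : α - 1 ≠ 0 := sub_ne_zero.mpr h1
    have h4 : ε ^ α = ε * ε ^ (α - 1) := by
      rw [Real.rpow_sub_one hε0.ne']
      field_simp
    rw [h4]
    field_simp
    ring

section cpow

theorem hasDerivAt_cp (s : ℂ) (t : ℝ) (ht : 0 < t) :
    HasDerivAt (fun t : ℝ => (t : ℂ) ^ s) (s * (t : ℂ) ^ (s - 1)) t := by
  have h : HasDerivAt (fun z : ℂ => z ^ s) (s * (t : ℂ) ^ (s - 1)) (t : ℂ) := by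
    have := (hasDerivAt_id (t : ℂ)).cpow_const (c := s) (by
      simp only [id]
      exact Complex.ofReal_mem_slitPlane.mpr ht)
    simpa using this
  exact h.comp_ofReal

theorem hasDerivAt_cp' (s : ℂ) (t : ℝ) (ht : 0 < t) :
    HasDerivAt (fun t : ℝ => s * (t : ℂ) ^ (s - 1)) (s * (s - 1) * (t : ℂ) ^ (s - 2)) t := by
  have h := (hasDerivAt_cp (s - 1) t ht).const_mul s
  refine h.congr_deriv ?_
  rw [show s - 1 - 1 = s - 2 by ring]
  ring

theorem continuousOn_cp'' (s : ℂ) :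
    ContinuousOn (fun t : ℝ => s * (s - 1) * (t : ℂ) ^ (s - 2)) (Ioi 0) := by
  intro t ht
  exact ((hasDerivAt_cp (s - 2) t ht).continuousAt.const_mul _).continuousWithinAt

theorem norm_cp (s : ℂ) (t : ℝ) (ht : 0 < t) : ‖(t : ℂ) ^ s‖ = t ^ s.re :=
  Complex.norm_cpow_eq_rpow_re_of_pos ht s

theorem tendsto_cp (s : ℂ) (hs : 0 < s.re) :
    Tendsto (fun ε : ℝ => (ε : ℂ) ^ s - ε • (s * (ε : ℂ) ^ (s - 1))) (𝓝[>] 0) (𝓝 0) := by
  have h2 : Tendsto (fun ε : ℝ => ‖1 - s‖ * ε ^ s.re) (𝓝[>] 0) (𝓝 0) := by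
    have : Tendsto (fun ε : ℝ => ε ^ s.re) (𝓝 0) (𝓝 (0 ^ s.re)) :=
      (Real.continuousAt_rpow_const 0 s.re (Or.inr hs.le)).tendsto
    rw [Real.zero_rpow hs.ne'] at this
    have := this.const_mul ‖1 - s‖
    rw [mul_zero] at this
    exact this.mono_left nhdsWithin_le_nhds
  rw [tendsto_zero_iff_norm_tendsto_zero]
  refine h2.congr' ?_
  filter_upwards [self_mem_nhdsWithin] with ε hε
  have hε0 : (0 : ℝ) < ε := hε
  have e : (ε : ℂ) ^ s - ε • (s * (ε : ℂ) ^ (s - 1)) = (1 - s) * (ε : ℂ) ^ s := by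
    have hne : (ε : ℂ) ≠ 0 := by exact_mod_cast hε0.ne'
    have : (ε : ℂ) ^ s = ε * (ε : ℂ) ^ (s - 1) := by
      rw [Complex.cpow_sub _ _ hne, Complex.cpow_one]
      field_simp
    rw [Complex.real_smul]
    rw [this]
    ring
  rw [e, norm_mul, norm_cp s ε hε0]

end cpow

/-- The sum of `gf α` over a vector. -/
noncomputable def G (α : ℝ) (x : Multiset ℝ) : ℝ := (x.map (gf α)).sum

theorem kara_power {α : ℝ} (hα : 0 < α) {s : ℂ} (hs : α ≤ s.re) {x y : Multiset ℝ}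
    (hx : ∀ a ∈ x, 0 < a ∧ a ≤ 1) (hy : ∀ a ∈ y, 0 < a ∧ a ≤ 1) (hm : Maj x y) :
    ‖M y s - M x s‖ ≤ ‖s * (s - 1)‖ * (G α y - G α x) := by
  apply kara_limit (hasDerivAt_cp s) (hasDerivAt_cp' s) (continuousOn_cp'' s) (hasDerivAt_gf α)
    (hasDerivAt_gf' α) (continuousOn_gf'' α) _ (tendsto_cp s (lt_of_lt_of_le hα hs))
    (tendsto_gf α hα) hx hy hm
  intro t ht ht1
  rw [norm_mul, norm_cp (s - 2) t ht]
  apply mul_le_mul_of_nonneg_left _ (norm_nonneg _)
  unfold gf''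
  apply Real.rpow_le_rpow_of_exponent_ge ht ht1
  simp
  exact hs

/-- `G α` is monotone for majorization, `α > 0`. -/
theorem G_mono {α : ℝ} (hα : 0 < α) {x y : Multiset ℝ}
    (hx : ∀ a ∈ x, 0 < a ∧ a ≤ 1) (hy : ∀ a ∈ y, 0 < a ∧ a ≤ 1) (hm : Maj x y) :
    G α x ≤ G α y := by
  have h := kara_power hα (s := ((α + 1 : ℝ) : ℂ)) (by simp) hx hy hm
  have hn := norm_nonneg (M y ((α + 1 : ℝ) : ℂ) - M x ((α + 1 : ℝ) : ℂ))
  have hc : 0 < ‖((α + 1 : ℝ) : ℂ) * (((α + 1 : ℝ) : ℂ) - 1)‖ := by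
    rw [norm_pos_iff]
    push_cast
    have h1 : (α : ℂ) ≠ 0 := by exact_mod_cast hα.ne'
    have h2 : (α : ℂ) + 1 ≠ 0 := by exact_mod_cast (by linarith : α + 1 ≠ 0)
    simp [h1, h2]
  by_contra hcon
  push Not at hcon
  have := mul_neg_of_pos_of_neg hc (sub_neg.mpr hcon)
  linarith

/-- The version with equal numbers of entries, all entries bounded below by `ε`; `s` real. -/
theorem kara_power_fixed {α σ ε : ℝ} (hε : 0 < ε) (hε1 : ε ≤ 1) {x y : Multiset ℝ}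
    (hx : ∀ a ∈ x, ε ≤ a ∧ a ≤ 1) (hy : ∀ a ∈ y, ε ≤ a ∧ a ≤ 1) (hm : Maj x y)
    (hc : x.card = y.card) :
    ‖M y σ - M x σ‖ ≤ (|σ * (σ - 1)| * ε ^ (-|σ - α|)) * (G α y - G α x) := by
  have h := kara_fixed (hasDerivAt_cp σ) (hasDerivAt_cp' σ) (continuousOn_cp'' σ) (hasDerivAt_gf α)
    (hasDerivAt_gf' α) (continuousOn_gf'' α) hε hε1 (C := |σ * (σ - 1)| * ε ^ (-|σ - α|))
    ?_ hx hy hm
  · rw [hc] at h
    simpa [M, G] using h
  · intro t ht ht1
    have ht0 : 0 < t := lt_of_lt_of_le hε ht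
    rw [norm_mul, norm_cp _ t ht0]
    unfold gf''
    have e1 : ‖(σ : ℂ) * ((σ : ℂ) - 1)‖ = |σ * (σ - 1)| := by
      have : (σ : ℂ) * ((σ : ℂ) - 1) = ((σ * (σ - 1) : ℝ) : ℂ) := by push_cast; ring
      rw [this, Complex.norm_real, Real.norm_eq_abs]
    rw [e1, mul_assoc]
    apply mul_le_mul_of_nonneg_left _ (abs_nonneg _)
    have e2 : ((σ : ℂ) - 2).re = (σ - α) + (α - 2) := by simp
    rw [e2, Real.rpow_add ht0]
    apply mul_le_mul_of_nonneg_right _ (Real.rpow_nonneg ht0.le _)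
    calc t ^ (σ - α) ≤ t ^ (-|σ - α|) :=
          Real.rpow_le_rpow_of_exponent_ge ht0 ht1 (neg_abs_le _)
      _ ≤ ε ^ (-|σ - α|) :=
          Real.rpow_le_rpow_of_nonpos hε ht (by simp)

end Pool.Agent.H94Flex
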