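import Mathlib
import Pool.Agent.H94Flex.Power
import Pool.Agent.H94Flex.Direction

/-! Necessity of the strict inequalities for positive exponents. -/

namespace Pool.Agent.H94Flex

open Set Filter Topology

/-- positive entries with sum one -/
def PV (x : Multiset ℝ) : Prop := (∀ a ∈ x, 0 < a) ∧ x.sum = 1

theorem PV.le_one {x : Multiset ℝ} (h : PV x) : ∀ a ∈ x, a ≤ 1 := by
  intro a ha
  obtain ⟨y, rfl⟩ := Multiset.exists_cons_of_mem ha
  have h2 := h.2
  rw [Multiset.sum_cons] at h2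
  have : 0 ≤ y.sum := Multiset.sum_nonneg (fun b hb => (h.1 b (by simp [hb])).le)
  linarith

theorem PV.mem {x : Multiset ℝ} (h : PV x) : ∀ a ∈ x, 0 < a ∧ a ≤ 1 :=
  fun a ha => ⟨h.1 a ha, h.le_one a ha⟩

theorem PV.ne_zero {x : Multiset ℝ} (h : PV x) : x ≠ 0 := by
  rintro rfl
  have := h.2
  simp at this

theorem PV.tp {x y : Multiset ℝ} (hx : PV x) (hy : PV y) : PV (tp x y) := by
  refine ⟨?_, by rw [sum_tp, hx.2, hy.2, one_mul]⟩
  intro a ha
  obtain ⟨b, hb, c, hc, rfl⟩ := mem_tp ha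
  exact mul_pos (hx.1 b hb) (hy.1 c hc)

/-- an infinite flexible catalysis chain -/
def Chain (p r : Multiset ℝ) (q : ℕ → Multiset ℝ) : Prop :=
  (∀ n, PV (q n)) ∧ ∀ n, Maj (tp p (q n)) (tp r (q (n + 1)))

theorem growth {x : ℕ → ℂ} {e : ℕ → ℝ} {P R : ℂ} {B T : ℝ} (hR : 0 < ‖R‖) (hPR : ‖R‖ < ‖P‖)
    (h : ∀ n, ‖R * x (n + 1) - P * x n‖ ≤ e n) (he : ∀ n, 0 ≤ e n) (hB : ∀ n, ‖x n‖ ≤ B)
    (hsum : ∀ K, ∑ k ∈ Finset.range K, e k ≤ T) (hT : T < ‖R‖ * ‖x 0‖) : False := by
  set ρ := ‖P‖ / ‖R‖ with hρ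
  have hρ1 : 1 < ρ := by rw [hρ, lt_div_iff₀ hR]; linarith
  have hPρ : ‖P‖ = ρ * ‖R‖ := by rw [hρ]; field_simp
  have key : ∀ n, ρ ^ n * (‖R‖ * ‖x 0‖ - ∑ k ∈ Finset.range n, e k) ≤ ‖R‖ * ‖x n‖ := by
    intro n
    induction n with
    | zero => simp
    | succ n ih =>
      have h1 : ‖P * x n‖ - e n ≤ ‖R * x (n + 1)‖ := by
        have h2 := norm_sub_norm_le (P * x n) (R * x (n + 1))
        rw [norm_sub_rev] at h2
        linarith [h n]
      rw [norm_mul, norm_mul, hPρ] at h1
      have h3 : ρ * (ρ ^ n * (‖R‖ * ‖x 0‖ - ∑ k ∈ Finset.range n, e k)) ≤ ρ * (‖R‖ * ‖x n‖) :=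
        mul_le_mul_of_nonneg_left ih (by linarith)
      have h4 : 1 ≤ ρ ^ (n + 1) := one_le_pow₀ hρ1.le
      have h5 : e n ≤ ρ ^ (n + 1) * e n := le_mul_of_one_le_left (he n) h4
      rw [Finset.sum_range_succ]
      calc ρ ^ (n + 1) * (‖R‖ * ‖x 0‖ - (∑ k ∈ Finset.range n, e k + e n))
          = ρ * (ρ ^ n * (‖R‖ * ‖x 0‖ - ∑ k ∈ Finset.range n, e k)) - ρ ^ (n + 1) * e n := by
            rw [pow_succ]; ring
        _ ≤ ‖R‖ * ‖x (n + 1)‖ := by nlinarith
  have hpos : 0 < ‖R‖ * ‖x 0‖ - T := by linarith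
  obtain ⟨n, hn⟩ := pow_unbounded_of_one_lt (‖R‖ * B / (‖R‖ * ‖x 0‖ - T)) hρ1
  have h1 := key n
  have h2 : ρ ^ n * (‖R‖ * ‖x 0‖ - T) ≤ ρ ^ n * (‖R‖ * ‖x 0‖ - ∑ k ∈ Finset.range n, e k) := by
    apply mul_le_mul_of_nonneg_left _ (by positivity)
    linarith [hsum n]
  rw [div_lt_iff₀ hpos] at hn
  have h3 : ‖R‖ * ‖x n‖ ≤ ‖R‖ * B := mul_le_mul_of_nonneg_left (hB n) hR.le
  linarith

section powersums

theorem m_cons (a : ℝ) (x : Multiset ℝ) (s : ℝ) : m (a ::ₘ x) s = a ^ s + m x s := by simp [m]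
theorem m_add (x y : Multiset ℝ) (s : ℝ) : m (x + y) s = m x s + m y s := by simp [m]
theorem M_add (x y : Multiset ℝ) (s : ℂ) : M (x + y) s = M x s + M y s := by simp [M]

theorem M_ofReal {x : Multiset ℝ} (hx : ∀ a ∈ x, 0 < a) (s : ℝ) : M x (s : ℂ) = (m x s : ℂ) := by
  induction x using Multiset.induction_on with
  | empty => simp [M, m]
  | cons a x ih =>
    have h := ih (fun b hb => hx b (by simp [hb]))
    have ha : 0 < a := hx a (by simp)
    unfold M m at h ⊢
    rw [Multiset.map_cons, Multiset.sum_cons, h, Multiset.map_cons, Multiset.sum_cons,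
      Complex.ofReal_add, Complex.ofReal_cpow ha.le]

theorem M_tp {x y : Multiset ℝ} (hx : ∀ a ∈ x, 0 < a) (hy : ∀ a ∈ y, 0 < a) (s : ℂ) :
    M (tp x y) s = M x s * M y s := by
  unfold M
  apply sum_map_tp_mul
  intro a ha b hb
  rw [Complex.ofReal_mul, Complex.mul_cpow_ofReal_nonneg (hx a ha).le (hy b hb).le]

theorem m_tp {x y : Multiset ℝ} (hx : ∀ a ∈ x, 0 < a) (hy : ∀ a ∈ y, 0 < a) (s : ℝ) :
    m (tp x y) s = m x s * m y s := by
  unfold m
  apply sum_map_tp_mul
  intro a ha b hb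
  rw [Real.mul_rpow (hx a ha).le (hy b hb).le]

theorem m_one {x : Multiset ℝ} : m x 1 = x.sum := by simp [m]

theorem m_pos {x : Multiset ℝ} (hx : ∀ a ∈ x, 0 < a) (h0 : x ≠ 0) (s : ℝ) : 0 < m x s := by
  obtain ⟨a, ha⟩ := Multiset.exists_mem_of_ne_zero h0
  obtain ⟨y, rfl⟩ := Multiset.exists_cons_of_mem ha
  rw [m_cons]
  have h1 : 0 < a ^ s := Real.rpow_pos_of_pos (hx a ha) s
  have h2 : 0 ≤ m y s := by
    unfold m
    apply Multiset.sum_nonneg
    intro b hb
    rw [Multiset.mem_map] at hb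
    obtain ⟨c, hc, rfl⟩ := hb
    exact Real.rpow_nonneg (hx c (by simp [hc])).le s
  linarith

theorem m_anti {x : Multiset ℝ} (hx : ∀ a ∈ x, 0 < a ∧ a ≤ 1) {s t : ℝ} (h : s ≤ t) :
    m x t ≤ m x s := by
  unfold m
  apply Multiset.sum_map_le_sum_map
  intro a ha
  exact Real.rpow_le_rpow_of_exponent_ge (hx a ha).1 (hx a ha).2 h

theorem norm_M_le {x : Multiset ℝ} (hx : ∀ a ∈ x, 0 < a) (s : ℂ) : ‖M x s‖ ≤ m x s.re := by
  induction x using Multiset.induction_on with
  | empty => simp [M, m]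
  | cons a x ih =>
    have h := ih (fun b hb => hx b (by simp [hb]))
    have ha : 0 < a := hx a (by simp)
    have e : M (a ::ₘ x) s = (a : ℂ) ^ s + M x s := by simp [M]
    rw [e, m_cons]
    refine (norm_add_le _ _).trans ?_
    rw [norm_cp s a ha]
    linarith

theorem G_eq {α : ℝ} (h1 : α ≠ 1) (h0 : α ≠ 0) (x : Multiset ℝ) :
    G α x = m x α / (α * (α - 1)) := by
  unfold G m gf
  simp only [h1, h0, if_false]
  rw [← Multiset.sum_map_div]

theorem G_one_tp {x y : Multiset ℝ} (hx : PV x) (hy : PV y) :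
    G 1 (tp x y) = G 1 x + G 1 y := by
  unfold G
  rw [sum_map_tp]
  have e : x.map (fun a => (y.map (fun b => gf 1 (a * b))).sum)
      = x.map (fun a => gf 1 a + a * (y.map (gf 1)).sum) := by
    apply Multiset.map_congr rfl
    intro a ha
    have e2 : y.map (fun b => gf 1 (a * b)) = y.map (fun b => gf 1 a * b + a * gf 1 b) := by
      apply Multiset.map_congr rfl
      intro b hb
      have ha0 := (hx.1 a ha).ne'
      have hb0 := (hy.1 b hb).ne'
      simp only [gf, if_true]
      rw [Real.log_mul ha0 hb0]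
      ring
    rw [e2, Multiset.sum_map_add, Multiset.sum_map_mul_left, Multiset.sum_map_mul_left,
      Multiset.map_id', hy.2, mul_one]
  rw [e, Multiset.sum_map_add, Multiset.sum_map_mul_right, Multiset.map_id', hx.2, one_mul]

/-- upper bound for `G α` -/
theorem G_le {α : ℝ} (hα : 0 < α) {x : Multiset ℝ} (hx : PV x) :
    G α x ≤ if α = 1 then 0 else 1 / (α * (α - 1)) := by
  split_ifs with h1
  · subst h1
    unfold G
    have : (x.map (gf 1)).sum ≤ (x.map (fun _ => (0 : ℝ))).sum := by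
      apply Multiset.sum_map_le_sum_map
      intro a ha
      simp only [gf, if_true]
      exact mul_nonpos_of_nonneg_of_nonpos (hx.1 a ha).le
        (Real.log_nonpos (hx.1 a ha).le (hx.le_one a ha))
    simpa using this
  · rw [G_eq h1 hα.ne']
    have hm1 : m x 1 = 1 := by rw [m_one, hx.2]
    rcases lt_or_gt_of_ne h1 with h | h
    · have h2 : m x 1 ≤ m x α := m_anti hx.mem h.le
      rw [hm1] at h2
      apply div_le_div_of_nonpos_of_le _ h2
      exact (mul_neg_of_pos_of_neg hα (by linarith)).le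
    · have h2 : m x α ≤ m x 1 := m_anti hx.mem h.le
      rw [hm1] at h2
      exact div_le_div_of_nonneg_right h2 (mul_pos hα (by linarith)).le

end powersums

section chain

variable {p r : Multiset ℝ} {q : ℕ → Multiset ℝ}

theorem chain_G (hp : PV p) (hr : PV r) (h : Chain p r q) {α : ℝ} (hα : 0 < α) (n : ℕ) :
    G α (tp p (q n)) ≤ G α (tp r (q (n + 1))) :=
  G_mono hα (hp.tp (h.1 n)).mem (hr.tp (h.1 (n + 1))).mem (h.2 n)

/-- the weak inequality -/
theorem chain_weak (hp : PV p) (hr : PV r) (h : Chain p r q) {α : ℝ} (hα : 0 < α) :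
    G α p ≤ G α r := by
  by_contra hcon
  push Not at hcon
  by_cases h1 : α = 1
  · subst h1
    have key : ∀ n : ℕ, G 1 (q 0) + n * (G 1 p - G 1 r) ≤ G 1 (q n) := by
      intro n
      induction n with
      | zero => simp
      | succ n ih =>
        have := chain_G hp hr h hα n
        rw [G_one_tp hp (h.1 n), G_one_tp hr (h.1 (n + 1))] at this
        push_cast
        linarith
    have hle : ∀ n, G 1 (q n) ≤ 0 := by
      intro n
      have := G_le one_pos (h.1 n)
      simpa using this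
    obtain ⟨n, hn⟩ := exists_nat_gt (-(G 1 (q 0)) / (G 1 p - G 1 r))
    rw [div_lt_iff₀ (by linarith)] at hn
    linarith [key n, hle n]
  · have step : ∀ n, m p α * m (q n) α / (α * (α - 1)) ≤
        m r α * m (q (n + 1)) α / (α * (α - 1)) := by
      intro n
      have := chain_G hp hr h hα n
      rwa [G_eq h1 hα.ne', G_eq h1 hα.ne', m_tp hp.1 (h.1 n).1, m_tp hr.1 (h.1 (n + 1)).1] at this
    rw [G_eq h1 hα.ne', G_eq h1 hα.ne'] at hcon
    have pp := m_pos hp.1 hp.ne_zero α
    have rp := m_pos hr.1 hr.ne_zero α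
    have qp : ∀ n, 0 < m (q n) α := fun n => m_pos (h.1 n).1 (h.1 n).ne_zero α
    have hm1 : ∀ n, m (q n) 1 = 1 := fun n => by rw [m_one, (h.1 n).2]
    rcases lt_or_gt_of_ne h1 with hlt | hgt
    · have hneg : α * (α - 1) < 0 := mul_neg_of_pos_of_neg hα (by linarith)
      rw [div_lt_div_right_of_neg hneg] at hcon
      have hge : ∀ n, 1 ≤ m (q n) α := by
        intro n
        have := m_anti (h.1 n).mem hlt.le
        rwa [hm1] at this
      have step' : ∀ n, m r α * m (q (n + 1)) α ≤ m p α * m (q n) α := by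
        intro n
        exact (div_le_div_right_of_neg hneg).mp (step n)
      have key : ∀ n : ℕ, m (q n) α ≤ (m p α / m r α) ^ n * m (q 0) α := by
        intro n
        induction n with
        | zero => simp
        | succ n ih =>
          have h2 : m (q (n + 1)) α ≤ m p α / m r α * m (q n) α := by
            rw [div_mul_eq_mul_div, le_div_iff₀ rp]
            linarith [step' n]
          calc m (q (n + 1)) α ≤ m p α / m r α * m (q n) α := h2
            _ ≤ m p α / m r α * ((m p α / m r α) ^ n * m (q 0) α) :=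
              mul_le_mul_of_nonneg_left ih (by positivity)
            _ = _ := by rw [pow_succ]; ring
      have hlim : Tendsto (fun n : ℕ => (m p α / m r α) ^ n * m (q 0) α) atTop (𝓝 (0 * m (q 0) α)) :=
        (tendsto_pow_atTop_nhds_zero_of_lt_one (by positivity) (by
          rw [div_lt_one rp]; exact hcon)).mul_const _
      rw [zero_mul] at hlim
      have := ge_of_tendsto' hlim (fun n => (hge n).trans (key n))
      linarith
    · have hpos : 0 < α * (α - 1) := mul_pos hα (by linarith)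
      rw [div_lt_div_iff_of_pos_right hpos] at hcon
      have hle : ∀ n, m (q n) α ≤ 1 := by
        intro n
        have := m_anti (h.1 n).mem hgt.le
        rwa [hm1] at this
      have step' : ∀ n, m p α * m (q n) α ≤ m r α * m (q (n + 1)) α := by
        intro n
        exact (div_le_div_iff_of_pos_right hpos).mp (step n)
      have key : ∀ n : ℕ, (m p α / m r α) ^ n * m (q 0) α ≤ m (q n) α := by
        intro n
        induction n with
        | zero => simp
        | succ n ih =>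
          have h2 : m p α / m r α * m (q n) α ≤ m (q (n + 1)) α := by
            rw [div_mul_eq_mul_div, div_le_iff₀ rp]
            linarith [step' n]
          calc (m p α / m r α) ^ (n + 1) * m (q 0) α
              = m p α / m r α * ((m p α / m r α) ^ n * m (q 0) α) := by rw [pow_succ]; ring
            _ ≤ m p α / m r α * m (q n) α := mul_le_mul_of_nonneg_left ih (by positivity)
            _ ≤ _ := h2
      obtain ⟨n, hn⟩ := pow_unbounded_of_one_lt (1 / m (q 0) α)
        (show 1 < m p α / m r α by rw [one_lt_div rp]; exact hcon)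
      rw [div_lt_iff₀ (qp 0)] at hn
      linarith [key n, hle n]

end chain

end Pool.Agent.H94Flex
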