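import Mathlib
import Pool.Agent.H94Flex.Nec

/-! Strictness of the inequalities for positive exponents. -/

namespace Pool.Agent.H94Flex

open Set Filter Topology

/-- derivative of the power sum -/
noncomputable def m1 (x : Multiset ℝ) (s : ℝ) : ℝ := (x.map (fun a : ℝ => a ^ s * Real.log a)).sum

theorem hasDerivAt_m {x : Multiset ℝ} (hx : ∀ a ∈ x, 0 < a) (s : ℝ) :
    HasDerivAt (m x) (m1 x s) s := by
  induction x using Multiset.induction_on with
  | empty =>
    have e : m 0 = fun _ => 0 := by funext s; simp [m]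
    rw [e]
    simpa [m1] using hasDerivAt_const s (0 : ℝ)
  | cons a x ih =>
    have h := ih (fun b hb => hx b (by simp [hb]))
    have ha : 0 < a := hx a (by simp)
    have e : m (a ::ₘ x) = fun s => a ^ s + m x s := by funext s; exact m_cons a x s
    have e1 : m1 (a ::ₘ x) s = a ^ s * Real.log a + m1 x s := by simp [m1]
    rw [e, e1]
    have h2 : HasDerivAt (fun s : ℝ => a ^ s) (a ^ s * Real.log a) s := by
      have := (hasDerivAt_id s).const_rpow ha
      simp only [id] at this
      refine this.congr_deriv ?_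
      ring
    exact h2.add h

theorem hasDerivAt_M {x : Multiset ℝ} (hx : ∀ a ∈ x, 0 < a) (s : ℂ) :
    HasDerivAt (M x) ((x.map (fun a : ℝ => (a : ℂ) ^ s * Complex.log a)).sum) s := by
  induction x using Multiset.induction_on with
  | empty =>
    have e : M 0 = fun _ => 0 := by funext s; simp [M]
    rw [e]
    simpa using hasDerivAt_const s (0 : ℂ)
  | cons a x ih =>
    have h := ih (fun b hb => hx b (by simp [hb]))
    have ha : 0 < a := hx a (by simp)
    have hac : (a : ℂ) ≠ 0 := by exact_mod_cast ha.ne'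
    have e : M (a ::ₘ x) = fun s => (a : ℂ) ^ s + M x s := by funext s; simp [M]
    rw [e, Multiset.map_cons, Multiset.sum_cons]
    have h2 : HasDerivAt (fun s : ℂ => (a : ℂ) ^ s) ((a : ℂ) ^ s * Complex.log a) s := by
      have := (hasDerivAt_id s).const_cpow (c := (a : ℂ)) (Or.inl hac)
      simp only [id] at this
      refine this.congr_deriv ?_
      ring
    exact h2.add h

theorem M1_ofReal {x : Multiset ℝ} (hx : ∀ a ∈ x, 0 < a) (s : ℝ) :
    (x.map (fun a : ℝ => (a : ℂ) ^ (s : ℂ) * Complex.log a)).sum = (m1 x s : ℂ) := by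
  induction x using Multiset.induction_on with
  | empty => simp [m1]
  | cons a x ih =>
    have h := ih (fun b hb => hx b (by simp [hb]))
    have ha : 0 < a := hx a (by simp)
    unfold m1 at h ⊢
    rw [Multiset.map_cons, Multiset.sum_cons, h, Multiset.map_cons, Multiset.sum_cons,
      Complex.ofReal_add, Complex.ofReal_mul, Complex.ofReal_cpow ha.le, Complex.ofReal_log ha.le]

theorem differentiable_M {x : Multiset ℝ} (hx : ∀ a ∈ x, 0 < a) : Differentiable ℂ (M x) :=
  fun s => (hasDerivAt_M hx s).differentiableAt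

theorem m1_one {x : Multiset ℝ} : m1 x 1 = G 1 x := by
  unfold m1 G gf
  simp

variable {p r : Multiset ℝ} {q : ℕ → Multiset ℝ}

/-- sign of `m r - m p` from the weak inequality -/
theorem chain_sign (hp : PV p) (hr : PV r) (h : Chain p r q) {α : ℝ} (hα : 0 < α) (h1 : α ≠ 1) :
    (α < 1 → m r α ≤ m p α) ∧ (1 < α → m p α ≤ m r α) := by
  have := chain_weak hp hr h hα
  rw [G_eq h1 hα.ne', G_eq h1 hα.ne'] at this
  constructor
  · intro hlt
    exact (div_le_div_right_of_neg (mul_neg_of_pos_of_neg hα (by linarith))).mp this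
  · intro hgt
    exact (div_le_div_iff_of_pos_right (mul_pos hα (by linarith))).mp this

theorem deriv_zero_of_eq (hp : PV p) (hr : PV r) (h : Chain p r q) {α : ℝ} (hα : 0 < α)
    (heq : G α p = G α r) : m1 r α - m1 p α = 0 ∧ m p α = m r α := by
  by_cases h1 : α = 1
  · subst h1
    rw [m1_one, m1_one, heq, sub_self, m_one, m_one, hp.2, hr.2]
    exact ⟨rfl, rfl⟩
  · have hm : m p α = m r α := by
      rw [G_eq h1 hα.ne', G_eq h1 hα.ne'] at heq
      have : α * (α - 1) ≠ 0 := mul_ne_zero hα.ne' (sub_ne_zero.mpr h1)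
      field_simp at heq
      exact heq
    refine ⟨?_, hm⟩
    have hd : HasDerivAt (fun s => m r s - m p s) (m1 r α - m1 p α) α :=
      (hasDerivAt_m hr.1 α).sub (hasDerivAt_m hp.1 α)
    rcases lt_or_gt_of_ne h1 with hlt | hgt
    · have hmax : IsLocalMax (fun s => m r s - m p s) α := by
        have : ∀ᶠ s in 𝓝 α, s ∈ Ioo 0 1 := Ioo_mem_nhds hα hlt
        filter_upwards [this] with s hs
        have := (chain_sign hp hr h hs.1 hs.2.ne).1 hs.2
        rw [hm]
        linarith
      exact hmax.hasDerivAt_eq_zero hd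
    · have hmin : IsLocalMin (fun s => m r s - m p s) α := by
        have : ∀ᶠ s in 𝓝 α, s ∈ Ioi 1 := Ioi_mem_nhds hgt
        filter_upwards [this] with s hs
        have := (chain_sign hp hr h (lt_trans one_pos hs) (ne_of_gt hs)).2 hs
        rw [hm]
        linarith
      exact hmin.hasDerivAt_eq_zero hd

/-- in the case of equality the losses telescope -/
theorem loss_eq (hp : PV p) (hr : PV r) (h : Chain p r q) {α : ℝ} (hα : 0 < α)
    (heq : G α p = G α r) (n : ℕ) :
    G α (tp r (q (n + 1))) - G α (tp p (q n)) = m r α * (G α (q (n + 1)) - G α (q n)) := by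
  have hm := (deriv_zero_of_eq hp hr h hα heq).2
  by_cases h1 : α = 1
  · subst h1
    rw [G_one_tp hp (h.1 n), G_one_tp hr (h.1 (n + 1)), heq, m_one, hr.2]
    ring
  · rw [G_eq h1 hα.ne', G_eq h1 hα.ne', G_eq h1 hα.ne', G_eq h1 hα.ne', m_tp hp.1 (h.1 n).1,
      m_tp hr.1 (h.1 (n + 1)).1, hm]
    have : α * (α - 1) ≠ 0 := mul_ne_zero hα.ne' (sub_ne_zero.mpr h1)
    field_simp

theorem chain_strict (hp : PV p) (hr : PV r) (h : Chain p r q) {α : ℝ} (hα : 0 < α)
    (hne : ¬ ∀ᶠ z in 𝓝 (α : ℂ), M r z - M p z = 0) : G α p < G α r := by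
  refine lt_of_le_of_ne (chain_weak hp hr h hα) ?_
  intro heq
  obtain ⟨hder, hm⟩ := deriv_zero_of_eq hp hr h hα heq
  have rp : 0 < m r α := m_pos hr.1 hr.ne_zero α
  -- monotone bounded sequence
  set γ : ℕ → ℝ := fun n => G α (q n) with hγ
  have hmono : Monotone γ := by
    apply monotone_nat_of_le_succ
    intro n
    have h1 := chain_G hp hr h hα n
    have h2 := loss_eq hp hr h hα heq n
    have h3 : 0 ≤ m r α * (G α (q (n + 1)) - G α (q n)) := by linarith
    have h4 := nonneg_of_mul_nonneg_right h3 rp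
    simp only [hγ]
    linarith
  set B : ℝ := if α = 1 then 0 else 1 / (α * (α - 1)) with hB
  have hbdd : BddAbove (range γ) := ⟨B, by
    rintro _ ⟨n, rfl⟩
    exact G_le hα (h.1 n)⟩
  have hlim := tendsto_atTop_ciSup hmono hbdd
  set γ' := ⨆ n, γ n with hγ'
  have hle : ∀ n, γ n ≤ γ' := fun n => le_ciSup hbdd n
  -- lower bound for m (q n) α
  obtain ⟨c, hc, hcn⟩ : ∃ c : ℝ, 0 < c ∧ ∀ n, c ≤ m (q n) α := by
    have hm1 : ∀ n, m (q n) 1 = 1 := fun n => by rw [m_one, (h.1 n).2]
    rcases le_or_gt α 1 with h1 | h1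
    · refine ⟨1, one_pos, fun n => ?_⟩
      have := m_anti (h.1 n).mem h1
      rwa [hm1] at this
    · refine ⟨m (q 0) α, m_pos (h.1 0).1 (h.1 0).ne_zero α, fun n => ?_⟩
      have h2 := hmono (Nat.zero_le n)
      simp only [hγ] at h2
      rw [G_eq h1.ne' hα.ne', G_eq h1.ne' hα.ne'] at h2
      exact (div_le_div_iff_of_pos_right (mul_pos hα (by linarith))).mp h2
  -- choose n0
  set A : ℝ := ‖(α : ℂ) * ((α : ℂ) - 1)‖ with hA
  have hAnn : 0 ≤ A := norm_nonneg _
  obtain ⟨n0, hn0⟩ : ∃ n0, A * (γ' - γ n0) < c := by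
    have : Tendsto (fun n => A * (γ' - γ n)) atTop (𝓝 (A * (γ' - γ'))) :=
      (tendsto_const_nhds.sub hlim).const_mul A
    rw [sub_self, mul_zero] at this
    exact (this.eventually (gt_mem_nhds hc)).exists
  -- the open condition
  have hev : ∀ᶠ s in 𝓝 (α : ℂ),
      ‖s * (s - 1)‖ * (m r α * (γ' - γ n0)) < ‖M r s‖ * ‖M (q n0) s‖ ∧ M r s ≠ 0 := by
    have c1 : ContinuousAt (fun s : ℂ => ‖s * (s - 1)‖ * (m r α * (γ' - γ n0))) (α : ℂ) := by
      fun_prop
    have c2 : ContinuousAt (fun s : ℂ => ‖M r s‖ * ‖M (q n0) s‖) (α : ℂ) :=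
      ((differentiable_M hr.1).continuous.norm.mul
        (differentiable_M (h.1 n0).1).continuous.norm).continuousAt
    have hlt : ‖(α : ℂ) * ((α : ℂ) - 1)‖ * (m r α * (γ' - γ n0))
        < ‖M r (α : ℂ)‖ * ‖M (q n0) (α : ℂ)‖ := by
      rw [M_ofReal hr.1, M_ofReal (h.1 n0).1, Complex.norm_real, Complex.norm_real,
        Real.norm_of_nonneg rp.le, Real.norm_of_nonneg (m_pos (h.1 n0).1 (h.1 n0).ne_zero α).le,
        ← hA]
      have h1 := hcn n0
      calc A * (m r α * (γ' - γ n0)) = m r α * (A * (γ' - γ n0)) := by ring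
        _ < m r α * c := mul_lt_mul_of_pos_left hn0 rp
        _ ≤ m r α * m (q n0) α := mul_le_mul_of_nonneg_left h1 rp.le
    have e1 := (c1.tendsto.eventually_lt c2.tendsto hlt)
    have e2 : ∀ᶠ s in 𝓝 (α : ℂ), M r s ≠ 0 := by
      apply (differentiable_M hr.1).continuous.continuousAt.eventually_ne
      rw [M_ofReal hr.1]
      exact_mod_cast rp.ne'
    exact e1.and e2
  obtain ⟨s, ⟨hs1, hs0⟩, hs2, hs3⟩ := direction (E := fun z => M r z - M p z) (R := M r)
    (a := (α : ℂ))
    (((differentiable_M hr.1).sub (differentiable_M hp.1)).analyticAt _)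
    (differentiable_M hr.1).continuous.continuousAt
    (by rw [M_ofReal hr.1]; exact_mod_cast rp.ne')
    (by rw [M_ofReal hr.1, M_ofReal hp.1, hm, sub_self])
    (by
      have := ((hasDerivAt_M hr.1 (α : ℂ)).sub (hasDerivAt_M hp.1 (α : ℂ))).deriv
      rw [M1_ofReal hr.1, M1_ofReal hp.1] at this
      have e : (fun z => M r z - M p z) = M r - M p := rfl
      rw [e, this, ← Complex.ofReal_sub, hder, Complex.ofReal_zero])
    hne hev
  simp only [sub_sub_cancel] at hs3
  simp only [Complex.ofReal_re] at hs2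
  have hs0' : 0 < s.re := lt_of_lt_of_le hα hs2
  refine growth (x := fun k => M (q (n0 + k)) s)
    (e := fun k => ‖s * (s - 1)‖ * (m r α * (γ (n0 + k + 1) - γ (n0 + k))))
    (P := M p s) (R := M r s) (B := B * (α * (α - 1)) + (if α = 1 then 1 else 0) + m (q n0) α)
    (T := ‖s * (s - 1)‖ * (m r α * (γ' - γ n0)))
    (norm_pos_iff.mpr hs0) hs3 ?_ ?_ ?_ ?_ hs1
  · intro k
    have h1 := kara_power hα hs2 (hp.tp (h.1 (n0 + k))).mem (hr.tp (h.1 (n0 + k + 1))).mem
      (h.2 (n0 + k))
    rw [M_tp hr.1 (h.1 (n0 + k + 1)).1, M_tp hp.1 (h.1 (n0 + k)).1, loss_eq hp hr h hα heq] at h1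
    exact h1
  · intro k
    have := hmono (Nat.le_succ (n0 + k))
    have h3 : 0 ≤ γ (n0 + k + 1) - γ (n0 + k) := sub_nonneg.mpr this
    positivity
  · intro k
    refine (norm_M_le (h.1 (n0 + k)).1 s).trans ((m_anti (h.1 (n0 + k)).mem hs2).trans ?_)
    have hq0 := m_pos (h.1 n0).1 (h.1 n0).ne_zero α
    have hm1 : ∀ n, m (q n) 1 = 1 := fun n => by rw [m_one, (h.1 n).2]
    by_cases h1 : α = 1
    · subst h1
      simp only [hB, if_true, hm1]
      norm_num
    · simp only [hB, h1, if_false]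
      have hne' : α * (α - 1) ≠ 0 := mul_ne_zero hα.ne' (sub_ne_zero.mpr h1)
      rw [div_mul_cancel₀ _ hne']
      rcases lt_or_gt_of_ne h1 with hlt | hgt
      · have h2 := hmono (Nat.le_add_right n0 k)
        simp only [hγ] at h2
        rw [G_eq h1 hα.ne', G_eq h1 hα.ne',
          div_le_div_right_of_neg (mul_neg_of_pos_of_neg hα (by linarith))] at h2
        linarith
      · have := m_anti (h.1 (n0 + k)).mem hgt.le
        rw [hm1] at this
        linarith
  · intro K
    rw [← Finset.mul_sum, ← Finset.mul_sum]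
    have : ∑ k ∈ Finset.range K, (γ (n0 + k + 1) - γ (n0 + k)) = γ (n0 + K) - γ n0 := by
      have := Finset.sum_range_sub (fun k => γ (n0 + k)) K
      simp only [add_zero] at this
      exact this
    rw [this]
    apply mul_le_mul_of_nonneg_left _ (norm_nonneg _)
    apply mul_le_mul_of_nonneg_left _ rp.le
    linarith [hle (n0 + K)]

end Pool.Agent.H94Flex
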