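import Mathlib
import Pool.Agent.H94Flex.Nec2

/-! Compactness: in the equal rank case there is a chain with entries bounded below. -/

namespace Pool.Agent.H94Flex

open Set Filter Topology

/-- the multiset of the entries of a vector -/
def ms {N : ℕ} (v : Fin N → ℝ) : Multiset ℝ := Finset.univ.val.map v

theorem sum_map_ms {M : Type*} [AddCommMonoid M] {N : ℕ} (v : Fin N → ℝ) (f : ℝ → M) :
    ((ms v).map f).sum = ∑ i, f (v i) := by
  unfold ms
  rw [Multiset.map_map]
  rfl

theorem sum_ms {N : ℕ} (v : Fin N → ℝ) : (ms v).sum = ∑ i, v i := rfl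

theorem card_ms {N : ℕ} (v : Fin N → ℝ) : (ms v).card = N := by simp [ms]

theorem mem_ms {N : ℕ} {v : Fin N → ℝ} {a : ℝ} : a ∈ ms v ↔ ∃ i, v i = a := by simp [ms]

theorem exists_ms {N : ℕ} (z : Multiset ℝ) (hz : z.card = N) : ∃ v : Fin N → ℝ, ms v = z := by
  induction z using Quotient.inductionOn with
  | h l =>
    have hl : l.length = N := by simpa using hz
    subst hl
    refine ⟨l.get, ?_⟩
    unfold ms
    rw [Fin.univ_val_map, List.ofFn_get]
    rfl

theorem Phi_tp_eq (p y : Multiset ℝ) (t : ℝ) :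
    Phi (tp p y) t = (p.map (fun a => (y.map (fun b => max (a * b - t) 0)).sum)).sum := by
  unfold Phi
  rw [sum_map_tp]

theorem continuous_Phi_tp_ms (p : Multiset ℝ) {N : ℕ} (t : ℝ) :
    Continuous (fun v : Fin N → ℝ => Phi (tp p (ms v)) t) := by
  have : (fun v : Fin N → ℝ => Phi (tp p (ms v)) t)
      = fun v => (p.map (fun a => ∑ i, max (a * v i - t) 0)).sum := by
    funext v
    rw [Phi_tp_eq]
    simp only [sum_map_ms]
  rw [this]
  induction p using Multiset.induction_on with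
  | empty => simpa using continuous_const
  | cons a p ih =>
    simp only [Multiset.map_cons, Multiset.sum_cons]
    apply Continuous.add _ (ih _)
    · fun_prop
    · funext v
      rw [Phi_tp_eq]
      simp only [sum_map_ms]

/-- the set of chains of nonnegative vectors of length `N` -/
def CH (p r : Multiset ℝ) (N : ℕ) : Set (ℕ → Fin N → ℝ) :=
  {Q | (∀ n, Q n ∈ stdSimplex ℝ (Fin N)) ∧
    ∀ n t, 0 ≤ t → Phi (tp p (ms (Q n))) t ≤ Phi (tp r (ms (Q (n + 1)))) t}

theorem isCompact_CH (p r : Multiset ℝ) (N : ℕ) : IsCompact (CH p r N) := by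
  have h1 : IsCompact (Set.pi univ (fun _ : ℕ => stdSimplex ℝ (Fin N))) :=
    isCompact_univ_pi (fun _ => isCompact_stdSimplex ℝ (Fin N))
  have h2 : CH p r N = Set.pi univ (fun _ : ℕ => stdSimplex ℝ (Fin N)) ∩
      ⋂ n : ℕ, ⋂ t : ℝ, ⋂ _ : 0 ≤ t,
        {Q | Phi (tp p (ms (Q n))) t ≤ Phi (tp r (ms (Q (n + 1)))) t} := by
    ext Q
    simp [CH, Set.mem_pi]
  rw [h2]
  apply h1.inter_right
  apply isClosed_iInter
  intro n
  apply isClosed_iInter
  intro t
  apply isClosed_iInter
  intro _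
  exact isClosed_le ((continuous_Phi_tp_ms p t).comp (continuous_apply n))
    ((continuous_Phi_tp_ms r t).comp (continuous_apply (n + 1)))

theorem shift_CH {p r : Multiset ℝ} {N : ℕ} {Q : ℕ → Fin N → ℝ} (h : Q ∈ CH p r N) (k : ℕ) :
    (fun n => Q (k + n)) ∈ CH p r N :=
  ⟨fun n => h.1 (k + n), fun n t ht => h.2 (k + n) t ht⟩

/-- zero entries do not matter -/
theorem Phi_tp_cons_zero (p y : Multiset ℝ) {t : ℝ} (ht : 0 ≤ t) :
    Phi (tp p (0 ::ₘ y)) t = Phi (tp p y) t := by
  rw [Phi_tp_eq, Phi_tp_eq]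
  congr 1
  apply Multiset.map_congr rfl
  intro a _
  rw [Multiset.map_cons, Multiset.sum_cons, mul_zero, zero_sub,
    max_eq_right (neg_nonpos.mpr ht), zero_add]

theorem Phi_tp_replicate_zero (p y : Multiset ℝ) {t : ℝ} (ht : 0 ≤ t) (k : ℕ) :
    Phi (tp p (y + Multiset.replicate k 0)) t = Phi (tp p y) t := by
  induction k with
  | zero => simp
  | succ k ih =>
    rw [Multiset.replicate_succ, Multiset.add_cons, Phi_tp_cons_zero _ _ ht, ih]

/-- splitting off the zero entries -/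
theorem split_zero (z : Multiset ℝ) (hz : ∀ a ∈ z, 0 ≤ a) :
    z = z.filter (fun a => 0 < a) + Multiset.replicate (z.card - (z.filter (fun a => 0 < a)).card) 0 := by
  have h1 := Multiset.filter_add_not (fun a : ℝ => 0 < a) z
  have h2 : z.filter (fun a => ¬ 0 < a) = Multiset.replicate (z.filter (fun a => ¬ 0 < a)).card 0 := by
    rw [Multiset.eq_replicate_card]
    intro b hb
    rw [Multiset.mem_filter] at hb
    exact le_antisymm (not_lt.mp hb.2) (hz b hb.1)
  have h3 : z.card - (z.filter (fun a => 0 < a)).card = (z.filter (fun a => ¬ 0 < a)).card := by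
    have := congrArg Multiset.card h1
    rw [Multiset.card_add] at this
    omega
  rw [h3, ← h2, h1]

theorem sum_filter_pos (z : Multiset ℝ) (hz : ∀ a ∈ z, 0 ≤ a) :
    (z.filter (fun a => 0 < a)).sum = z.sum := by
  conv_rhs => rw [split_zero z hz]
  simp

variable {p r : Multiset ℝ}

/-- the number of positive entries does not increase along a chain, equal ranks -/
theorem card_pos_le (hp : ∀ a ∈ p, 0 < a) (hr : ∀ a ∈ r, 0 < a) (hsum : p.sum = r.sum)
    (hcard : p.card = r.card) (hne : p ≠ 0) {x y : Multiset ℝ} (hx : ∀ a ∈ x, 0 ≤ a)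
    (hy : ∀ a ∈ y, 0 ≤ a) (hxy : x.sum = y.sum)
    (h : ∀ t, 0 ≤ t → Phi (tp p x) t ≤ Phi (tp r y) t) :
    (y.filter (fun a => 0 < a)).card ≤ (x.filter (fun a => 0 < a)).card := by
  have hm : Maj (tp p (x.filter (fun a => 0 < a))) (tp r (y.filter (fun a => 0 < a))) := by
    refine ⟨by rw [sum_tp, sum_tp, sum_filter_pos x hx, sum_filter_pos y hy, hxy, hsum], ?_⟩
    intro t ht
    have h1 := h t ht
    rw [split_zero x hx, split_zero y hy, Phi_tp_replicate_zero _ _ ht,
      Phi_tp_replicate_zero _ _ ht] at h1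
    exact h1
  have h2 := hm.card_le
    (by
      intro a ha
      obtain ⟨b, hb, c, hc, rfl⟩ := mem_tp ha
      rw [Multiset.mem_filter] at hc
      exact mul_pos (hp b hb) hc.2)
    (by
      intro a ha
      obtain ⟨b, hb, c, hc, rfl⟩ := mem_tp ha
      rw [Multiset.mem_filter] at hc
      exact mul_pos (hr b hb) hc.2)
  rw [card_tp, card_tp, hcard] at h2
  have h3 : 0 < r.card := by
    rw [← hcard]
    exact Multiset.card_pos.mpr hne
  exact Nat.le_of_mul_le_mul_left h2 h3

theorem mem_simplex_nonneg {N : ℕ} {v : Fin N → ℝ} (hv : v ∈ stdSimplex ℝ (Fin N)) :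
    ∀ a ∈ ms v, 0 ≤ a := by
  intro a ha
  rw [mem_ms] at ha
  obtain ⟨i, rfl⟩ := ha
  exact hv.1 i

/-- if a chain has a zero entry at the start, it can be shortened -/
theorem descend (hp : ∀ a ∈ p, 0 < a) (hr : ∀ a ∈ r, 0 < a) (hsum : p.sum = r.sum)
    (hcard : p.card = r.card) (hne : p ≠ 0) {N : ℕ} {Q : ℕ → Fin (N + 1) → ℝ}
    (hQ : Q ∈ CH p r (N + 1)) (i : Fin (N + 1)) (hi : Q 0 i = 0) : (CH p r N).Nonempty := by
  have hcnt : ∀ n, ((ms (Q n)).filter (fun a => 0 < a)).card ≤ N := by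
    intro n
    induction n with
    | zero =>
      have h1 : ms (Q 0) = 0 ::ₘ (ms (Q 0)).erase 0 := by
        rw [Multiset.cons_erase]
        rw [mem_ms]
        exact ⟨i, hi⟩
      rw [h1, Multiset.filter_cons_of_neg _ (lt_irrefl 0)]
      refine (Multiset.card_le_card (Multiset.filter_le _ _)).trans ?_
      have := congrArg Multiset.card h1
      rw [card_ms, Multiset.card_cons] at this
      omega
    | succ n ih =>
      exact (card_pos_le hp hr hsum hcard hne (mem_simplex_nonneg (hQ.1 n))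
        (mem_simplex_nonneg (hQ.1 (n + 1)))
        (by rw [sum_ms, sum_ms, (hQ.1 n).2, (hQ.1 (n + 1)).2]) (hQ.2 n)).trans ih
  have hz : ∀ n, ∃ i, Q n i = 0 := by
    intro n
    by_contra hcon
    push Not at hcon
    have h1 : (ms (Q n)).filter (fun a => 0 < a) = ms (Q n) := by
      rw [Multiset.filter_eq_self]
      intro a ha
      rw [mem_ms] at ha
      obtain ⟨j, rfl⟩ := ha
      exact lt_of_le_of_ne ((hQ.1 n).1 j) (Ne.symm (hcon j))
    have h2 := hcnt n
    rw [h1, card_ms] at h2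
    omega
  choose j hj using hz
  have hms : ∀ n, ms (Q n) = 0 ::ₘ ms (fun k => Q n ((j n).succAbove k)) := by
    intro n
    unfold ms
    rw [Fin.univ_succAbove N (j n)]
    simp [hj n, Function.comp_def]
  refine ⟨fun n k => Q n ((j n).succAbove k), ?_, ?_⟩
  · intro n
    refine ⟨fun k => (hQ.1 n).1 _, ?_⟩
    have := (hQ.1 n).2
    rw [← sum_ms, hms n, Multiset.sum_cons, zero_add, sum_ms] at this
    exact this
  · intro n t ht
    have := hQ.2 n t ht
    rwa [hms n, hms (n + 1), Phi_tp_cons_zero _ _ ht, Phi_tp_cons_zero _ _ ht] at this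

theorem exists_bounded_chain (hp : PV p) (hr : PV r) (hcard : p.card = r.card)
    {q : ℕ → Multiset ℝ} (h : Chain p r q) :
    ∃ (q' : ℕ → Multiset ℝ) (N : ℕ) (b : ℝ), Chain p r q' ∧ 0 < b ∧ b ≤ 1 ∧
      ∀ n, (q' n).card = N ∧ ∀ a ∈ q' n, b ≤ a := by
  classical
  have hsum : p.sum = r.sum := by rw [hp.2, hr.2]
  have hq0 : ∀ n, ∀ a ∈ q n, 0 ≤ a := fun n a ha => ((h.1 n).1 a ha).le
  have hfil : ∀ n, (q n).filter (fun a => 0 < a) = q n := by
    intro n
    rw [Multiset.filter_eq_self]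
    exact (h.1 n).1
  have hc : ∀ n, (q n).card ≤ (q 0).card := by
    intro n
    induction n with
    | zero => exact le_rfl
    | succ n ih =>
      have := card_pos_le hp.1 hr.1 hsum hcard hp.ne_zero (hq0 n) (hq0 (n + 1))
        (by rw [(h.1 n).2, (h.1 (n + 1)).2]) (h.2 n).2
      rw [hfil, hfil] at this
      exact this.trans ih
  have hex : ∃ N, (CH p r N).Nonempty := by
    refine ⟨(q 0).card, ?_⟩
    have : ∀ n, ∃ v : Fin (q 0).card → ℝ,
        ms v = q n + Multiset.replicate ((q 0).card - (q n).card) 0 := by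
      intro n
      apply exists_ms
      rw [Multiset.card_add, Multiset.card_replicate]
      have := hc n
      omega
    choose v hv using this
    refine ⟨v, ?_, ?_⟩
    · intro n
      constructor
      · intro i
        have : v n i ∈ ms (v n) := by rw [mem_ms]; exact ⟨i, rfl⟩
        rw [hv n, Multiset.mem_add] at this
        rcases this with h1 | h1
        · exact hq0 n _ h1
        · rw [Multiset.eq_of_mem_replicate h1]
      · rw [← sum_ms, hv n]
        simp [(h.1 n).2]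
    · intro n t ht
      rw [hv n, hv (n + 1), Phi_tp_replicate_zero _ _ ht, Phi_tp_replicate_zero _ _ ht]
      exact (h.2 n).2 t ht
  obtain ⟨N, hN⟩ : ∃ N, N = Nat.find hex := ⟨_, rfl⟩
  have hNn : (CH p r N).Nonempty := by rw [hN]; exact Nat.find_spec hex
  have hmin : ∀ k, k < N → ¬ (CH p r k).Nonempty := by
    intro k hk
    rw [hN] at hk
    exact Nat.find_min hex hk
  obtain ⟨Q, hQ⟩ := hNn
  -- positivity of every coordinate on CH
  have hpos : ∀ i : Fin N, ∃ b : ℝ, 0 < b ∧ ∀ Q ∈ CH p r N, b ≤ Q 0 i := by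
    intro i
    obtain ⟨Q', hQ', hQm⟩ := (isCompact_CH p r N).exists_isMinOn ⟨Q, hQ⟩
      (f := fun Q : ℕ → Fin N → ℝ => Q 0 i) (by fun_prop)
    refine ⟨Q' 0 i, ?_, fun Q'' hQ'' => hQm hQ''⟩
    rcases (hQ'.1 0).1 i |>.lt_or_eq with h1 | h1
    · exact h1
    · exfalso
      obtain ⟨N', rfl⟩ : ∃ N', N = N' + 1 := ⟨N - 1, by have := i.pos; omega⟩
      exact hmin N' (Nat.lt_succ_self N')
        (descend hp.1 hr.1 hsum hcard hp.ne_zero hQ' i h1.symm)
  choose b hb hbQ using hpos
  obtain ⟨β, hβ, hβ1, hβb⟩ := exists_lower (ms b) (by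
    intro a ha
    rw [mem_ms] at ha
    obtain ⟨i, rfl⟩ := ha
    exact hb i)
  have hlow : ∀ n, ∀ i, β ≤ Q n i := by
    intro n i
    have h1 := hbQ i _ (shift_CH hQ n)
    simp only [add_zero] at h1
    exact (hβb (b i) (by rw [mem_ms]; exact ⟨i, rfl⟩)).trans h1
  have hPV : ∀ n, PV (ms (Q n)) := by
    intro n
    refine ⟨?_, by rw [sum_ms]; exact (hQ.1 n).2⟩
    intro a ha
    rw [mem_ms] at ha
    obtain ⟨i, rfl⟩ := ha
    exact lt_of_lt_of_le hβ (hlow n i)
  refine ⟨fun n => ms (Q n), N, β, ⟨hPV, ?_⟩, hβ, hβ1, ?_⟩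
  · intro n
    exact ⟨by rw [sum_tp, sum_tp, hsum, (hPV n).2, (hPV (n + 1)).2], hQ.2 n⟩
  · intro n
    refine ⟨card_ms _, ?_⟩
    intro a ha
    rw [mem_ms] at ha
    obtain ⟨i, rfl⟩ := ha
    exact hlow n i

end Pool.Agent.H94Flex
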