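import Mathlib
import Pool.Agent.H94Flex.Compact

/-! Nonpositive exponents, equal ranks. -/

namespace Pool.Agent.H94Flex

open Set Filter Topology

theorem G_mono_fixed (α : ℝ) {ε : ℝ} (hε : 0 < ε) (hε1 : ε ≤ 1) {x y : Multiset ℝ}
    (hx : ∀ a ∈ x, ε ≤ a ∧ a ≤ 1) (hy : ∀ a ∈ y, ε ≤ a ∧ a ≤ 1) (hm : Maj x y)
    (hc : x.card = y.card) : G α x ≤ G α y := by
  have h := kara_power_fixed (α := α) (σ := 2) hε hε1 hx hy hm hc
  have hn := norm_nonneg (M y ((2 : ℝ) : ℂ) - M x ((2 : ℝ) : ℂ))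
  have hc' : 0 < |(2 : ℝ) * (2 - 1)| * ε ^ (-|2 - α|) := by
    have : 0 < ε ^ (-|2 - α|) := Real.rpow_pos_of_pos hε _
    have h2 : 0 < |(2 : ℝ) * (2 - 1)| := by norm_num
    positivity
  by_contra hcon
  push Not at hcon
  have := mul_neg_of_pos_of_neg hc' (sub_neg.mpr hcon)
  linarith

theorem G_zero_tp {x y : Multiset ℝ} (hx : ∀ a ∈ x, 0 < a) (hy : ∀ a ∈ y, 0 < a) :
    G 0 (tp x y) = y.card * G 0 x + x.card * G 0 y := by
  unfold G
  rw [sum_map_tp]
  have e : x.map (fun a => (y.map (fun b => gf 0 (a * b))).sum)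
      = x.map (fun a => y.card * gf 0 a + (y.map (gf 0)).sum) := by
    apply Multiset.map_congr rfl
    intro a ha
    have e2 : y.map (fun b => gf 0 (a * b)) = y.map (fun b => gf 0 a + gf 0 b) := by
      apply Multiset.map_congr rfl
      intro b hb
      have ha0 := (hx a ha).ne'
      have hb0 := (hy b hb).ne'
      simp only [gf, zero_ne_one, if_false, if_true]
      rw [Real.log_mul ha0 hb0]
      ring
    rw [e2, Multiset.sum_map_add]
    simp
  rw [e, Multiset.sum_map_add, Multiset.sum_map_mul_left]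
  simp

theorem gf_anti {α : ℝ} (hα : α ≤ 0) {b a : ℝ} (hb : 0 < b) (hba : b ≤ a) :
    gf α a ≤ gf α b := by
  unfold gf
  have h1 : α ≠ 1 := by linarith
  simp only [h1, if_false]
  split_ifs with h0
  · exact neg_le_neg (Real.log_le_log hb hba)
  · have hneg : α < 0 := lt_of_le_of_ne hα h0
    apply div_le_div_of_nonneg_right _ (mul_pos_of_neg_of_neg hneg (by linarith)).le
    exact Real.rpow_le_rpow_of_nonpos hb hba hα

theorem G_le_card {α : ℝ} (hα : α ≤ 0) {b : ℝ} (hb : 0 < b) {x : Multiset ℝ}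
    (hx : ∀ a ∈ x, b ≤ a) : G α x ≤ x.card * gf α b := by
  unfold G
  have : (x.map (gf α)).sum ≤ (x.map (fun _ => gf α b)).sum := by
    apply Multiset.sum_map_le_sum_map
    intro a ha
    exact gf_anti hα hb (hx a ha)
  simpa using this

variable {p r : Multiset ℝ} {q : ℕ → Multiset ℝ} {N : ℕ} {b : ℝ}

/-- a chain with constant length and entries bounded below -/
structure BChain (p r : Multiset ℝ) (q : ℕ → Multiset ℝ) (N : ℕ) (b : ℝ) : Prop where
  hp : PV p
  hr : PV r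
  hcard : p.card = r.card
  ch : Chain p r q
  hb : 0 < b
  hb1 : b ≤ 1
  cardq : ∀ n, (q n).card = N
  low : ∀ n, ∀ a ∈ q n, b ≤ a

theorem BChain.N_pos (h : BChain p r q N b) : 1 ≤ N := by
  have h1 := Multiset.card_pos.mpr (h.ch.1 0).ne_zero
  rw [h.cardq 0] at h1
  exact h1

theorem BChain.exists_eps (h : BChain p r q N b) : ∃ ε : ℝ, 0 < ε ∧ ε ≤ 1 ∧
    (∀ n, ∀ a ∈ tp p (q n), ε ≤ a ∧ a ≤ 1) ∧ (∀ n, ∀ a ∈ tp r (q n), ε ≤ a ∧ a ≤ 1) := by
  obtain ⟨δ, hδ, hδ1, hδ'⟩ := exists_lower (p + r) (by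
    intro a ha
    rw [Multiset.mem_add] at ha
    rcases ha with ha | ha
    · exact h.hp.1 a ha
    · exact h.hr.1 a ha)
  refine ⟨δ * b, mul_pos hδ h.hb, mul_le_one₀ hδ1 h.hb.le h.hb1, ?_, ?_⟩
  · intro n a ha
    refine ⟨?_, (h.hp.tp (h.ch.1 n)).le_one a ha⟩
    obtain ⟨c, hc, d, hd, rfl⟩ := mem_tp ha
    exact mul_le_mul (hδ' c (by simp [hc])) (h.low n d hd) h.hb.le (h.hp.1 c hc).le
  · intro n a ha
    refine ⟨?_, (h.hr.tp (h.ch.1 n)).le_one a ha⟩
    obtain ⟨c, hc, d, hd, rfl⟩ := mem_tp ha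
    exact mul_le_mul (hδ' c (by simp [hc])) (h.low n d hd) h.hb.le (h.hr.1 c hc).le

theorem BChain.card_tp_eq (h : BChain p r q N b) (n k : ℕ) :
    (tp p (q n)).card = (tp r (q k)).card := by
  rw [card_tp, card_tp, h.hcard, h.cardq, h.cardq]

theorem BChain.G_step (h : BChain p r q N b) (α : ℝ) (n : ℕ) :
    G α (tp p (q n)) ≤ G α (tp r (q (n + 1))) := by
  obtain ⟨ε, hε, hε1, h1, h2⟩ := h.exists_eps
  exact G_mono_fixed α hε hε1 (h1 n) (h2 (n + 1)) (h.ch.2 n) (h.card_tp_eq n (n + 1))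

/-- general product formula: `G α (x ⊗ y) = A + K * G α y`, in a form good for all `α ≤ 0` -/
theorem BChain.weak (h : BChain p r q N b) {α : ℝ} (hα : α ≤ 0) : G α p ≤ G α r := by
  by_contra hcon
  push Not at hcon
  have hN : (1 : ℝ) ≤ N := by exact_mod_cast h.N_pos
  have hd : 0 < (p.card : ℝ) := by exact_mod_cast Multiset.card_pos.mpr h.hp.ne_zero
  have hle : ∀ n, G α (q n) ≤ N * gf α b := by
    intro n
    have := G_le_card hα h.hb (h.low n)
    rwa [h.cardq n] at this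
  by_cases h0 : α = 0
  · subst h0
    have step : ∀ n, N * G 0 p + p.card * G 0 (q n) ≤ N * G 0 r + p.card * G 0 (q (n + 1)) := by
      intro n
      have := h.G_step 0 n
      rwa [G_zero_tp h.hp.1 (h.ch.1 n).1, G_zero_tp h.hr.1 (h.ch.1 (n + 1)).1, h.cardq, h.cardq,
        ← h.hcard] at this
    have key : ∀ n : ℕ, p.card * G 0 (q 0) + n * (N * (G 0 p - G 0 r)) ≤ p.card * G 0 (q n) := by
      intro n
      induction n with
      | zero => simp
      | succ n ih =>
        push_cast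
        linarith [step n]
    have hpos : 0 < N * (G 0 p - G 0 r) := mul_pos (by linarith) (by linarith)
    obtain ⟨n, hn⟩ := exists_nat_gt
      ((p.card * (N * gf 0 b) - p.card * G 0 (q 0)) / (N * (G 0 p - G 0 r)))
    rw [div_lt_iff₀ hpos] at hn
    have := mul_le_mul_of_nonneg_left (hle n) hd.le
    linarith [key n]
  · have hneg : α < 0 := lt_of_le_of_ne hα h0
    have h1 : α ≠ 1 := by linarith
    have hc : 0 < α * (α - 1) := mul_pos_of_neg_of_neg hneg (by linarith)
    have pp := m_pos h.hp.1 h.hp.ne_zero α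
    have rp := m_pos h.hr.1 h.hr.ne_zero α
    have qp : ∀ n, 0 < m (q n) α := fun n => m_pos (h.ch.1 n).1 (h.ch.1 n).ne_zero α
    rw [G_eq h1 h0, G_eq h1 h0, div_lt_div_iff_of_pos_right hc] at hcon
    have step : ∀ n, m p α * m (q n) α ≤ m r α * m (q (n + 1)) α := by
      intro n
      have := h.G_step α n
      rwa [G_eq h1 h0, G_eq h1 h0, m_tp h.hp.1 (h.ch.1 n).1, m_tp h.hr.1 (h.ch.1 (n + 1)).1,
        div_le_div_iff_of_pos_right hc] at this
    have key : ∀ n : ℕ, (m p α / m r α) ^ n * m (q 0) α ≤ m (q n) α := by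
      intro n
      induction n with
      | zero => simp
      | succ n ih =>
        have h2 : m p α / m r α * m (q n) α ≤ m (q (n + 1)) α := by
          rw [div_mul_eq_mul_div, div_le_iff₀ rp]
          linarith [step n]
        calc (m p α / m r α) ^ (n + 1) * m (q 0) α
            = m p α / m r α * ((m p α / m r α) ^ n * m (q 0) α) := by rw [pow_succ]; ring
          _ ≤ m p α / m r α * m (q n) α := mul_le_mul_of_nonneg_left ih (by positivity)
          _ ≤ _ := h2
    obtain ⟨n, hn⟩ := pow_unbounded_of_one_lt ((N * gf α b) * (α * (α - 1)) / m (q 0) α)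
      (show 1 < m p α / m r α by rw [one_lt_div rp]; exact hcon)
    rw [div_lt_iff₀ (qp 0)] at hn
    have h3 := hle n
    rw [G_eq h1 h0, div_le_iff₀ hc] at h3
    linarith [key n]

theorem BChain.loss (h : BChain p r q N b) {α : ℝ} (hα : α ≤ 0) (heq : G α p = G α r) :
    ∃ κ : ℝ, 0 < κ ∧ ∀ n, G α (tp r (q (n + 1))) - G α (tp p (q n))
      = κ * (G α (q (n + 1)) - G α (q n)) := by
  by_cases h0 : α = 0
  · subst h0
    refine ⟨p.card, by exact_mod_cast Multiset.card_pos.mpr h.hp.ne_zero, fun n => ?_⟩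
    rw [G_zero_tp h.hp.1 (h.ch.1 n).1, G_zero_tp h.hr.1 (h.ch.1 (n + 1)).1, h.cardq, h.cardq,
        ← h.hcard, heq]
    ring
  · have hneg : α < 0 := lt_of_le_of_ne hα h0
    have h1 : α ≠ 1 := by linarith
    have hc : 0 < α * (α - 1) := mul_pos_of_neg_of_neg hneg (by linarith)
    refine ⟨m r α, m_pos h.hr.1 h.hr.ne_zero α, fun n => ?_⟩
    rw [G_eq h1 h0, G_eq h1 h0] at heq
    have hm : m p α = m r α := by field_simp at heq; exact heq
    rw [G_eq h1 h0, G_eq h1 h0, G_eq h1 h0, G_eq h1 h0, m_tp h.hp.1 (h.ch.1 n).1,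
      m_tp h.hr.1 (h.ch.1 (n + 1)).1, hm]
    field_simp

theorem BChain.strict (h : BChain p r q N b) {α : ℝ} (hα : α ≤ 0)
    (hne : ¬ ∀ᶠ z in 𝓝 (α : ℂ), M r z - M p z = 0) : G α p < G α r := by
  refine lt_of_le_of_ne (h.weak hα) ?_
  intro heq
  obtain ⟨κ, hκ, hloss⟩ := h.loss hα heq
  -- choose a negative real `s` with `m r s ≠ m p s`
  obtain ⟨s, hs0, hsne⟩ : ∃ s : ℝ, s < 0 ∧ m r s ≠ m p s := by
    have han : AnalyticAt ℂ (fun z => M r z - M p z) (α : ℂ) :=
      ((differentiable_M h.hr.1).sub (differentiable_M h.hp.1)).analyticAt _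
    have h1 := han.eventually_eq_zero_or_eventually_ne_zero.resolve_left hne
    have hpath : Tendsto (fun s : ℝ => (s : ℂ)) (𝓝[<] α) (𝓝[≠] (α : ℂ)) := by
      apply tendsto_nhdsWithin_of_tendsto_nhds_of_eventually_within
      · exact (Complex.continuous_ofReal.tendsto α).mono_left nhdsWithin_le_nhds
      · filter_upwards [self_mem_nhdsWithin] with s hs
        have hs' : s < α := hs
        simp only [mem_compl_iff, mem_singleton_iff]
        exact_mod_cast hs'.ne
    have h2 := hpath.eventually h1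
    obtain ⟨s, hs, hs'⟩ := (h2.and self_mem_nhdsWithin).exists
    have hs'' : s < α := hs'
    refine ⟨s, by linarith, ?_⟩
    rw [M_ofReal h.hr.1, M_ofReal h.hp.1] at hs
    intro hc
    rw [hc, sub_self] at hs
    exact hs rfl
  have hlt : m p s < m r s := by
    have hw := h.weak hs0.le
    have h1 : s ≠ 1 := by linarith
    rw [G_eq h1 hs0.ne, G_eq h1 hs0.ne,
      div_le_div_iff_of_pos_right (mul_pos_of_neg_of_neg hs0 (by linarith))] at hw
    exact lt_of_le_of_ne hw (Ne.symm hsne)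
  obtain ⟨ε, hε, hε1, h1, h2⟩ := h.exists_eps
  set C : ℝ := |s * (s - 1)| * ε ^ (-|s - α|) with hC
  have hC0 : 0 ≤ C := mul_nonneg (abs_nonneg _) (Real.rpow_nonneg hε.le _)
  have step : ∀ n, m r s * m (q (n + 1)) s - m p s * m (q n) s
      ≤ C * (κ * (G α (q (n + 1)) - G α (q n))) := by
    intro n
    have h3 := kara_power_fixed (α := α) (σ := s) hε hε1 (h1 n) (h2 (n + 1)) (h.ch.2 n)
      (h.card_tp_eq n (n + 1))
    rw [hloss n, ← hC, M_tp h.hr.1 (h.ch.1 (n + 1)).1, M_tp h.hp.1 (h.ch.1 n).1, M_ofReal h.hr.1,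
      M_ofReal h.hp.1, M_ofReal (h.ch.1 (n + 1)).1, M_ofReal (h.ch.1 n).1] at h3
    refine le_trans ?_ h3
    have e : (m r s : ℂ) * (m (q (n + 1)) s : ℂ) - (m p s : ℂ) * (m (q n) s : ℂ)
        = ((m r s * m (q (n + 1)) s - m p s * m (q n) s : ℝ) : ℂ) := by push_cast; ring
    rw [e, Complex.norm_real]
    exact le_abs_self _
  have hge : ∀ n, 1 ≤ m (q n) s := by
    intro n
    have h3 := m_anti (h.ch.1 n).mem hs0.le
    have h4 : m (q n) 0 = N := by
      unfold m
      simp [h.cardq n]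
    rw [h4] at h3
    have h5 : (1 : ℝ) ≤ N := by exact_mod_cast h.N_pos
    linarith
  have key : ∀ K : ℕ, (m r s - m p s) * K + m r s * m (q K) s
      ≤ m r s * m (q 0) s + C * (κ * (G α (q K) - G α (q 0))) := by
    intro K
    induction K with
    | zero => simp
    | succ K ih =>
      have h3 := step K
      have h4 : (m r s - m p s) * 1 ≤ (m r s - m p s) * m (q K) s :=
        mul_le_mul_of_nonneg_left (hge K) (by linarith)
      push_cast
      nlinarith
  have hub : ∀ K, G α (q K) ≤ N * gf α b := by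
    intro n
    have := G_le_card hα h.hb (h.low n)
    rwa [h.cardq n] at this
  obtain ⟨K, hK⟩ := exists_nat_gt ((m r s * m (q 0) s + C * (κ * (N * gf α b - G α (q 0))))
    / (m r s - m p s))
  rw [div_lt_iff₀ (by linarith)] at hK
  have h5 := key K
  have h6 : C * (κ * (G α (q K) - G α (q 0))) ≤ C * (κ * (N * gf α b - G α (q 0))) := by
    apply mul_le_mul_of_nonneg_left _ hC0
    apply mul_le_mul_of_nonneg_left _ hκ.le
    linarith [hub K]
  have h7 : 0 < m r s * m (q K) s :=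
    mul_pos (m_pos h.hr.1 h.hr.ne_zero s) (m_pos (h.ch.1 K).1 (h.ch.1 K).ne_zero s)
  linarith

end Pool.Agent.H94Flex
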