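import Mathlib

/-! The Poincaré–Pólya theorem: a real polynomial positive on `(0, ∞)` becomes a polynomial with
nonnegative coefficients after multiplication by a power of `1 + X`. -/

namespace Pool.Agent.H94Flex

open Polynomial

def NN (f : ℝ[X]) : Prop := ∀ k, 0 ≤ f.coeff k

theorem NN.mul {f g : ℝ[X]} (hf : NN f) (hg : NN g) : NN (f * g) := by
  intro k
  rw [coeff_mul]
  exact Finset.sum_nonneg (fun x _ => mul_nonneg (hf x.1) (hg x.2))

def PP (f : ℝ[X]) : Prop := ∃ N : ℕ, NN ((1 + X) ^ N * f)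

theorem PP.mul {f g : ℝ[X]} (hf : PP f) (hg : PP g) : PP (f * g) := by
  obtain ⟨N, hN⟩ := hf
  obtain ⟨K, hK⟩ := hg
  refine ⟨N + K, ?_⟩
  have : (1 + X : ℝ[X]) ^ (N + K) * (f * g) = ((1 + X) ^ N * f) * ((1 + X) ^ K * g) := by ring
  rw [this]
  exact hN.mul hK

theorem NN.pp {f : ℝ[X]} (hf : NN f) : PP f := ⟨0, by simpa using hf⟩

theorem NN_lin {a : ℝ} (ha : a ≤ 0) : NN (X - C a) := by
  intro k
  rw [coeff_sub, coeff_X, coeff_C]
  split_ifs <;> linarith

theorem choose_ineq {b c : ℝ} (hbc : b ^ 2 < c) {N : ℕ}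
    (hN : 2 * (1 + c) ^ 2 / (c - b ^ 2) ≤ N) (k : ℕ) :
    0 ≤ (N.choose k : ℝ) - 2 * b * (N.choose (k + 1) : ℝ) + c * (N.choose (k + 2) : ℝ) := by
  rcases lt_or_ge N k with hk | hk
  · rw [Nat.choose_eq_zero_of_lt hk, Nat.choose_eq_zero_of_lt (by omega),
      Nat.choose_eq_zero_of_lt (by omega)]
    simp
  have hc : 0 < c := lt_of_le_of_lt (sq_nonneg b) hbc
  have h1 : (N.choose (k + 1) : ℝ) * (k + 1) = N.choose k * (N - k) := by
    have := Nat.choose_succ_right_eq N k
    have h2 : ((N.choose (k + 1) * (k + 1) : ℕ) : ℝ) = ((N.choose k * (N - k) : ℕ) : ℝ) := by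
      rw [this]
    rw [Nat.cast_mul, Nat.cast_mul, Nat.cast_sub hk] at h2
    push_cast at h2
    exact h2
  have h2 : (N.choose (k + 2) : ℝ) * (k + 2) = N.choose (k + 1) * (N - k - 1) := by
    rcases Nat.lt_or_ge N (k + 1) with h3 | h3
    · rw [Nat.choose_eq_zero_of_lt h3, Nat.choose_eq_zero_of_lt (by omega)]
      simp
    · have := Nat.choose_succ_right_eq N (k + 1)
      have h2 : ((N.choose (k + 2) * (k + 2) : ℕ) : ℝ)
          = ((N.choose (k + 1) * (N - (k + 1)) : ℕ) : ℝ) := by
        rw [← this]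
      rw [Nat.cast_mul, Nat.cast_mul, Nat.cast_sub h3] at h2
      push_cast at h2
      rw [h2]
      ring
  have hkr : (k : ℝ) ≤ N := by exact_mod_cast hk
  have hk0 : (0 : ℝ) ≤ k := Nat.cast_nonneg k
  have hA : (0 : ℝ) ≤ N.choose k := Nat.cast_nonneg _
  set A : ℝ := ((N.choose k : ℕ) : ℝ)
  set B : ℝ := ((N.choose (k + 1) : ℕ) : ℝ)
  set D : ℝ := ((N.choose (k + 2) : ℕ) : ℝ)
  have hden : 0 < c - b ^ 2 := by linarith
  have hmain : 0 ≤ ((k : ℝ) + 1) * (k + 2) - 2 * b * (k + 2) * (N - k)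
      + c * (N - k) * (N - k - 1) := by
    set u : ℝ := k + 2 with hu
    set v : ℝ := N - k with hv
    have huv : u + v = N + 2 := by rw [hu, hv]; ring
    have hu0 : 0 ≤ u := by rw [hu]; linarith
    have hv0 : 0 ≤ v := by rw [hv]; linarith
    have e : ((k : ℝ) + 1) * u - 2 * b * u * v + c * v * (v - 1)
        = (u ^ 2 - 2 * b * u * v + c * v ^ 2) - (u + c * v) := by
      rw [hu]; ring
    rw [e]
    set l := (c - b ^ 2) / (1 + c) with hl
    have h1c : 0 < 1 + c := by linarith
    have hl0 : 0 < l := div_pos hden h1c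
    have hl' : l * (1 + c) = c - b ^ 2 := by rw [hl]; field_simp
    have hl1 : l < 1 := by
      rw [hl, div_lt_one h1c]
      nlinarith [sq_nonneg b]
    have q1 : l * (u ^ 2 + v ^ 2) ≤ u ^ 2 - 2 * b * u * v + c * v ^ 2 := by
      -- (1-l) u^2 - 2 b u v + (c - l) v^2 ≥ 0
      have h3 : b ^ 2 ≤ (1 - l) * (c - l) := by nlinarith
      have h4 : 0 ≤ (1 - l) * ((1 - l) * u ^ 2 - 2 * b * u * v + (c - l) * v ^ 2) := by
        have : (1 - l) * ((1 - l) * u ^ 2 - 2 * b * u * v + (c - l) * v ^ 2)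
            = ((1 - l) * u - b * v) ^ 2 + ((1 - l) * (c - l) - b ^ 2) * v ^ 2 := by ring
        rw [this]
        have := mul_nonneg (sub_nonneg.mpr h3) (sq_nonneg v)
        have := sq_nonneg ((1 - l) * u - b * v)
        linarith
      have h5 := nonneg_of_mul_nonneg_right h4 (by linarith)
      linarith
    have q2 : (u + v) ^ 2 ≤ 2 * (u ^ 2 + v ^ 2) := by nlinarith [sq_nonneg (u - v)]
    have q3 : 2 * (1 + c) ≤ l * (u + v) := by
      have h6 : 2 * (1 + c) ^ 2 ≤ (c - b ^ 2) * N := by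
        rw [div_le_iff₀ hden] at hN
        linarith
      have h7 : 2 * (1 + c) ^ 2 ≤ l * (1 + c) * (u + v) := by
        rw [hl', huv]
        nlinarith
      have h8 : (1 + c) * (2 * (1 + c)) ≤ (1 + c) * (l * (u + v)) := by nlinarith
      exact le_of_mul_le_mul_left h8 h1c
    have q4 : (1 + c) * (u + v) ≤ l * (u ^ 2 + v ^ 2) := by
      have h9 : 2 * (1 + c) * (u + v) ≤ l * (u + v) * (u + v) :=
        mul_le_mul_of_nonneg_right q3 (by linarith)
      nlinarith
    have q5 : u + c * v ≤ (1 + c) * (u + v) := by nlinarith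
    linarith
  have key : (A - 2 * b * B + c * D) * ((k + 1) * (k + 2))
      = A * (((k : ℝ) + 1) * (k + 2) - 2 * b * (k + 2) * (N - k)
      + c * (N - k) * (N - k - 1)) := by
    have e1 : B * ((k + 1) * (k + 2)) = A * (N - k) * (k + 2) := by
      rw [← mul_assoc, h1]
    have e2 : D * ((k + 1) * (k + 2)) = A * (N - k) * (N - k - 1) := by
      calc D * ((k + 1) * (k + 2)) = D * (k + 2) * (k + 1) := by ring
        _ = B * (k + 1) * (N - k - 1) := by rw [h2]; ring
        _ = _ := by rw [h1]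
    calc (A - 2 * b * B + c * D) * ((k + 1) * (k + 2))
        = A * ((k + 1) * (k + 2)) - 2 * b * (B * ((k + 1) * (k + 2)))
          + c * (D * ((k + 1) * (k + 2))) := by ring
      _ = _ := by rw [e1, e2]; ring
  have hpos : (0 : ℝ) < (k + 1) * (k + 2) := by positivity
  have := mul_nonneg hA hmain
  rw [← key] at this
  exact nonneg_of_mul_nonneg_left this hpos

theorem PP_quad {b c : ℝ} (hbc : b ^ 2 < c) : PP (X ^ 2 - C (2 * b) * X + C c) := by
  have hc : 0 < c := lt_of_le_of_lt (sq_nonneg b) hbc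
  obtain ⟨N, hN⟩ := exists_nat_ge (max (2 * (1 + c) ^ 2 / (c - b ^ 2)) (2 * b / c))
  refine ⟨N, ?_⟩
  have hN1 := (le_max_left _ _).trans hN
  have hN2 := (le_max_right _ _).trans hN
  intro k
  have e : (1 + X : ℝ[X]) ^ N * (X ^ 2 - C (2 * b) * X + C c)
      = (1 + X) ^ N * X ^ 2 - C (2 * b) * ((1 + X) ^ N * X) + C c * (1 + X) ^ N := by ring
  rw [e, coeff_add, coeff_sub, coeff_C_mul, coeff_C_mul]
  rcases k with _ | _ | k
  · simp [coeff_one_add_X_pow]
    exact hc.le
  · have h1 : ((1 + X : ℝ[X]) ^ N * X ^ 2).coeff 1 = 0 := by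
      rw [coeff_mul_X_pow']
      simp
    rw [zero_add, h1, coeff_mul_X, coeff_one_add_X_pow, coeff_one_add_X_pow]
    simp
    rw [div_le_iff₀ hc] at hN2
    linarith
  · have h1 : ((1 + X : ℝ[X]) ^ N * X ^ 2).coeff (k + 2) = (N.choose k : ℝ) := by
      rw [coeff_mul_X_pow, coeff_one_add_X_pow]
    have h2 : ((1 + X : ℝ[X]) ^ N * X).coeff (k + 1 + 1) = (N.choose (k + 1) : ℝ) := by
      rw [coeff_mul_X, coeff_one_add_X_pow]
    rw [h1, h2, coeff_one_add_X_pow]
    exact choose_ineq hbc hN1 k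

theorem polya (f : ℝ[X]) (hf : ∀ x : ℝ, 0 < x → 0 < f.eval x) : PP f := by
  induction hn : f.natDegree using Nat.strong_induction_on generalizing f with
  | _ n ih =>
  have hf0 : f ≠ 0 := by
    rintro rfl
    have := hf 1 one_pos
    simp at this
  rcases Nat.eq_zero_or_pos n with h0 | hpos
  · subst h0
    have e := eq_C_of_natDegree_eq_zero hn
    apply NN.pp
    intro k
    rw [e, coeff_C]
    have h1 := hf 1 one_pos
    rw [e, eval_C] at h1
    split_ifs
    · exact h1.le
    · exact le_rfl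
  · obtain ⟨z, hz⟩ := IsAlgClosed.exists_aeval_eq_zero ℂ f (by
      intro hd
      have h3 : f.natDegree = 0 := by rw [natDegree, hd]; rfl
      omega)
    by_cases him : z.im = 0
    · -- real root
      have hroot : f.eval z.re = 0 := by
        have h1 : (z.re : ℂ) = z := by
          apply Complex.ext <;> simp [him]
        have h2 : aeval (z.re : ℂ) f = ((f.eval z.re : ℝ) : ℂ) := by
          have h3 := aeval_algebraMap_apply ℂ z.re f
          rw [coe_aeval_eq_eval] at h3
          exact h3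
        rw [h1, hz] at h2
        exact_mod_cast h2.symm
      have hle : z.re ≤ 0 := by
        by_contra hc
        push Not at hc
        have := hf z.re hc
        linarith
      obtain ⟨g, hg⟩ := dvd_iff_isRoot.mpr hroot
      have hg0 : g ≠ 0 := by
        rintro rfl
        rw [mul_zero] at hg
        exact hf0 hg
      have hdeg : g.natDegree < n := by
        rw [hg, natDegree_mul (X_sub_C_ne_zero _) hg0, natDegree_X_sub_C] at hn
        omega
      have hgp : ∀ x : ℝ, 0 < x → 0 < g.eval x := by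
        intro x hx
        have h1 := hf x hx
        rw [hg, eval_mul, eval_sub, eval_X, eval_C] at h1
        exact pos_of_mul_pos_right h1 (by linarith)
      rw [hg]
      exact (NN_lin hle).pp.mul (ih _ hdeg g hgp rfl)
    · obtain ⟨g, hg⟩ := quadratic_dvd_of_aeval_eq_zero_im_ne_zero f hz him
      have hbc : z.re ^ 2 < ‖z‖ ^ 2 := by
        rw [Complex.sq_norm, Complex.normSq_apply]
        have : 0 < z.im * z.im := mul_self_pos.mpr him
        nlinarith
      have hg0 : g ≠ 0 := by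
        rintro rfl
        rw [mul_zero] at hg
        exact hf0 hg
      have hq : (X ^ 2 - C (2 * z.re) * X + C (‖z‖ ^ 2) : ℝ[X]).natDegree = 2 := by
        compute_degree!
      have hq0 : (X ^ 2 - C (2 * z.re) * X + C (‖z‖ ^ 2) : ℝ[X]) ≠ 0 := by
        intro h
        rw [h] at hq
        simp at hq
      have hdeg : g.natDegree < n := by
        rw [hg, natDegree_mul hq0 hg0, hq] at hn
        omega
      have hgp : ∀ x : ℝ, 0 < x → 0 < g.eval x := by
        intro x hx
        have h1 := hf x hx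
        rw [hg, eval_mul] at h1
        have h2 : 0 < (X ^ 2 - C (2 * z.re) * X + C (‖z‖ ^ 2) : ℝ[X]).eval x := by
          simp only [eval_add, eval_sub, eval_mul, eval_pow, eval_X, eval_C]
          nlinarith [sq_nonneg (x - z.re)]
        exact pos_of_mul_pos_right h1 h2.le
      rw [hg]
      exact (PP_quad hbc).mul (ih _ hdeg g hgp rfl)

end Pool.Agent.H94Flex
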