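import Mathlib
import Pool.Agent.H94Flex.Polya
import Pool.Agent.H94Flex.Neg

/-! The grid case of the Klimesh–Turgut theorem. -/

namespace Pool.Agent.H94Flex

open Polynomial

/-- strict inequalities for all exponents -/
def SC (p r : Multiset ℝ) : Prop := ∀ α : ℝ, G α p < G α r

/-- the values of the test function on the grid -/
noncomputable def phik (K ω t : ℝ) (k : ℕ) : ℝ := max (K * ω ^ k - t) 0

noncomputable def Lam (K ω t : ℝ) : ℝ[X] →ₗ[ℝ] ℝ :=
  Polynomial.lsum (fun k => (LinearMap.id : ℝ →ₗ[ℝ] ℝ).smulRight (phik K ω t k))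

theorem Lam_C_mul_X_pow (K ω t c : ℝ) (k : ℕ) : Lam K ω t (C c * X ^ k) = c * phik K ω t k := by
  unfold Lam
  rw [Polynomial.lsum_apply, C_mul_X_pow_eq_monomial, Polynomial.sum_monomial_index]
  · simp
  · simp

theorem Lam_X_pow (K ω t : ℝ) (k : ℕ) : Lam K ω t (X ^ k) = phik K ω t k := by
  have := Lam_C_mul_X_pow K ω t 1 k
  simpa using this

theorem bracket {K ω t : ℝ} (hω : 1 < ω) (k : ℕ) :
    0 ≤ phik K ω t (k + 2) - (1 + ω) * phik K ω t (k + 1) + ω * phik K ω t k := by
  unfold phik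
  set u := K * ω ^ k with hu
  have e1 : K * ω ^ (k + 1) = ω * u := by rw [hu]; ring
  have e2 : K * ω ^ (k + 2) = ω ^ 2 * u := by rw [hu]; ring
  rw [e1, e2]
  have h0 : 0 ≤ max (ω ^ 2 * u - t) 0 := le_max_right _ _
  have h0' : 0 ≤ max (u - t) 0 := le_max_right _ _
  rcases le_total (ω * u) t with h | h
  · rw [max_eq_right (show ω * u - t ≤ 0 by linarith)]
    have : 0 ≤ ω * max (u - t) 0 := by positivity
    linarith
  · rw [max_eq_left (show 0 ≤ ω * u - t by linarith)]
    have h1 : ω ^ 2 * u - t ≤ max (ω ^ 2 * u - t) 0 := le_max_left _ _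
    have h2 : u - t ≤ max (u - t) 0 := le_max_left _ _
    have h3 : ω * (u - t) ≤ ω * max (u - t) 0 := mul_le_mul_of_nonneg_left h2 (by linarith)
    nlinarith

theorem Lam_nonneg {K ω t : ℝ} (hω : 1 < ω) {A : ℝ[X]} (hA : NN A) :
    0 ≤ Lam K ω t ((X - C 1) * (X - C ω) * A) := by
  rw [A.as_sum_range_C_mul_X_pow, Finset.mul_sum, map_sum]
  apply Finset.sum_nonneg
  intro k _
  have e : (X - C 1 : ℝ[X]) * (X - C ω) * (C (A.coeff k) * X ^ k)
      = C (A.coeff k) * X ^ (k + 2) - C (A.coeff k * (1 + ω)) * X ^ (k + 1)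
        + C (A.coeff k * ω) * X ^ k := by
    simp only [map_mul, map_add, map_one]
    ring
  rw [e, map_add, map_sub, Lam_C_mul_X_pow, Lam_C_mul_X_pow, Lam_C_mul_X_pow]
  have := mul_nonneg (hA k) (bracket (K := K) (t := t) hω k)
  linarith

/-- the catalyst `(1, ω)^{⊗ N}` -/
noncomputable def cat (ω : ℝ) (N : ℕ) : Multiset ℝ :=
  (Multiset.range (N + 1)).bind (fun k => Multiset.replicate (N.choose k) (ω ^ k))

theorem cat_pos {ω : ℝ} (hω : 1 < ω) (N : ℕ) : ∀ b ∈ cat ω N, 0 < b := by
  intro b hb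
  unfold cat at hb
  rw [Multiset.mem_bind] at hb
  obtain ⟨k, _, hk⟩ := hb
  rw [Multiset.eq_of_mem_replicate hk]
  positivity

theorem cat_ne_zero (ω : ℝ) (N : ℕ) : cat ω N ≠ 0 := by
  have : (1 : ℝ) ∈ cat ω N := by
    unfold cat
    rw [Multiset.mem_bind]
    exact ⟨0, Multiset.mem_range.mpr (Nat.succ_pos N), by simp⟩
  intro h
  rw [h] at this
  simp at this

theorem sum_map_cat (ω : ℝ) (N : ℕ) (f : ℝ → ℝ) :
    ((cat ω N).map f).sum = ∑ k ∈ Finset.range (N + 1), (N.choose k : ℝ) * f (ω ^ k) := by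
  unfold cat
  rw [Multiset.map_bind, Multiset.sum_bind]
  simp only [Multiset.map_replicate, Multiset.sum_replicate, nsmul_eq_mul]
  rfl

theorem Lam_cat (K ω t : ℝ) (N a : ℕ) :
    Lam K ω t (X ^ a * (1 + X) ^ N)
      = ((cat ω N).map (fun b => max (K * ω ^ a * b - t) 0)).sum := by
  rw [sum_map_cat, add_comm (1 : ℝ[X]) X, add_pow, Finset.mul_sum, map_sum]
  apply Finset.sum_congr rfl
  intro k _
  have e : (X : ℝ[X]) ^ a * (X ^ k * 1 ^ (N - k) * (N.choose k : ℝ[X]))
      = C (N.choose k : ℝ) * X ^ (a + k) := by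
    simp only [map_natCast, one_pow, mul_one]
    ring
  rw [e, Lam_C_mul_X_pow]
  unfold phik
  rw [pow_add, mul_assoc]

section

variable {n : ℕ} (K ω : ℝ) (a b : Fin n → ℕ)

/-- the grid vector -/
noncomputable def gv (a : Fin n → ℕ) : Multiset ℝ := ms (fun i => K * ω ^ (a i))

/-- generating polynomial -/
noncomputable def gp (a : Fin n → ℕ) : ℝ[X] := ∑ i, X ^ (a i)

theorem Phi_gv_cat (t : ℝ) (N : ℕ) :
    Phi (tp (gv K ω a) (cat ω N)) t = Lam K ω t (gp a * (1 + X) ^ N) := by
  rw [Phi_tp_eq]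
  unfold gv gp
  rw [sum_map_ms, Finset.sum_mul, map_sum]
  apply Finset.sum_congr rfl
  intro i _
  rw [Lam_cat]

theorem m_gv (hK : 0 < K) (hω : 1 < ω) (s : ℝ) :
    m (gv K ω a) s = K ^ s * (gp a).eval (ω ^ s) := by
  unfold m gv gp
  rw [sum_map_ms, eval_finsetSum, Finset.mul_sum]
  apply Finset.sum_congr rfl
  intro i _
  have hω0 : 0 < ω := by linarith
  rw [Real.mul_rpow hK.le (pow_pos hω0 _).le, eval_pow, eval_X, ← Real.rpow_natCast,
    ← Real.rpow_natCast, ← Real.rpow_mul hω0.le, ← Real.rpow_mul hω0.le, mul_comm s]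

theorem grid_catalyst (hK : 0 < K) (hω : 1 < ω) (hsum : (gv K ω a).sum = (gv K ω b).sum)
    (h : SC (gv K ω a) (gv K ω b)) :
    ∃ q : Multiset ℝ, q ≠ 0 ∧ (∀ c ∈ q, 0 < c) ∧ Maj (tp (gv K ω a) q) (tp (gv K ω b) q) := by
  have hω0 : 0 < ω := by linarith
  have hlog : 0 < Real.log ω := Real.log_pos hω
  set Γ : ℝ[X] := gp b - gp a with hΓ
  have hΓ1 : Γ.eval 1 = 0 := by
    rw [hΓ]; simp [gp, eval_finsetSum]
  have hsum' : (gp a).eval ω = (gp b).eval ω := by
    have h1 := m_gv K ω a hK hω 1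
    have h2 := m_gv K ω b hK hω 1
    rw [m_one, Real.rpow_one, Real.rpow_one] at h1 h2
    rw [h1, h2] at hsum
    exact mul_left_cancel₀ hK.ne' hsum
  have hΓω : Γ.eval ω = 0 := by
    rw [hΓ, eval_sub, hsum', sub_self]
  obtain ⟨Γ₁, hΓ₁⟩ := dvd_iff_isRoot.mpr hΓ1
  have hΓ₁ω : Γ₁.eval ω = 0 := by
    rw [hΓ₁, eval_mul, eval_sub, eval_X, eval_C] at hΓω
    rcases mul_eq_zero.mp hΓω with h1 | h1
    · linarith
    · exact h1
  obtain ⟨Δ, hΔ⟩ := dvd_iff_isRoot.mpr hΓ₁ω
  have hfac : Γ = (X - C 1) * (X - C ω) * Δ := by rw [hΓ₁, hΔ, mul_assoc]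
  -- derivative facts
  have hderiv : ∀ x : ℝ, x * Γ.derivative.eval x
      = (∑ i, (b i : ℝ) * x ^ (b i)) - ∑ i, (a i : ℝ) * x ^ (a i) := by
    intro x
    have e : ∀ c : Fin n → ℕ, x * (gp c).derivative.eval x = ∑ i, (c i : ℝ) * x ^ (c i) := by
      intro c
      unfold gp
      rw [derivative_sum, eval_finsetSum, Finset.mul_sum]
      apply Finset.sum_congr rfl
      intro i _
      rw [derivative_X_pow, eval_mul, eval_pow, eval_X]
      rcases Nat.eq_zero_or_pos (c i) with h0 | h0
      · simp [h0]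
      · obtain ⟨k, hk⟩ : ∃ k, c i = k + 1 := ⟨c i - 1, by omega⟩
        rw [hk]
        simp
        ring
    rw [hΓ, derivative_sub, eval_sub, mul_sub, e, e]
  have hderiv2 : ∀ x : ℝ, Γ.derivative.eval x
      = ((x - ω) + (x - 1)) * Δ.eval x + (x - 1) * (x - ω) * Δ.derivative.eval x := by
    intro x
    rw [hfac]
    simp [derivative_mul]
  have hpos : ∀ x : ℝ, 0 < x → 0 < Δ.eval x := by
    intro x hx
    by_cases hx1 : x = 1
    · -- x = 1
      subst hx1
      have h0 := h 0
      have e : ∀ c : Fin n → ℕ, G 0 (gv K ω c) = -(n * Real.log K) - (∑ i, (c i : ℝ)) * Real.log ω := by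
        intro c
        unfold G gv
        rw [sum_map_ms]
        have : ∀ i, gf 0 (K * ω ^ (c i)) = -Real.log K - (c i : ℝ) * Real.log ω := by
          intro i
          simp only [gf, zero_ne_one, if_false, if_true]
          rw [Real.log_mul hK.ne' (pow_pos hω0 _).ne', Real.log_pow]
          ring
        simp only [this]
        rw [Finset.sum_sub_distrib, Finset.sum_mul]
        simp
      rw [e, e] at h0
      have h1 : (∑ i, (b i : ℝ)) < ∑ i, (a i : ℝ) := by
        by_contra hc
        push Not at hc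
        have := mul_le_mul_of_nonneg_right hc hlog.le
        linarith
      have h2 := hderiv 1
      rw [hderiv2 1] at h2
      simp only [one_pow, mul_one, sub_self, add_zero, zero_mul, one_mul] at h2
      nlinarith
    by_cases hxω : x = ω
    · subst hxω
      have h0 := h 1
      have e : ∀ c : Fin n → ℕ, G 1 (gv K x c)
          = Real.log K * (gv K x c).sum + K * Real.log x * (∑ i, (c i : ℝ) * x ^ (c i)) := by
        intro c
        unfold G gv
        rw [sum_map_ms, sum_ms, Finset.mul_sum, Finset.mul_sum, ← Finset.sum_add_distrib]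
        apply Finset.sum_congr rfl
        intro i _
        simp only [gf, if_true]
        rw [Real.log_mul hK.ne' (pow_pos hω0 _).ne', Real.log_pow]
        ring
      rw [e, e, hsum] at h0
      have h1 : (∑ i, (a i : ℝ) * x ^ (a i)) < ∑ i, (b i : ℝ) * x ^ (b i) := by
        by_contra hc
        push Not at hc
        have := mul_le_mul_of_nonneg_left hc (mul_pos hK hlog).le
        linarith
      have h2 := hderiv x
      rw [hderiv2 x] at h2
      simp only [sub_self, zero_add, mul_zero, zero_mul, add_zero] at h2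
      have h3 : 0 < x * ((x - 1) * Δ.eval x) := by linarith
      have h4 : 0 < (x - 1) * Δ.eval x := pos_of_mul_pos_right h3 hx.le
      exact pos_of_mul_pos_right h4 (by linarith)
    · set s : ℝ := Real.log x / Real.log ω with hs
      have hxs : ω ^ s = x := by
        rw [Real.rpow_def_of_pos hω0, hs, mul_div_cancel₀ _ hlog.ne', Real.exp_log hx]
      have hs0 : s ≠ 0 := by
        intro h0
        rw [h0, Real.rpow_zero] at hxs
        exact hx1 hxs.symm
      have hs1 : s ≠ 1 := by
        intro h0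
        rw [h0, Real.rpow_one] at hxs
        exact hxω hxs.symm
      have h0 := h s
      rw [G_eq hs1 hs0, G_eq hs1 hs0, m_gv K ω a hK hω, m_gv K ω b hK hω, hxs] at h0
      have hKs : 0 < K ^ s := Real.rpow_pos_of_pos hK s
      have h1 : 0 < K ^ s * (Γ.eval x) / (s * (s - 1)) := by
        rw [hΓ, eval_sub, mul_sub, sub_div]
        linarith
      rw [hfac] at h1
      simp only [eval_mul, eval_sub, eval_X, eval_C] at h1
      -- sign of (x-1)(x-ω)/(s(s-1))
      have h2 : 0 < (x - 1) * (x - ω) / (s * (s - 1)) := by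
        rcases lt_or_gt_of_ne hs0 with h3 | h3
        · have h4 : x < 1 := by
            rw [← hxs]; exact Real.rpow_lt_one_of_one_lt_of_neg hω h3
          apply div_pos
          · exact mul_pos_of_neg_of_neg (by linarith) (by linarith)
          · exact mul_pos_of_neg_of_neg h3 (by linarith)
        · have h4 : 1 < x := by
            rw [← hxs]; exact Real.one_lt_rpow hω h3
          rcases lt_or_gt_of_ne hs1 with h5 | h5
          · have h6 : x < ω := by
              rw [← hxs]
              calc ω ^ s < ω ^ (1 : ℝ) := Real.rpow_lt_rpow_of_exponent_lt hω h5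
                _ = ω := Real.rpow_one ω
            apply div_pos_of_neg_of_neg
            · exact mul_neg_of_pos_of_neg (by linarith) (by linarith)
            · exact mul_neg_of_pos_of_neg h3 (by linarith)
          · have h6 : ω < x := by
              rw [← hxs]
              calc ω = ω ^ (1 : ℝ) := (Real.rpow_one ω).symm
                _ < ω ^ s := Real.rpow_lt_rpow_of_exponent_lt hω h5
            apply div_pos
            · exact mul_pos (by linarith) (by linarith)
            · exact mul_pos h3 (by linarith)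
      have h7 : K ^ s * ((x - 1) * (x - ω) * Δ.eval x) / (s * (s - 1))
          = K ^ s * ((x - 1) * (x - ω) / (s * (s - 1))) * Δ.eval x := by ring
      rw [h7] at h1
      exact pos_of_mul_pos_right h1 (mul_pos hKs h2).le
  obtain ⟨N, hN⟩ := polya Δ hpos
  refine ⟨cat ω N, cat_ne_zero ω N, cat_pos hω N, by rw [sum_tp, sum_tp, hsum], ?_⟩
  intro t _
  rw [Phi_gv_cat, Phi_gv_cat, ← sub_nonneg, ← map_sub, ← sub_mul, ← hΓ, hfac]
  have e : (X - C 1) * (X - C ω) * Δ * (1 + X) ^ N
      = (X - C 1) * (X - C ω) * ((1 + X) ^ N * Δ) := by ring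
  rw [e]
  exact Lam_nonneg hω hN

end

end Pool.Agent.H94Flex
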