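import Mathlib
import Pool.Agent.H94Flex.Grid

/-! Robustness of the strict inequalities under small perturbations of the vectors. -/

namespace Pool.Agent.H94Flex

open Set Filter Topology

/-- pairs of vectors -/
abbrev PairV (n : ℕ) : Type := (Fin n → ℝ) × (Fin n → ℝ)

/-- difference of the power sums -/
noncomputable def ee {n : ℕ} (z : PairV n) (s : ℝ) : ℝ := (∑ j, z.2 j ^ s) - ∑ i, z.1 i ^ s

/-- its derivative in `s` -/
noncomputable def e1 {n : ℕ} (z : PairV n) (s : ℝ) : ℝ :=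
  (∑ j, z.2 j ^ s * Real.log (z.2 j)) - ∑ i, z.1 i ^ s * Real.log (z.1 i)

theorem ev_pos {Z : Type*} [TopologicalSpace Z] {F : Z → ℝ → ℝ} {z₀ : Z} {K : Set ℝ}
    (hK : IsCompact K) (hF : ∀ s ∈ K, ContinuousAt (fun w : Z × ℝ => F w.1 w.2) (z₀, s))
    (hpos : ∀ s ∈ K, 0 < F z₀ s) : ∀ᶠ z in 𝓝 z₀, ∀ s ∈ K, 0 < F z s :=
  hK.eventually_forall_of_forall_eventually
    (P := fun z s => 0 < F z s)
    (fun s hs => (hF s hs).eventually (lt_mem_nhds (hpos s hs)))

theorem continuousAt_rpow_log {x₀ s₀ : ℝ} (h : x₀ ≠ 0 ∨ 0 < s₀) :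
    ContinuousAt (fun w : ℝ × ℝ => w.1 ^ w.2 * Real.log w.1) (x₀, s₀) := by
  by_cases hx : x₀ = 0
  · have hs : 0 < s₀ := h.resolve_left (fun h => h hx)
    subst hx
    -- bound by |x|^(s₀/2) * |log|x||
    have hlim : Tendsto (fun x : ℝ => |Real.log |x| * |x| ^ (s₀ / 2)|) (𝓝 0) (𝓝 0) := by
      have h1 : Tendsto (fun x : ℝ => Real.log x * x ^ (s₀ / 2)) (𝓝[≥] 0) (𝓝 0) := by
        have h2 := tendsto_log_mul_rpow_nhdsGT_zero (r := s₀ / 2) (by linarith)
        rw [← Ioi_insert, nhdsWithin_insert]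
        refine Tendsto.sup ?_ h2
        rw [tendsto_pure_left]
        intro s hs'
        simp only [Real.log_zero, zero_mul]
        exact mem_of_mem_nhds hs'
      have h3 : Tendsto (fun x : ℝ => |x|) (𝓝 0) (𝓝[≥] 0) := by
        apply tendsto_nhdsWithin_of_tendsto_nhds_of_eventually_within
        · have := (continuous_abs (G := ℝ)).tendsto 0
          rwa [abs_zero] at this
        · exact Filter.Eventually.of_forall (fun x => abs_nonneg x)
      have h4 := (h1.comp h3).abs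
      rw [abs_zero] at h4
      exact h4
    have hlim2 : Tendsto (fun w : ℝ × ℝ => |Real.log |w.1| * |w.1| ^ (s₀ / 2)|) (𝓝 (0, s₀))
        (𝓝 0) := hlim.comp (continuous_fst.tendsto (0, s₀))
    have hval : ((0 : ℝ), s₀).1 ^ ((0 : ℝ), s₀).2 * Real.log ((0 : ℝ), s₀).1 = 0 := by simp
    rw [ContinuousAt, hval, tendsto_zero_iff_norm_tendsto_zero]
    refine squeeze_zero' (Filter.Eventually.of_forall (fun _ => norm_nonneg _)) ?_ hlim2
    have hev : ∀ᶠ w : ℝ × ℝ in 𝓝 (0, s₀), |w.1| < 1 ∧ s₀ / 2 < w.2 := by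
      have a1 : ∀ᶠ w : ℝ × ℝ in 𝓝 (0, s₀), |w.1| < 1 := by
        have : ContinuousAt (fun w : ℝ × ℝ => |w.1|) (0, s₀) := by fun_prop
        exact this.eventually (gt_mem_nhds (by simp))
      have a2 : ∀ᶠ w : ℝ × ℝ in 𝓝 (0, s₀), s₀ / 2 < w.2 := by
        have : ContinuousAt (fun w : ℝ × ℝ => w.2) (0, s₀) := by fun_prop
        exact this.eventually (lt_mem_nhds (by simp; linarith))
      exact a1.and a2
    filter_upwards [hev] with w hw
    rw [Real.norm_eq_abs, abs_mul, abs_mul, Real.log_abs, mul_comm |Real.log w.1|]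
    apply mul_le_mul_of_nonneg_right _ (abs_nonneg _)
    refine (Real.abs_rpow_le_abs_rpow _ _).trans ?_
    rw [abs_of_nonneg (Real.rpow_nonneg (abs_nonneg w.1) _)]
    rcases (abs_nonneg w.1).eq_or_lt with h0 | h0
    · rw [← h0, Real.zero_rpow (by linarith [hw.2]), Real.zero_rpow (by linarith)]
    · exact Real.rpow_le_rpow_of_exponent_ge h0 hw.1.le hw.2.le
  · have c1 : ContinuousAt (fun w : ℝ × ℝ => w.1 ^ w.2) (x₀, s₀) :=
      Real.continuousAt_rpow (x₀, s₀) (Or.inl hx)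
    have c2 : ContinuousAt (fun w : ℝ × ℝ => Real.log w.1) (x₀, s₀) :=
      ContinuousAt.comp (g := Real.log) (f := fun w : ℝ × ℝ => w.1)
        (Real.continuousAt_log hx) continuousAt_fst
    exact c1.mul c2

variable {n : ℕ}

/-- condition for joint continuity at `(z, s)` -/
def good (z : PairV n) (s : ℝ) : Prop := (∀ i, z.1 i ≠ 0 ∨ 0 < s) ∧ (∀ j, z.2 j ≠ 0 ∨ 0 < s)

theorem continuousAt_ee {z : PairV n} {s : ℝ} (h : good z s) :
    ContinuousAt (fun w : PairV n × ℝ => ee w.1 w.2) (z, s) := by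
  unfold ee
  apply ContinuousAt.sub
  · apply tendsto_finsetSum
    intro j _
    exact ContinuousAt.comp (g := fun v : ℝ × ℝ => v.1 ^ v.2)
      (f := fun w : PairV n × ℝ => (w.1.2 j, w.2)) (Real.continuousAt_rpow (z.2 j, s) (h.2 j))
      (by fun_prop)
  · apply tendsto_finsetSum
    intro i _
    exact ContinuousAt.comp (g := fun v : ℝ × ℝ => v.1 ^ v.2)
      (f := fun w : PairV n × ℝ => (w.1.1 i, w.2)) (Real.continuousAt_rpow (z.1 i, s) (h.1 i))
      (by fun_prop)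

theorem continuousAt_e1 {z : PairV n} {s : ℝ} (h : good z s) :
    ContinuousAt (fun w : PairV n × ℝ => e1 w.1 w.2) (z, s) := by
  unfold e1
  apply ContinuousAt.sub
  · apply tendsto_finsetSum
    intro j _
    exact ContinuousAt.comp (g := fun v : ℝ × ℝ => v.1 ^ v.2 * Real.log v.1)
      (f := fun w : PairV n × ℝ => (w.1.2 j, w.2)) (continuousAt_rpow_log (h.2 j))
      (by fun_prop)
  · apply tendsto_finsetSum
    intro i _
    exact ContinuousAt.comp (g := fun v : ℝ × ℝ => v.1 ^ v.2 * Real.log v.1)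
      (f := fun w : PairV n × ℝ => (w.1.1 i, w.2)) (continuousAt_rpow_log (h.1 i))
      (by fun_prop)

/-- all entries are positive -/
def posV (z : PairV n) : Prop := (∀ i, 0 < z.1 i) ∧ ∀ j, 0 < z.2 j

theorem hasDerivAt_ee {z : PairV n} (hz : posV z) (s : ℝ) : HasDerivAt (ee z) (e1 z s) s := by
  unfold e1
  have h : ∀ x : ℝ, 0 < x → HasDerivAt (fun s : ℝ => x ^ s) (x ^ s * Real.log x) s := by
    intro x hx
    have := (hasDerivAt_id s).const_rpow hx
    simp only [id] at this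
    refine this.congr_deriv ?_
    ring
  exact (HasDerivAt.fun_sum (fun j _ => h _ (hz.2 j))).sub
    (HasDerivAt.fun_sum (fun i _ => h _ (hz.1 i)))

theorem ee_zero (z : PairV n) : ee z 0 = 0 := by simp [ee]

theorem monotone_near {z : PairV n} (hz : posV z) {a b : ℝ} (h : ∀ s ∈ Icc a b, 0 < e1 z s) :
    StrictMonoOn (ee z) (Icc a b) := by
  apply strictMonoOn_of_deriv_pos (convex_Icc a b)
  · exact fun s _ => (hasDerivAt_ee hz s).continuousAt.continuousWithinAt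
  · intro s hs
    rw [(hasDerivAt_ee hz s).deriv]
    exact h s (interior_subset hs)

theorem antitone_near {z : PairV n} (hz : posV z) {a b : ℝ} (h : ∀ s ∈ Icc a b, 0 < - e1 z s) :
    StrictAntiOn (ee z) (Icc a b) := by
  apply strictAntiOn_of_deriv_neg (convex_Icc a b)
  · exact fun s _ => (hasDerivAt_ee hz s).continuousAt.continuousWithinAt
  · intro s hs
    rw [(hasDerivAt_ee hz s).deriv]
    linarith [h s (interior_subset hs)]

theorem exists_kappa {v : Fin n → ℝ} {c : ℝ} (h : ∀ i, v i < c) :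
    ∃ κ : ℝ, 1 < κ ∧ ∀ i, κ * v i < c := by
  have : ∀ᶠ κ in 𝓝[>] (1 : ℝ), ∀ i, κ * v i < c := by
    rw [Filter.eventually_all]
    intro i
    have hc : ContinuousAt (fun κ : ℝ => κ * v i) 1 := by fun_prop
    exact (hc.tendsto.mono_left nhdsWithin_le_nhds).eventually (gt_mem_nhds (by simpa using h i))
  obtain ⟨κ, hκ, hκ'⟩ := (this.and self_mem_nhdsWithin).exists
  exact ⟨κ, hκ', hκ⟩

theorem exists_S0 (n : ℕ) {κ : ℝ} (hκ : 1 < κ) : ∃ S : ℝ, 1 < S ∧ ∀ s, S ≤ s → (n : ℝ) < κ ^ s := by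
  obtain ⟨k, hk⟩ := pow_unbounded_of_one_lt (n : ℝ) hκ
  refine ⟨k + 2, by have := Nat.cast_nonneg (α := ℝ) k; linarith, ?_⟩
  intro s hs
  calc (n : ℝ) < κ ^ k := hk
    _ = κ ^ (k : ℝ) := (Real.rpow_natCast κ k).symm
    _ ≤ κ ^ s := Real.rpow_le_rpow_of_exponent_le hκ.le (by linarith)

/-- large exponents -/
theorem large_pos {z : PairV n} (hz : posV z) {κ : ℝ} (hκ : 1 < κ) {j : Fin n}
    (h : ∀ i, κ * z.1 i < z.2 j) {s : ℝ} (hs : 0 < s) (hn : (n : ℝ) < κ ^ s) : 0 < ee z s := by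
  unfold ee
  have h1 : ∑ i, z.1 i ^ s ≤ n * ((z.2 j) ^ s / κ ^ s) := by
    calc ∑ i, z.1 i ^ s ≤ ∑ _i : Fin n, (z.2 j) ^ s / κ ^ s := by
          apply Finset.sum_le_sum
          intro i _
          rw [← Real.div_rpow (hz.2 j).le (by linarith)]
          apply Real.rpow_le_rpow (hz.1 i).le _ hs.le
          rw [le_div_iff₀ (by linarith)]
          linarith [h i]
      _ = _ := by simp
  have h2 : z.2 j ^ s ≤ ∑ j, z.2 j ^ s :=
    Finset.single_le_sum (f := fun j => z.2 j ^ s)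
      (fun j _ => Real.rpow_nonneg (hz.2 j).le s) (Finset.mem_univ j)
  have h3 : 0 < z.2 j ^ s := Real.rpow_pos_of_pos (hz.2 j) s
  have h4 : 0 < κ ^ s := Real.rpow_pos_of_pos (by linarith) s
  have h5 : n * ((z.2 j) ^ s / κ ^ s) < z.2 j ^ s := by
    rw [mul_div_assoc', div_lt_iff₀ h4]
    nlinarith
  linarith

/-- very negative exponents -/
theorem large_neg {z : PairV n} (hz : posV z) {κ : ℝ} (hκ : 1 < κ) {j : Fin n}
    (h : ∀ i, κ * z.2 j < z.1 i) {s : ℝ} (hs : s < 0) (hn : (n : ℝ) < κ ^ (-s)) : 0 < ee z s := by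
  unfold ee
  have hκ0 : 0 < κ := by linarith
  have h1 : ∑ i, z.1 i ^ s ≤ n * (κ ^ s * (z.2 j) ^ s) := by
    calc ∑ i, z.1 i ^ s ≤ ∑ _i : Fin n, κ ^ s * (z.2 j) ^ s := by
          apply Finset.sum_le_sum
          intro i _
          rw [← Real.mul_rpow hκ0.le (hz.2 j).le]
          exact Real.rpow_le_rpow_of_nonpos (mul_pos hκ0 (hz.2 j)) (h i).le hs.le
      _ = _ := by simp
  have h2 : z.2 j ^ s ≤ ∑ j, z.2 j ^ s :=
    Finset.single_le_sum (f := fun j => z.2 j ^ s)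
      (fun j _ => Real.rpow_nonneg (hz.2 j).le s) (Finset.mem_univ j)
  have h3 : 0 < z.2 j ^ s := Real.rpow_pos_of_pos (hz.2 j) s
  have h4 : 0 < κ ^ s := Real.rpow_pos_of_pos hκ0 s
  have h5 : n * κ ^ s < 1 := by
    rw [Real.rpow_neg hκ0.le] at hn
    have := mul_lt_mul_of_pos_right hn h4
    rwa [inv_mul_cancel₀ h4.ne'] at this
  nlinarith

/-- robustness, exponents `≥ σ` -/
theorem RS_pos {z₀ : PairV n} {σ : ℝ} (hσ : 0 < σ)
    (A : ∀ s, 1 < s → 0 < ee z₀ s) (B : ∀ s, 0 < s → s < 1 → ee z₀ s < 0)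
    (D : 0 < e1 z₀ 1) {j : Fin n} (top : ∀ i, z₀.1 i < z₀.2 j) :
    ∀ᶠ z in 𝓝 z₀, posV z → ee z 1 = 0 →
      (∀ s, 1 < s → 0 < ee z s) ∧ (∀ s, σ ≤ s → s < 1 → ee z s < 0) ∧ 0 < e1 z 1 := by
  have hgood : ∀ s, 0 < s → good z₀ s := fun s hs => ⟨fun _ => Or.inr hs, fun _ => Or.inr hs⟩
  -- neighbourhood of 1 where e1 is positive at z₀
  obtain ⟨η, hη, hη1, hηpos⟩ : ∃ η : ℝ, 0 < η ∧ η < 1 ∧ ∀ s ∈ Icc (1 - η) (1 + η), 0 < e1 z₀ s := by
    have hc : ContinuousAt (fun s => e1 z₀ s) 1 :=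
      ContinuousAt.comp (g := fun w : PairV n × ℝ => e1 w.1 w.2) (f := fun s : ℝ => (z₀, s))
        (continuousAt_e1 (hgood 1 one_pos)) (by fun_prop)
    have := hc.eventually (lt_mem_nhds D)
    rw [Metric.eventually_nhds_iff] at this
    obtain ⟨ε, hε, hε'⟩ := this
    refine ⟨min (ε / 2) (1 / 2), by positivity, lt_of_le_of_lt (min_le_right _ _) (by norm_num), ?_⟩
    intro s hs
    apply hε'
    rw [Real.dist_eq]
    have h3 := min_le_left (ε / 2) (1 / 2)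
    rw [abs_lt]
    constructor <;> linarith [hs.1, hs.2]
  have ev1 : ∀ᶠ z in 𝓝 z₀, ∀ s ∈ Icc (1 - η) (1 + η), 0 < e1 z s :=
    ev_pos isCompact_Icc (fun s hs => continuousAt_e1 (hgood s (by linarith [hs.1]))) hηpos
  obtain ⟨κ, hκ, hκ'⟩ := exists_kappa top
  obtain ⟨S, hS, hS'⟩ := exists_S0 n hκ
  have ev2 : ∀ᶠ z in 𝓝 z₀, ∀ s ∈ Icc (1 + η) S, 0 < ee z s :=
    ev_pos isCompact_Icc (fun s hs => continuousAt_ee (hgood s (by linarith [hs.1])))
      (fun s hs => A s (by linarith [hs.1]))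
  have ev3 : ∀ᶠ z in 𝓝 z₀, ∀ s ∈ Icc σ (1 - η), 0 < - ee z s :=
    ev_pos (F := fun z s => - ee z s) isCompact_Icc
      (fun s hs => (continuousAt_ee (hgood s (by linarith [hs.1]))).neg)
      (fun s hs => by linarith [B s (by linarith [hs.1]) (by linarith [hs.2])])
  have ev4 : ∀ᶠ z : PairV n in 𝓝 z₀, ∀ i, κ * z.1 i < z.2 j := by
    rw [Filter.eventually_all]
    intro i
    have c1 : ContinuousAt (fun z : PairV n => κ * z.1 i) z₀ := by fun_prop
    have c2 : ContinuousAt (fun z : PairV n => z.2 j) z₀ := by fun_prop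
    exact c1.tendsto.eventually_lt c2.tendsto (hκ' i)
  filter_upwards [ev1, ev2, ev3, ev4] with z a1 a2 a3 a4 hz hz1
  have hmono := monotone_near hz a1
  have m1 : (1 : ℝ) ∈ Icc (1 - η) (1 + η) := ⟨by linarith, by linarith⟩
  refine ⟨?_, ?_, a1 1 m1⟩
  · intro s hs
    rcases le_total s (1 + η) with h3 | h3
    · have := hmono m1 ⟨by linarith, h3⟩ hs
      rwa [hz1] at this
    · rcases le_total s S with h4 | h4
      · exact a2 s ⟨h3, h4⟩
      · exact large_pos hz hκ a4 (by linarith) (hS' s h4)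
  · intro s hs hs1
    rcases le_total s (1 - η) with h3 | h3
    · linarith [a3 s ⟨hs, h3⟩]
    · have := hmono ⟨h3, by linarith⟩ m1 hs1
      rwa [hz1] at this

/-- robustness, exponents `≤ 1/2` -/
theorem RS_neg {z₀ : PairV n} (h0 : posV z₀)
    (B : ∀ s, 0 < s → s < 1 → ee z₀ s < 0) (C : ∀ s, s < 0 → 0 < ee z₀ s)
    (D : e1 z₀ 0 < 0) {j : Fin n} (bot : ∀ i, z₀.2 j < z₀.1 i) :
    ∀ᶠ z in 𝓝 z₀, posV z →
      (∀ s, s < 0 → 0 < ee z s) ∧ (∀ s, 0 < s → s ≤ 1 / 2 → ee z s < 0) ∧ e1 z 0 < 0 := by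
  have hgood : ∀ s, good z₀ s :=
    fun s => ⟨fun i => Or.inl (h0.1 i).ne', fun j => Or.inl (h0.2 j).ne'⟩
  obtain ⟨η, hη, hη1, hηpos⟩ : ∃ η : ℝ, 0 < η ∧ η ≤ 1 / 2 ∧ ∀ s ∈ Icc (-η) η, 0 < - e1 z₀ s := by
    have hc : ContinuousAt (fun s => - e1 z₀ s) 0 :=
      (ContinuousAt.comp (g := fun w : PairV n × ℝ => e1 w.1 w.2) (f := fun s : ℝ => (z₀, s))
        (continuousAt_e1 (hgood 0)) (by fun_prop)).neg
    have := hc.eventually (lt_mem_nhds (show 0 < - e1 z₀ 0 by linarith))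
    rw [Metric.eventually_nhds_iff] at this
    obtain ⟨ε, hε, hε'⟩ := this
    refine ⟨min (ε / 2) (1 / 2), by positivity, min_le_right _ _, ?_⟩
    intro s hs
    apply hε'
    rw [Real.dist_eq]
    have h3 := min_le_left (ε / 2) (1 / 2)
    rw [abs_lt]
    constructor <;> linarith [hs.1, hs.2]
  have ev1 : ∀ᶠ z in 𝓝 z₀, ∀ s ∈ Icc (-η) η, 0 < - e1 z s :=
    ev_pos (F := fun z s => - e1 z s) isCompact_Icc
      (fun s hs => (continuousAt_e1 (hgood s)).neg) hηpos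
  obtain ⟨κ, hκ, hκ'⟩ : ∃ κ : ℝ, 1 < κ ∧ ∀ i, κ * z₀.2 j < z₀.1 i := by
    have : ∀ᶠ κ in 𝓝[>] (1 : ℝ), ∀ i, κ * z₀.2 j < z₀.1 i := by
      rw [Filter.eventually_all]
      intro i
      have hc : ContinuousAt (fun κ : ℝ => κ * z₀.2 j) 1 := by fun_prop
      exact (hc.tendsto.mono_left nhdsWithin_le_nhds).eventually
        (gt_mem_nhds (by simpa using bot i))
    obtain ⟨κ, hκ, hκ'⟩ := (this.and self_mem_nhdsWithin).exists
    exact ⟨κ, hκ', hκ⟩
  obtain ⟨S, hS, hS'⟩ := exists_S0 n hκ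
  have ev2 : ∀ᶠ z in 𝓝 z₀, ∀ s ∈ Icc (-S) (-η), 0 < ee z s :=
    ev_pos isCompact_Icc (fun s _ => continuousAt_ee (hgood s))
      (fun s hs => C s (by linarith [hs.2]))
  have ev3 : ∀ᶠ z in 𝓝 z₀, ∀ s ∈ Icc η (1 / 2), 0 < - ee z s :=
    ev_pos (F := fun z s => - ee z s) isCompact_Icc
      (fun s _ => (continuousAt_ee (hgood s)).neg)
      (fun s hs => by linarith [B s (by linarith [hs.1]) (by linarith [hs.2])])
  have ev4 : ∀ᶠ z : PairV n in 𝓝 z₀, ∀ i, κ * z.2 j < z.1 i := by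
    rw [Filter.eventually_all]
    intro i
    have c1 : ContinuousAt (fun z : PairV n => κ * z.2 j) z₀ := by fun_prop
    have c2 : ContinuousAt (fun z : PairV n => z.1 i) z₀ := by fun_prop
    exact c1.tendsto.eventually_lt c2.tendsto (hκ' i)
  filter_upwards [ev1, ev2, ev3, ev4] with z a1 a2 a3 a4 hz
  have hanti := antitone_near hz a1
  have m0 : (0 : ℝ) ∈ Icc (-η) η := ⟨by linarith, by linarith⟩
  refine ⟨?_, ?_, by linarith [a1 0 m0]⟩
  · intro s hs
    rcases le_total (-η) s with h3 | h3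
    · have := hanti ⟨h3, by linarith⟩ m0 hs
      rwa [ee_zero] at this
    · rcases le_total (-S) s with h4 | h4
      · exact a2 s ⟨h4, h3⟩
      · exact large_neg hz hκ a4 hs (hS' (-s) (by linarith))
  · intro s hs hs1
    rcases le_total s η with h3 | h3
    · have := hanti m0 ⟨by linarith, h3⟩ hs
      rwa [ee_zero] at this
    · linarith [a3 s ⟨h3, hs1⟩]

end Pool.Agent.H94Flex
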