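import Mathlib
import Pool.Agent.H94Flex.Perturb

/-! The equal rank case of sufficiency: reduction to the grid case. -/

namespace Pool.Agent.H94Flex

open Set Filter Topology

variable {n : ℕ}

structure Full (z : PairV n) : Prop where
  pos : posV z
  A : ∀ s, 1 < s → 0 < ee z s
  B : ∀ s, 0 < s → s < 1 → ee z s < 0
  C : ∀ s, s < 0 → 0 < ee z s
  D1 : 0 < e1 z 1
  D0 : e1 z 0 < 0

theorem m_ms (v : Fin n → ℝ) (s : ℝ) : m (ms v) s = ∑ i, v i ^ s := by
  unfold m
  rw [sum_map_ms]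

theorem Full.sc {z : PairV n} (h : Full z) : SC (ms z.1) (ms z.2) := by
  intro α
  by_cases h1 : α = 1
  · subst h1
    unfold G
    rw [sum_map_ms, sum_map_ms]
    have := h.D1
    unfold e1 at this
    simp only [gf, if_true]
    simp only [Real.rpow_one] at this
    linarith
  by_cases h0 : α = 0
  · subst h0
    unfold G
    rw [sum_map_ms, sum_map_ms]
    have := h.D0
    unfold e1 at this
    simp only [Real.rpow_zero, one_mul] at this
    simp only [gf, zero_ne_one, if_false, if_true, Finset.sum_neg_distrib]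
    linarith
  rw [G_eq h1 h0, G_eq h1 h0, m_ms, m_ms]
  rcases lt_or_gt_of_ne h0 with h2 | h2
  · have hc : 0 < α * (α - 1) := mul_pos_of_neg_of_neg h2 (by linarith)
    rw [div_lt_div_iff_of_pos_right hc]
    have := h.C α h2
    unfold ee at this
    linarith
  · rcases lt_or_gt_of_ne h1 with h3 | h3
    · have hc : α * (α - 1) < 0 := mul_neg_of_pos_of_neg h2 (by linarith)
      rw [div_lt_div_right_of_neg hc]
      have := h.B α h2 h3
      unfold ee at this
      linarith
    · have hc : 0 < α * (α - 1) := mul_pos h2 (by linarith)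
      rw [div_lt_div_iff_of_pos_right hc]
      have := h.A α h3
      unfold ee at this
      linarith

theorem Full.robust {z₀ : PairV n} (h : Full z₀) {j j' : Fin n} (top : ∀ i, z₀.1 i < z₀.2 j)
    (bot : ∀ i, z₀.2 j' < z₀.1 i) : ∀ᶠ z in 𝓝 z₀, posV z → ee z 1 = 0 → Full z := by
  have h1 := RS_pos (σ := 1 / 2) (by norm_num) h.A h.B h.D1 top
  have h2 := RS_neg h.pos h.B h.C h.D0 bot
  filter_upwards [h1, h2] with z a1 a2 hz hz1
  obtain ⟨b1, b2, b3⟩ := a1 hz hz1
  obtain ⟨c1, c2, c3⟩ := a2 hz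
  refine ⟨hz, b1, ?_, c1, b3, c3⟩
  intro s hs hs1
  rcases le_total s (1 / 2) with h3 | h3
  · exact c2 s hs h3
  · exact b2 s h3 hs1

/-- sum of powers of the first vector -/
noncomputable def SS (z : PairV n) (s : ℝ) : ℝ := ∑ i, z.1 i ^ s

/-- normalised power map -/
noncomputable def TT (c : ℝ) (z : PairV n) (s : ℝ) : PairV n :=
  (fun i => c * z.1 i ^ s / SS z s, fun j => c * z.2 j ^ s / SS z s)

theorem continuousAt_TT {c : ℝ} {z : PairV n} (hz : posV z) (hn : 0 < n) :
    ContinuousAt (fun w : PairV n × ℝ => TT c w.1 w.2) (z, 1) := by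
  have hS : ContinuousAt (fun w : PairV n × ℝ => SS w.1 w.2) (z, 1) := by
    unfold SS
    apply tendsto_finsetSum
    intro i _
    exact ContinuousAt.comp (g := fun v : ℝ × ℝ => v.1 ^ v.2)
      (f := fun w : PairV n × ℝ => (w.1.1 i, w.2))
      (Real.continuousAt_rpow (z.1 i, 1) (Or.inl (hz.1 i).ne')) (by fun_prop)
  have hS0 : SS z 1 ≠ 0 := by
    unfold SS
    have : 0 < ∑ i, z.1 i ^ (1 : ℝ) := by
      have : Nonempty (Fin n) := ⟨⟨0, hn⟩⟩
      apply Finset.sum_pos
      · intro i _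
        exact Real.rpow_pos_of_pos (hz.1 i) 1
      · exact Finset.univ_nonempty
    exact this.ne'
  unfold TT
  apply ContinuousAt.prodMk
  · rw [continuousAt_pi]
    intro i
    apply ContinuousAt.div _ hS hS0
    apply ContinuousAt.mul continuousAt_const
    exact ContinuousAt.comp (g := fun v : ℝ × ℝ => v.1 ^ v.2)
      (f := fun w : PairV n × ℝ => (w.1.1 i, w.2))
      (Real.continuousAt_rpow (z.1 i, 1) (Or.inl (hz.1 i).ne')) (by fun_prop)
  · rw [continuousAt_pi]
    intro i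
    apply ContinuousAt.div _ hS hS0
    apply ContinuousAt.mul continuousAt_const
    exact ContinuousAt.comp (g := fun v : ℝ × ℝ => v.1 ^ v.2)
      (f := fun w : PairV n × ℝ => (w.1.2 i, w.2))
      (Real.continuousAt_rpow (z.2 i, 1) (Or.inl (hz.2 i).ne')) (by fun_prop)

/-- density of vectors whose entries are on a logarithmic grid -/
theorem log_grid {z : PairV n} (hz : posV z) {V : Set (PairV n)} (hV : V ∈ 𝓝 z) :
    ∃ (k : ℕ) (L : ℝ) (a b : Fin n → ℕ), 0 < k ∧
      ((fun i => Real.exp ((a i : ℝ) / k - L)), (fun j => Real.exp ((b j : ℝ) / k - L))) ∈ V := by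
  obtain ⟨ε, hε, -, hε'⟩ := exists_lower (ms z.1 + ms z.2) (by
    intro x hx
    rw [Multiset.mem_add, mem_ms, mem_ms] at hx
    rcases hx with ⟨i, rfl⟩ | ⟨i, rfl⟩
    · exact hz.1 i
    · exact hz.2 i)
  set L : ℝ := -Real.log ε with hL
  have h1 : ∀ i, 0 ≤ Real.log (z.1 i) + L := by
    intro i
    have h2 : ε ≤ z.1 i := hε' _ (by rw [Multiset.mem_add, mem_ms]; exact Or.inl ⟨i, rfl⟩)
    have := Real.log_le_log hε h2
    rw [hL]; linarith
  have h2 : ∀ i, 0 ≤ Real.log (z.2 i) + L := by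
    intro i
    have h2 : ε ≤ z.2 i := hε' _ (by rw [Multiset.mem_add, mem_ms, mem_ms]; exact Or.inr ⟨i, rfl⟩)
    have := Real.log_le_log hε h2
    rw [hL]; linarith
  have key : ∀ x : ℝ, 0 < x → 0 ≤ Real.log x + L →
      Tendsto (fun k : ℕ => Real.exp ((⌊(Real.log x + L) * k⌋₊ : ℝ) / k - L)) atTop (𝓝 x) := by
    intro x hx hx'
    have h3 : Tendsto (fun k : ℕ => (⌊(Real.log x + L) * k⌋₊ : ℝ) / k) atTop
        (𝓝 (Real.log x + L)) :=
      (tendsto_nat_floor_mul_div_atTop hx').comp tendsto_natCast_atTop_atTop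
    have h4 := (Real.continuous_exp.tendsto _).comp (h3.sub_const L)
    rw [add_sub_cancel_right, Real.exp_log hx] at h4
    exact h4
  have hlim : Tendsto (fun k : ℕ =>
      (((fun i => Real.exp ((⌊(Real.log (z.1 i) + L) * k⌋₊ : ℝ) / k - L)),
        (fun j => Real.exp ((⌊(Real.log (z.2 j) + L) * k⌋₊ : ℝ) / k - L))) : PairV n))
      atTop (𝓝 z) := by
    refine Tendsto.prodMk_nhds (x := z.1) (y := z.2) ?_ ?_
    · rw [tendsto_pi_nhds]
      exact fun i => key _ (hz.1 i) (h1 i)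
    · rw [tendsto_pi_nhds]
      exact fun i => key _ (hz.2 i) (h2 i)
  obtain ⟨k, hk, hk0⟩ := ((hlim.eventually hV).and (eventually_gt_atTop 0)).exists
  exact ⟨k, L, _, _, hk0, hk⟩

theorem grid_dense {z : PairV n} (hz : posV z) (hn : 0 < n) {c : ℝ} (hc : 0 < c)
    (hs1 : ∑ i, z.1 i = c) (hA : ∀ s, 1 < s → 0 < ee z s)
    (hB : ∀ s, 0 < s → s < 1 → ee z s < 0) {U : Set (PairV n)} (hU : U ∈ 𝓝 z) :
    ∃ (K ω : ℝ) (a b : Fin n → ℕ), 0 < K ∧ 1 < ω ∧
      ((fun i => K * ω ^ (a i)), (fun j => K * ω ^ (b j))) ∈ U ∧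
      ∑ i, K * ω ^ (a i) = c ∧ ∑ j, K * ω ^ (b j) = c := by
  have hTz : TT c z 1 = z := by
    have hS : SS z 1 = c := by
      unfold SS
      simp only [Real.rpow_one]
      exact hs1
    unfold TT
    rw [hS]
    apply Prod.ext
    · funext i
      simp only [Real.rpow_one]
      field_simp
    · funext i
      simp only [Real.rpow_one]
      field_simp
  have hev : ∀ᶠ w : PairV n × ℝ in 𝓝 (z, 1), TT c w.1 w.2 ∈ U := by
    have := (continuousAt_TT (c := c) hz hn).tendsto
    simp only [hTz] at this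
    exact this.eventually hU
  rw [nhds_prod_eq, Filter.eventually_prod_iff] at hev
  obtain ⟨P, hP, Q, hQ, hPQ⟩ := hev
  rw [Metric.eventually_nhds_iff] at hQ
  obtain ⟨ε, hε, hε'⟩ := hQ
  set η := min (ε / 2) (1 / 2) with hη
  have hη0 : 0 < η := by positivity
  have hη1 : η < 1 := lt_of_le_of_lt (min_le_right _ _) (by norm_num)
  have hηε : η < ε := lt_of_le_of_lt (min_le_left _ _) (by linarith)
  have c1 : ∀ s, ContinuousAt (fun z : PairV n => ee z s) z := by
    intro s
    exact ContinuousAt.comp (g := fun w : PairV n × ℝ => ee w.1 w.2)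
      (f := fun z : PairV n => (z, s))
      (continuousAt_ee ⟨fun i => Or.inl (hz.1 i).ne', fun j => Or.inl (hz.2 j).ne'⟩) (by fun_prop)
  have e1 : ∀ᶠ z' in 𝓝 z, 0 < ee z' (1 + η) :=
    (c1 (1 + η)).eventually (lt_mem_nhds (hA _ (by linarith)))
  have e2 : ∀ᶠ z' in 𝓝 z, ee z' (1 - η) < 0 :=
    (c1 (1 - η)).eventually (gt_mem_nhds (hB _ (by linarith) (by linarith)))
  obtain ⟨k, L, a, b, hk, hPz, hz1, hz2⟩ := log_grid hz (hP.and (e1.and e2))
  set z' : PairV n := ((fun i => Real.exp ((a i : ℝ) / k - L)),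
    (fun j => Real.exp ((b j : ℝ) / k - L))) with hz'
  have hz'pos : posV z' := ⟨fun i => Real.exp_pos _, fun j => Real.exp_pos _⟩
  have hcont : ContinuousOn (ee z') (Icc (1 - η) (1 + η)) :=
    fun s _ => (hasDerivAt_ee hz'pos s).continuousAt.continuousWithinAt
  obtain ⟨σ, hσ, hσ0⟩ := intermediate_value_Icc (by linarith : 1 - η ≤ 1 + η) hcont
    (show (0 : ℝ) ∈ Icc (ee z' (1 - η)) (ee z' (1 + η)) from ⟨hz2.le, hz1.le⟩)
  have hσpos : 0 < σ := by linarith [hσ.1]
  have hQσ : Q σ := hε' (by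
    rw [Real.dist_eq, abs_lt]
    constructor <;> linarith [hσ.1, hσ.2])
  have hTU := hPQ hPz hQσ
  simp only at hTU
  have hSpos : 0 < SS z' σ := by
    have : Nonempty (Fin n) := ⟨⟨0, hn⟩⟩
    apply Finset.sum_pos
    · intro i _
      exact Real.rpow_pos_of_pos (hz'pos.1 i) σ
    · exact Finset.univ_nonempty
  have hk' : (0 : ℝ) < k := by exact_mod_cast hk
  set ω := Real.exp (σ / k) with hω
  set K := c * Real.exp (-(σ * L)) / SS z' σ with hK
  have hpow : ∀ x : ℕ, c * Real.exp ((x : ℝ) / k - L) ^ σ / SS z' σ = K * ω ^ x := by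
    intro x
    rw [← Real.exp_mul, hK, hω, ← Real.exp_nat_mul]
    have : ((x : ℝ) / k - L) * σ = -(σ * L) + x * (σ / k) := by ring
    rw [this, Real.exp_add]
    ring
  refine ⟨K, ω, a, b, by positivity, ?_, ?_, ?_, ?_⟩
  · rw [hω]
    exact Real.one_lt_exp_iff.mpr (by positivity)
  · have : TT c z' σ = ((fun i => K * ω ^ (a i)), (fun j => K * ω ^ (b j))) := by
      unfold TT
      apply Prod.ext
      · funext i
        exact hpow (a i)
      · funext j
        exact hpow (b j)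
    rw [← this]
    exact hTU
  · simp only [← hpow]
    rw [← Finset.sum_div, ← Finset.mul_sum]
    have : ∑ i, Real.exp ((a i : ℝ) / k - L) ^ σ = SS z' σ := rfl
    rw [this]
    field_simp
  · simp only [← hpow]
    rw [← Finset.sum_div, ← Finset.mul_sum]
    have : ∑ i, Real.exp ((b i : ℝ) / k - L) ^ σ = SS z' σ := by
      have h5 : ee z' σ = 0 := hσ0
      unfold ee at h5
      unfold SS
      linarith
    rw [this]
    field_simp

end Pool.Agent.H94Flex
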