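import Mathlib
import Pool.Agent.H94Flex.StepC

/-! The equal rank case of sufficiency, conclusion. -/

namespace Pool.Agent.H94Flex

open Set Filter Topology

variable {n : ℕ}

theorem Phi_ms (v : Fin n → ℝ) (t : ℝ) : Phi (ms v) t = ∑ i, max (v i - t) 0 := by
  unfold Phi
  rw [sum_map_ms]

theorem continuous_Phi_ms : Continuous (fun w : (Fin n → ℝ) × ℝ => Phi (ms w.1) w.2) := by
  simp only [Phi_ms]
  fun_prop

/-- vectors close to something strictly above `p` majorize `p` -/
theorem above {p p' : Fin n → ℝ} {c lo hi : ℝ} (hlo : ∀ i, lo ≤ p i) (hhi : ∀ i, p i ≤ hi)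
    (hsum : ∑ i, p i = c) (h : ∀ t ∈ Icc lo hi, Phi (ms p) t < Phi (ms p') t) :
    ∀ᶠ v in 𝓝 p', ∑ i, v i = c → Maj (ms p) (ms v) := by
  have ev : ∀ᶠ v in 𝓝 p', ∀ t ∈ Icc lo hi, 0 < Phi (ms v) t - Phi (ms p) t := by
    apply ev_pos isCompact_Icc
    · intro t _
      apply ContinuousAt.sub
      · exact continuous_Phi_ms.continuousAt
      · exact ((Phi_continuous (ms p)).comp continuous_snd).continuousAt
    · intro t ht
      linarith [h t ht]
  filter_upwards [ev] with v hv hvs
  refine ⟨by rw [sum_ms, sum_ms, hsum, hvs], ?_⟩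
  intro t _
  rcases le_total t lo with h1 | h1
  · rw [Phi_eq_of_le (ms p) t (by
      intro a ha
      rw [mem_ms] at ha
      obtain ⟨i, rfl⟩ := ha
      exact h1.trans (hlo i))]
    have := Phi_ge (ms v) t
    rw [card_ms, sum_ms, hvs] at this
    rw [card_ms, sum_ms, hsum]
    exact this
  rcases le_total hi t with h2 | h2
  · rw [Phi_eq_zero (ms p) t (by
      intro a ha
      rw [mem_ms] at ha
      obtain ⟨i, rfl⟩ := ha
      exact (hhi i).trans h2)]
    exact Phi_nonneg _ _
  · linarith [hv t ⟨h1, h2⟩]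

/-- vectors close to something strictly below `r` are majorized by `r` -/
theorem below {r r' : Fin n → ℝ} {c lo hi : ℝ} (hlo : ∀ i, lo < r' i) (hhi : ∀ i, r' i < hi)
    (hsum : ∑ i, r i = c) (h : ∀ t ∈ Icc lo hi, Phi (ms r') t < Phi (ms r) t) :
    ∀ᶠ v in 𝓝 r', ∑ i, v i = c → Maj (ms v) (ms r) := by
  have ev : ∀ᶠ v in 𝓝 r', ∀ t ∈ Icc lo hi, 0 < Phi (ms r) t - Phi (ms v) t := by
    apply ev_pos isCompact_Icc
    · intro t _
      apply ContinuousAt.sub
      · exact ((Phi_continuous (ms r)).comp continuous_snd).continuousAt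
      · exact continuous_Phi_ms.continuousAt
    · intro t ht
      linarith [h t ht]
  have ev2 : ∀ᶠ v in 𝓝 r', ∀ i, lo < v i ∧ v i < hi := by
    rw [Filter.eventually_all]
    intro i
    have c1 : ContinuousAt (fun v : Fin n → ℝ => v i) r' := (continuous_apply i).continuousAt
    exact (c1.eventually (lt_mem_nhds (hlo i))).and (c1.eventually (gt_mem_nhds (hhi i)))
  filter_upwards [ev, ev2] with v hv hv2 hvs
  refine ⟨by rw [sum_ms, sum_ms, hsum, hvs], ?_⟩
  intro t _
  rcases le_total t lo with h1 | h1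
  · rw [Phi_eq_of_le (ms v) t (by
      intro a ha
      rw [mem_ms] at ha
      obtain ⟨i, rfl⟩ := ha
      exact h1.trans (hv2 i).1.le)]
    have := Phi_ge (ms r) t
    rw [card_ms, sum_ms, hsum] at this
    rw [card_ms, sum_ms, hvs]
    exact this
  rcases le_total hi t with h2 | h2
  · rw [Phi_eq_zero (ms v) t (by
      intro a ha
      rw [mem_ms] at ha
      obtain ⟨i, rfl⟩ := ha
      exact (hv2 i).2.le.trans h2)]
    exact Phi_nonneg _ _
  · linarith [hv t ⟨h1, h2⟩]

theorem strict_above {p : Fin n → ℝ} {c δ : ℝ} (hp : ∀ i, 0 < p i) (hsum : ∑ i, p i = c)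
    (hδ : 0 < δ) {i0 i1 : Fin n} (h01 : i1 ≠ i0) {t : ℝ} (ht0 : t ≤ p i0) (ht1 : p i1 ≤ t) :
    Phi (ms p) t < Phi (ms (fun i => (1 - δ) * p i + δ * (if i = i0 then c else 0))) t := by
  rw [Phi_ms, Phi_ms]
  set w : Fin n → ℝ := fun i => if i = i0 then p i else if t < p i then p i else 0 with hw
  have hwsum : ∑ i, w i < c := by
    rw [← hsum]
    apply Finset.sum_lt_sum
    · intro i _
      simp only [hw]
      split_ifs
      · exact le_rfl
      · exact le_rfl
      · exact (hp i).le
    · refine ⟨i1, Finset.mem_univ _, ?_⟩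
      simp only [hw]
      rw [if_neg h01, if_neg (not_lt.mpr ht1)]
      exact hp i1
  have hterm : ∀ i, max (p i - t) 0 + (δ * (if i = i0 then c else 0) - δ * w i)
      ≤ max ((1 - δ) * p i + δ * (if i = i0 then c else 0) - t) 0 := by
    intro i
    simp only [hw]
    by_cases hi : i = i0
    · subst hi
      simp only [if_true]
      rw [max_eq_left (by linarith)]
      refine le_trans ?_ (le_max_left _ _)
      linarith
    · simp only [hi, if_false, mul_zero, add_zero, zero_sub]
      split_ifs with h2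
      · rw [max_eq_left (by linarith)]
        refine le_trans ?_ (le_max_left _ _)
        linarith
      · rw [max_eq_right (by linarith), mul_zero, neg_zero, add_zero]
        exact le_max_right _ _
  have h3 : ∑ i, (max (p i - t) 0 + (δ * (if i = i0 then c else 0) - δ * w i))
      = (∑ i, max (p i - t) 0) + δ * (c - ∑ i, w i) := by
    rw [Finset.sum_add_distrib, Finset.sum_sub_distrib, ← Finset.mul_sum, ← Finset.mul_sum,
      Finset.sum_ite_eq' Finset.univ i0 (fun _ => c)]
    simp
    ring
  have h4 := Finset.sum_le_sum (s := Finset.univ) (fun i _ => hterm i)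
  rw [h3] at h4
  have h5 : 0 < δ * (c - ∑ i, w i) := mul_pos hδ (by linarith)
  linarith

theorem strict_below {r : Fin n → ℝ} {c δ : ℝ} (hsum : ∑ i, r i = c)
    (hδ : 0 < δ) (hδ1 : δ < 1) {j j' : Fin n} {t : ℝ} (ht0 : t < r j) (ht1 : r j' < t) :
    Phi (ms (fun i => (1 - δ) * r i + δ * (c / n))) t < Phi (ms r) t := by
  have hn : (0 : ℝ) < n := by exact_mod_cast j.pos
  have h1 : Phi (ms (fun i => (1 - δ) * r i + δ * (c / n))) t
      ≤ (1 - δ) * Phi (ms r) t + δ * max (c - n * t) 0 := by
    rw [Phi_ms, Phi_ms, Finset.mul_sum]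
    have h2 : ∀ i, max ((1 - δ) * r i + δ * (c / n) - t) 0
        ≤ (1 - δ) * max (r i - t) 0 + δ * max (c / n - t) 0 := by
      intro i
      apply max_le
      · have a1 := mul_le_mul_of_nonneg_left (le_max_left (r i - t) 0) (by linarith : 0 ≤ 1 - δ)
        have a2 := mul_le_mul_of_nonneg_left (le_max_left (c / n - t) 0) hδ.le
        linarith
      · have a1 := mul_nonneg (by linarith : 0 ≤ 1 - δ) (le_max_right (r i - t) 0)
        have a2 := mul_nonneg hδ.le (le_max_right (c / n - t) 0)
        linarith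
    refine (Finset.sum_le_sum (fun i _ => h2 i)).trans ?_
    rw [Finset.sum_add_distrib]
    have h3 : ∑ _i : Fin n, δ * max (c / n - t) 0 = δ * max (c - n * t) 0 := by
      rw [Finset.sum_const, Finset.card_univ, Fintype.card_fin, nsmul_eq_mul,
        show (n : ℝ) * (δ * max (c / n - t) 0) = δ * (n * max (c / n - t) 0) by ring,
        mul_max_of_nonneg _ _ hn.le, mul_zero, mul_sub, mul_div_cancel₀ _ hn.ne']
    rw [h3]
  have h4 : max (c - n * t) 0 < Phi (ms r) t := by
    rw [Phi_ms]
    apply max_lt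
    · -- ∑ max (r i - t) 0 - (c - n t) = ∑ max (t - r i) 0 > 0
      have e : (c - n * t) = ∑ i, (r i - t) := by
        rw [Finset.sum_sub_distrib, hsum]; simp
      rw [e]
      apply Finset.sum_lt_sum
      · intro i _
        exact le_max_left _ _
      · exact ⟨j', Finset.mem_univ _, by
          rw [max_eq_right (by linarith)]
          linarith⟩
    · apply Finset.sum_pos'
      · intro i _
        exact le_max_right _ _
      · exact ⟨j, Finset.mem_univ _, by
          rw [max_eq_left (by linarith)]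
          linarith⟩
  nlinarith

theorem suff_eq {z : PairV n} (h : Full z) {c : ℝ} (hc : 0 < c) (hs1 : ∑ i, z.1 i = c)
    (hs2 : ∑ i, z.2 i = c) {j j' : Fin n} (top : ∀ i, z.1 i < z.2 j)
    (bot : ∀ i, z.2 j' < z.1 i) :
    ∃ q : Multiset ℝ, q ≠ 0 ∧ (∀ b ∈ q, 0 < b) ∧ Maj (tp (ms z.1) q) (tp (ms z.2) q) := by
  have hn : 0 < n := j.pos
  have hnr : (0 : ℝ) < n := by exact_mod_cast hn
  have hne : Nonempty (Fin n) := ⟨j⟩
  obtain ⟨i0, hi0⟩ := Finite.exists_max z.1
  obtain ⟨im, him⟩ := Finite.exists_min z.1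
  -- n ≥ 2
  have hn2 : ∃ k : Fin n, k ≠ i0 := by
    by_contra hcon
    push Not at hcon
    have e1 : ∑ i, z.1 i = z.1 i0 := by
      apply Finset.sum_eq_single_of_mem i0 (Finset.mem_univ _)
      intro b _ hb
      exact absurd (hcon b) hb
    have e2 : ∑ i, z.2 i = z.2 i0 := by
      apply Finset.sum_eq_single_of_mem i0 (Finset.mem_univ _)
      intro b _ hb
      exact absurd (hcon b) hb
    have := top i0
    rw [hcon j] at this
    linarith
  obtain ⟨i1, hi1, hi1m⟩ : ∃ i1 : Fin n, i1 ≠ i0 ∧ z.1 i1 ≤ z.1 im := by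
    by_cases h1 : im = i0
    · obtain ⟨k, hk⟩ := hn2
      refine ⟨k, hk, ?_⟩
      rw [h1]
      exact hi0 k
    · exact ⟨im, h1, le_rfl⟩
  -- the path
  set path : ℝ → PairV n := fun δ => ((fun i => (1 - δ) * z.1 i + δ * (if i = i0 then c else 0)),
    (fun i => (1 - δ) * z.2 i + δ * (c / n))) with hpath
  have hpathc : Continuous path := by
    rw [hpath]
    fun_prop
  have hpath0 : path 0 = z := by
    rw [hpath]
    simp
  have hlim : Tendsto path (𝓝[>] 0) (𝓝 z) := by
    have := hpathc.tendsto 0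
    rw [hpath0] at this
    exact this.mono_left nhdsWithin_le_nhds
  have ev1 := hlim.eventually (h.robust top bot)
  have ev2 : ∀ᶠ z' : PairV n in 𝓝 z, (∀ i, z'.1 i < z'.2 j) ∧ (∀ i, z'.2 j' < z'.1 i) := by
    apply Filter.Eventually.and
    · rw [Filter.eventually_all]
      intro i
      have c1 : ContinuousAt (fun z : PairV n => z.1 i) z := by fun_prop
      have c2 : ContinuousAt (fun z : PairV n => z.2 j) z := by fun_prop
      exact c1.tendsto.eventually_lt c2.tendsto (top i)
    · rw [Filter.eventually_all]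
      intro i
      have c1 : ContinuousAt (fun z : PairV n => z.2 j') z := by fun_prop
      have c2 : ContinuousAt (fun z : PairV n => z.1 i) z := by fun_prop
      exact c1.tendsto.eventually_lt c2.tendsto (bot i)
  obtain ⟨δ, hδrob, ⟨htop, hbot⟩, hδ, hδ1⟩ :=
    (ev1.and ((hlim.eventually ev2).and (Ioo_mem_nhdsGT (one_pos (α := ℝ))))).exists
  -- the perturbed pair
  set y := path δ with hy
  have hy1 : y.1 = fun i => (1 - δ) * z.1 i + δ * (if i = i0 then c else 0) := rfl
  have hy2 : y.2 = fun i => (1 - δ) * z.2 i + δ * (c / n) := rfl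
  have hypos : posV y := by
    constructor
    · intro i
      rw [hy1]
      have h1 := mul_pos (by linarith : 0 < 1 - δ) (h.pos.1 i)
      have h2 : 0 ≤ δ * (if i = i0 then c else 0) := by
        apply mul_nonneg hδ.le
        split_ifs
        · exact hc.le
        · exact le_rfl
      simp only
      linarith
    · intro i
      rw [hy2]
      have h1 := mul_pos (by linarith : 0 < 1 - δ) (h.pos.2 i)
      have h2 : 0 < δ * (c / n) := by positivity
      simp only
      linarith
  have hys1 : ∑ i, y.1 i = c := by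
    rw [hy1, Finset.sum_add_distrib, ← Finset.mul_sum, ← Finset.mul_sum, hs1]
    simp
    ring
  have hys2 : ∑ i, y.2 i = c := by
    rw [hy2, Finset.sum_add_distrib, ← Finset.mul_sum, hs2]
    simp
    field_simp
    ring
  have hye : ee y 1 = 0 := by
    unfold ee
    simp only [Real.rpow_one]
    rw [hys1, hys2, sub_self]
  have hyFull := hδrob hypos hye
  -- neighbourhood conditions
  have n1 := hyFull.robust htop hbot
  have n2 : ∀ᶠ z' : PairV n in 𝓝 y, ∑ i, z'.1 i = c → Maj (ms z.1) (ms z'.1) := by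
    have := above (p := z.1) (p' := y.1) (lo := z.1 im) (hi := z.1 i0) him hi0 hs1 (by
      intro t ht
      rw [hy1]
      exact strict_above h.pos.1 hs1 hδ hi1 ht.2 (hi1m.trans ht.1))
    exact continuous_fst.continuousAt.eventually this
  have n3 : ∀ᶠ z' : PairV n in 𝓝 y, ∑ i, z'.2 i = c → Maj (ms z'.2) (ms z.2) := by
    obtain ⟨k0, hk0⟩ := Finite.exists_max z.2
    obtain ⟨km, hkm⟩ := Finite.exists_min z.2
    -- r_min < c/n < r_max
    have hlt1 : z.2 km < c / n := by
      rw [lt_div_iff₀ hnr, ← hs1, mul_comm]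
      have : ∑ _i : Fin n, z.2 km < ∑ i, z.1 i := by
        apply Finset.sum_lt_sum_of_nonempty Finset.univ_nonempty
        intro i _
        exact (hkm j').trans_lt (bot i)
      simpa using this
    have hlt2 : c / n < z.2 k0 := by
      rw [div_lt_iff₀ hnr, ← hs1, mul_comm]
      have : ∑ i, z.1 i < ∑ _i : Fin n, z.2 k0 := by
        apply Finset.sum_lt_sum_of_nonempty Finset.univ_nonempty
        intro i _
        exact (top i).trans_le (hk0 j)
      simpa using this
    set lo := z.2 km + δ / 2 * (c / n - z.2 km) with hlo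
    set hi := z.2 k0 - δ / 2 * (z.2 k0 - c / n) with hhi
    have hlo1 : z.2 km < lo := by
      rw [hlo]
      have : 0 < δ / 2 * (c / n - z.2 km) := mul_pos (by linarith) (by linarith)
      linarith
    have hhi1 : hi < z.2 k0 := by
      rw [hhi]
      have : 0 < δ / 2 * (z.2 k0 - c / n) := mul_pos (by linarith) (by linarith)
      linarith
    have := below (r := z.2) (r' := y.2) (lo := lo) (hi := hi) (by
        intro i
        rw [hy2, hlo]
        have a1 := mul_le_mul_of_nonneg_left (hkm i) (by linarith : 0 ≤ 1 - δ)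
        have a2 : 0 < δ / 2 * (c / n - z.2 km) := mul_pos (by linarith) (by linarith)
        simp only
        nlinarith) (by
        intro i
        rw [hy2, hhi]
        have a1 := mul_le_mul_of_nonneg_left (hk0 i) (by linarith : 0 ≤ 1 - δ)
        have a2 : 0 < δ / 2 * (z.2 k0 - c / n) := mul_pos (by linarith) (by linarith)
        simp only
        nlinarith) hs2 (by
        intro t ht
        rw [hy2]
        exact strict_below hs2 hδ hδ1 (j := k0) (j' := km) (ht.2.trans_lt hhi1)
          (hlo1.trans_le ht.1))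
    exact continuous_snd.continuousAt.eventually this
  obtain ⟨K, ω, a, b, hK, hω, ⟨u1, u2, u3⟩, hsa, hsb⟩ := grid_dense hypos hn hc hys1 hyFull.A
    hyFull.B (n1.and (n2.and n3))
  have hω0 : 0 < ω := by linarith
  have hgpos : posV ((fun i => K * ω ^ (a i), fun j => K * ω ^ (b j)) : PairV n) :=
    ⟨fun i => by positivity, fun j => by positivity⟩
  have hg := u1 hgpos (by
    unfold ee
    simp only [Real.rpow_one]
    rw [hsa, hsb, sub_self])
  obtain ⟨q, hq0, hqp, hq⟩ := grid_catalyst K ω a b hK hω (by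
    unfold gv
    rw [sum_ms, sum_ms, hsa, hsb]) hg.sc
  refine ⟨q, hq0, hqp, ?_⟩
  exact ((u2 hsa).tp q hqp).trans (hq.trans ((u3 hsb).tp q hqp))

end Pool.Agent.H94Flex
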