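import Mathlib
import Pool.Agent.H94Flex.StepC2

/-! Sufficiency when `r` has a zero entry. -/

namespace Pool.Agent.H94Flex

open Set Filter Topology

variable {n : ℕ}

theorem abs_exp_sub_one_le' (v : ℝ) : |Real.exp v - 1| ≤ |v| * Real.exp |v| := by
  rcases le_total 0 v with h | h
  · rw [abs_of_nonneg h, abs_of_nonneg (by linarith [Real.add_one_le_exp v])]
    have h1 := Real.add_one_le_exp (-v)
    have h2 : 0 < Real.exp v := Real.exp_pos v
    have h3 : Real.exp (-v) * Real.exp v = 1 := by rw [← Real.exp_add]; simp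
    nlinarith
  · have h1 := Real.add_one_le_exp v
    have h2 : Real.exp v ≤ 1 := Real.exp_le_one_iff.mpr h
    rw [abs_of_nonpos h, abs_of_nonpos (by linarith)]
    have h3 : 1 ≤ Real.exp (-v) := Real.one_le_exp (by linarith)
    nlinarith

theorem rpow_sub_one_bound {u s Λ S : ℝ} (hu : 0 < u) (hΛ : |Real.log u| ≤ Λ) (hs : |s| ≤ S) :
    |u ^ s - 1| ≤ |s| * (Λ * Real.exp (S * Λ)) := by
  have hΛ0 : 0 ≤ Λ := (abs_nonneg _).trans hΛ
  have hS0 : 0 ≤ S := (abs_nonneg _).trans hs
  rw [Real.rpow_def_of_pos hu]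
  refine (abs_exp_sub_one_le' _).trans ?_
  rw [abs_mul]
  have h1 : |Real.log u| * |s| ≤ S * Λ := by
    calc |Real.log u| * |s| ≤ Λ * S := mul_le_mul hΛ hs (abs_nonneg _) hΛ0
      _ = S * Λ := mul_comm _ _
  calc |Real.log u| * |s| * Real.exp (|Real.log u| * |s|)
      ≤ (Λ * |s|) * Real.exp (S * Λ) := by
        apply mul_le_mul _ (Real.exp_le_exp.mpr h1) (Real.exp_pos _).le (by positivity)
        exact mul_le_mul_of_nonneg_right hΛ (abs_nonneg _)
    _ = _ := by ring

theorem one_sub_exp_neg_ge {v : ℝ} (hv : 0 ≤ v) : min v 1 / 2 ≤ 1 - Real.exp (-v) := by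
  have h0 : Real.exp (-v) * Real.exp v = 1 := by rw [← Real.exp_add]; simp
  have h1 := Real.add_one_le_exp v
  have hpos := Real.exp_pos (-v)
  -- exp(-v) ≤ 1/(1+v)
  have h2 : Real.exp (-v) * (1 + v) ≤ 1 := by nlinarith
  rcases le_total v 1 with h | h
  · rw [min_eq_left h]
    -- 1/(1+v) ≤ 1 - v/2
    have h3 : Real.exp (-v) ≤ 1 / (1 + v) := by
      rw [le_div_iff₀ (by linarith)]; exact h2
    have h4 : 1 / (1 + v) ≤ 1 - v / 2 := by
      rw [div_le_iff₀ (by linarith)]; nlinarith
    linarith
  · rw [min_eq_right h]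
    have h3 : Real.exp (-v) * 2 ≤ 1 := by nlinarith
    linarith

set_option maxHeartbeats 4000000 in
theorem suff_lt {p r : Fin n → ℝ} (hp : ∀ i, 0 < p i) (hr : ∀ j, 0 ≤ r j) {j0 : Fin n}
    (hj0 : r j0 = 0) {c : ℝ} (hc : 0 < c) (hs1 : ∑ i, p i = c) (hs2 : ∑ j, r j = c)
    (A : ∀ s, 1 < s → 0 < ee ((p, r) : PairV n) s)
    (B : ∀ s, 0 < s → s < 1 → ee ((p, r) : PairV n) s < 0)
    (D : 0 < e1 ((p, r) : PairV n) 1) {j : Fin n} (top : ∀ i, p i < r j) :
    ∃ q : Multiset ℝ, q ≠ 0 ∧ (∀ b ∈ q, 0 < b) ∧ Maj (tp (ms p) q) (tp (ms r) q) := by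
  classical
  have hn : 0 < n := j0.pos
  -- number of zero entries
  set l : ℝ := ((Finset.univ.filter (fun j => r j = 0)).card : ℝ) with hl
  have hl1 : 1 ≤ l := by
    rw [hl]
    have : 0 < (Finset.univ.filter (fun j => r j = 0)).card :=
      Finset.card_pos.mpr ⟨j0, by simp [hj0]⟩
    exact_mod_cast this
  have hl0 : 0 < l := by linarith
  -- bound for the logarithms
  obtain ⟨Λ, hΛ0, hΛp, hΛr⟩ : ∃ Λ : ℝ, 0 < Λ ∧ (∀ i, |Real.log (p i)| ≤ Λ) ∧
      (∀ j, |Real.log (r j)| + 1 ≤ Λ) := by
    refine ⟨∑ i, |Real.log (p i)| + ∑ j, (|Real.log (r j)| + 1), ?_, ?_, ?_⟩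
    · have h1 : 0 ≤ ∑ i, |Real.log (p i)| := Finset.sum_nonneg (fun i _ => abs_nonneg _)
      have h2 : 0 < ∑ j, (|Real.log (r j)| + 1) :=
        Finset.sum_pos (fun j _ => by positivity) ⟨j0, Finset.mem_univ _⟩
      linarith
    · intro i
      have h1 := Finset.single_le_sum (f := fun i => |Real.log (p i)|)
        (fun i _ => abs_nonneg _) (Finset.mem_univ i)
      have h2 : 0 ≤ ∑ j, (|Real.log (r j)| + 1) := Finset.sum_nonneg (fun j _ => by positivity)
      linarith
    · intro i
      have h1 := Finset.single_le_sum (f := fun j => |Real.log (r j)| + 1)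
        (fun i _ => by positivity) (Finset.mem_univ i)
      have h2 : 0 ≤ ∑ i, |Real.log (p i)| := Finset.sum_nonneg (fun j _ => abs_nonneg _)
      linarith
  obtain ⟨S, hS, hS'⟩ := exists_S0 n (one_lt_two (α := ℝ))
  set C1 : ℝ := Λ * Real.exp (S * Λ) with hC1
  have hC10 : 0 < C1 := by positivity
  set C : ℝ := 2 * n * C1 + 1 with hC
  have hC0 : 1 ≤ C := by
    rw [hC]
    have : 0 ≤ 2 * (n : ℝ) * C1 := by positivity
    linarith
  set η : ℝ := 1 / (4 * C) with hη
  have hη0 : 0 < η := by positivity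
  have hηC : C * η = 1 / 4 := by rw [hη]; field_simp
  have hη1 : η ≤ 1 / 4 := by nlinarith
  -- the path
  set path : ℝ → PairV n := fun δ =>
    (p, fun j => (1 - δ) * r j + δ * (if r j = 0 then c / l else 0)) with hpath
  have hpathc : Continuous path := by
    rw [hpath]
    fun_prop
  have hpath0 : path 0 = (p, r) := by
    rw [hpath]
    simp
  have hlim : Tendsto path (𝓝[>] 0) (𝓝 (p, r)) := by
    have := hpathc.tendsto 0
    rw [hpath0] at this
    exact this.mono_left nhdsWithin_le_nhds
  have ev1 := hlim.eventually (RS_pos (σ := η) hη0 A B D top)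
  have ev2 : ∀ᶠ z' : PairV n in 𝓝 (p, r), ∀ i, z'.1 i < z'.2 j := by
    rw [Filter.eventually_all]
    intro i
    have c1 : ContinuousAt (fun z : PairV n => z.1 i) (p, r) := by fun_prop
    have c2 : ContinuousAt (fun z : PairV n => z.2 j) (p, r) := by fun_prop
    exact c1.tendsto.eventually_lt c2.tendsto (top i)
  -- conditions on x = δ c / l
  have hx : Tendsto (fun δ : ℝ => δ * (c / l)) (𝓝[>] 0) (𝓝[>] 0) := by
    apply tendsto_nhdsWithin_of_tendsto_nhds_of_eventually_within
    · have : Tendsto (fun δ : ℝ => δ * (c / l)) (𝓝 0) (𝓝 (0 * (c / l))) :=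
        (continuous_id.mul continuous_const).tendsto 0
      rw [zero_mul] at this
      exact this.mono_left nhdsWithin_le_nhds
    · filter_upwards [self_mem_nhdsWithin] with δ hδ
      have : (0 : ℝ) < δ := hδ
      exact mul_pos this (by positivity)
  have ev3 : ∀ᶠ δ : ℝ in 𝓝[>] 0, Real.log (δ * (c / l)) < -(4 * C + 2 * n * Λ) :=
    (Real.tendsto_log_nhdsGT_zero.comp hx).eventually (eventually_lt_atBot _)
  have ev4 : ∀ᶠ δ : ℝ in 𝓝[>] 0, ∀ i, 2 * (δ * (c / l)) < p i := by
    rw [Filter.eventually_all]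
    intro i
    have h1 : Tendsto (fun δ : ℝ => 2 * (δ * (c / l))) (𝓝[>] 0) (𝓝 (2 * 0)) :=
      (hx.mono_right nhdsWithin_le_nhds).const_mul 2
    rw [mul_zero] at h1
    exact h1.eventually (gt_mem_nhds (hp i))
  have ev5 : ∀ᶠ δ : ℝ in 𝓝[>] 0, ∀ k, r k ≠ 0 → δ * (c / l) < (1 - δ) * r k := by
    rw [Filter.eventually_all]
    intro k
    by_cases hk : r k = 0
    · exact Filter.Eventually.of_forall (fun _ h => absurd hk h)
    · have hk' : 0 < r k := lt_of_le_of_ne (hr k) (Ne.symm hk)
      have h1 : Tendsto (fun δ : ℝ => δ * (c / l)) (𝓝[>] 0) (𝓝 0) :=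
        hx.mono_right nhdsWithin_le_nhds
      have h2 : Tendsto (fun δ : ℝ => (1 - δ) * r k) (𝓝[>] 0) (𝓝 ((1 - 0) * r k)) := by
        have : Continuous (fun δ : ℝ => (1 - δ) * r k) := by fun_prop
        exact (this.tendsto 0).mono_left nhdsWithin_le_nhds
      rw [sub_zero, one_mul] at h2
      filter_upwards [h1.eventually_lt h2 hk'] with δ hδ _
      exact hδ
  obtain ⟨δ, hrob, htop, hw, h2x, hxr, hδ, hδ1⟩ :=
    (ev1.and ((hlim.eventually ev2).and (ev3.and (ev4.and (ev5.and
      (Ioo_mem_nhdsGT (show (0 : ℝ) < 1 / 2 by norm_num))))))).exists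
  set x : ℝ := δ * (c / l) with hxdef
  have hx0 : 0 < x := by positivity
  set y := path δ with hy
  have hy1 : y.1 = p := rfl
  have hy2 : y.2 = fun j => (1 - δ) * r j + δ * (if r j = 0 then c / l else 0) := rfl
  have hyz : ∀ k, r k = 0 → y.2 k = x := by
    intro k hk
    rw [hy2]
    simp [hk, hxdef]
  have hynz : ∀ k, r k ≠ 0 → y.2 k = (1 - δ) * r k := by
    intro k hk
    rw [hy2]
    simp [hk]
  have hypos : posV y := by
    refine ⟨hp, ?_⟩
    intro k
    by_cases hk : r k = 0
    · rw [hyz k hk]; exact hx0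
    · rw [hynz k hk]
      exact mul_pos (by linarith) (lt_of_le_of_ne (hr k) (Ne.symm hk))
  have hys : ∑ k, y.2 k = c := by
    rw [hy2, Finset.sum_add_distrib, ← Finset.mul_sum, ← Finset.mul_sum, hs2, ← Finset.sum_filter,
      Finset.sum_const, nsmul_eq_mul, ← hl, mul_div_cancel₀ _ hl0.ne']
    ring
  have hye : ee y 1 = 0 := by
    unfold ee
    simp only [Real.rpow_one]
    rw [hys, hy1, hs1, sub_self]
  obtain ⟨g1, g2, g3⟩ := hrob hypos hye
  -- logs
  have hlogy : ∀ k, r k ≠ 0 → |Real.log (y.2 k)| ≤ Λ := by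
    intro k hk
    have hk' : 0 < r k := lt_of_le_of_ne (hr k) (Ne.symm hk)
    rw [hynz k hk, Real.log_mul (by linarith) hk'.ne']
    have h1 : |Real.log (1 - δ)| ≤ 1 := by
      rw [abs_le]
      constructor
      · have h3 : Real.log (1 / 2) ≤ Real.log (1 - δ) :=
          Real.log_le_log (by norm_num) (by linarith)
        have h4 : Real.log (1 / 2) = - Real.log 2 := by
          rw [one_div, Real.log_inv]
        have h5 := Real.log_two_lt_d9
        linarith
      · have := Real.log_nonpos (by linarith : 0 ≤ 1 - δ) (by linarith)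
        linarith
    have h2 := abs_add_le (Real.log (1 - δ)) (Real.log (r k))
    linarith [hΛr k]
  have hwx : Real.log x < -(4 * C + 2 * n * Λ) := hw
  -- bounds for |s| ≤ S
  have hbp : ∀ s, |s| ≤ S → ∀ i, |y.1 i ^ s - 1| ≤ |s| * C1 := fun s hs i =>
    rpow_sub_one_bound (hp i) (hΛp i) hs
  have hbr : ∀ s, |s| ≤ S → ∀ k, r k ≠ 0 → |y.2 k ^ s - 1| ≤ |s| * C1 := fun s hs k hk =>
    rpow_sub_one_bound (hypos.2 k) (hlogy k hk) hs
  have hee : ∀ s, ee y s = (∑ k, (y.2 k ^ s - 1)) - ∑ i, (y.1 i ^ s - 1) := by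
    intro s
    unfold ee
    rw [Finset.sum_sub_distrib, Finset.sum_sub_distrib]
    ring
  have hxs : ∀ s, x ^ s = Real.exp (-(s * (-Real.log x))) := by
    intro s
    rw [Real.rpow_def_of_pos hx0]
    congr 1
    ring
  set w : ℝ := -Real.log x with hwdef
  have hw4 : 4 * C + 2 * n * Λ < w := by rw [hwdef]; linarith
  have hnΛ : 0 ≤ 2 * (n : ℝ) * Λ := by positivity
  have hwpos : 0 < w := by linarith
  -- small positive s
  have small_pos : ∀ s, 0 < s → s ≤ η → ee y s < 0 := by
    intro s hs hsη
    have hsS : |s| ≤ S := by rw [abs_of_pos hs]; linarith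
    rw [hee]
    have hlt : x ^ s < 1 := by
      rw [hxs]
      have : 0 < s * w := mul_pos hs hwpos
      rw [Real.exp_lt_one_iff]
      linarith
    have u1 : ∑ k, (y.2 k ^ s - 1) ≤ ∑ k, (s * C1 + if k = j0 then (x ^ s - 1) else 0) := by
      apply Finset.sum_le_sum
      intro k _
      by_cases hk : k = j0
      · subst hk
        rw [hyz k hj0]
        simp only [if_true]
        have : 0 ≤ s * C1 := by positivity
        linarith
      · simp only [hk, if_false, add_zero]
        by_cases hk0 : r k = 0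
        · rw [hyz k hk0]
          have : 0 ≤ s * C1 := by positivity
          linarith
        · have := (le_abs_self _).trans (hbr s hsS k hk0)
          rwa [abs_of_pos hs] at this
    have u2 : -(n * (s * C1)) ≤ ∑ i, (y.1 i ^ s - 1) := by
      have : ∑ _i : Fin n, (-(s * C1)) ≤ ∑ i, (y.1 i ^ s - 1) := by
        apply Finset.sum_le_sum
        intro i _
        have := (neg_abs_le (y.1 i ^ s - 1))
        have h3 := hbp s hsS i
        rw [abs_of_pos hs] at h3
        linarith
      simpa using this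
    rw [Finset.sum_add_distrib, Finset.sum_ite_eq' Finset.univ j0 (fun _ => x ^ s - 1)] at u1
    simp only [Finset.sum_const, Finset.card_univ, Fintype.card_fin, nsmul_eq_mul,
      Finset.mem_univ, if_true] at u1
    have u3 : min (s * w) 1 / 2 ≤ 1 - x ^ s := by
      rw [hxs]
      exact one_sub_exp_neg_ge (mul_pos hs hwpos).le
    have u4 : C * s < min (s * w) 1 / 2 := by
      rcases le_total (s * w) 1 with h5 | h5
      · rw [min_eq_left h5]
        have : 4 * C < w := by linarith
        nlinarith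
      · rw [min_eq_right h5]
        have : C * s ≤ C * η := mul_le_mul_of_nonneg_left hsη (by linarith)
        linarith
    have u5 : 2 * n * C1 * s ≤ C * s := by
      apply mul_le_mul_of_nonneg_right _ hs.le
      rw [hC]; linarith
    linarith
  have neg_s : ∀ s, s < 0 → 0 < ee y s := by
    intro s hs
    rcases le_total S (-s) with h5 | h5
    · apply large_neg hypos one_lt_two (j := j0) _ hs (hS' (-s) h5)
      intro i
      rw [hyz j0 hj0, hy1]
      exact h2x i
    · have hsS : |s| ≤ S := by rw [abs_of_neg hs]; exact h5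
      rw [hee]
      have hge : 1 + (-s) * w ≤ x ^ s := by
        rw [hxs]
        have := Real.add_one_le_exp (-(s * w))
        linarith
      have hsw : 0 < (-s) * w := mul_pos (by linarith) hwpos
      have u1 : ∑ k, (-((-s) * C1) + if k = j0 then (x ^ s - 1) else 0)
          ≤ ∑ k, (y.2 k ^ s - 1) := by
        apply Finset.sum_le_sum
        intro k _
        have h0 : 0 ≤ (-s) * C1 := mul_nonneg (by linarith) hC10.le
        by_cases hk : k = j0
        · subst hk
          rw [hyz k hj0]
          simp only [if_true]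
          linarith
        · simp only [hk, if_false, add_zero]
          by_cases hk0 : r k = 0
          · rw [hyz k hk0]
            linarith
          · have h6 := neg_abs_le (y.2 k ^ s - 1)
            have h7 := hbr s hsS k hk0
            rw [abs_of_neg hs] at h7
            linarith
      have u2 : ∑ i, (y.1 i ^ s - 1) ≤ n * ((-s) * C1) := by
        have : ∑ i, (y.1 i ^ s - 1) ≤ ∑ _i : Fin n, ((-s) * C1) := by
          apply Finset.sum_le_sum
          intro i _
          have h6 := le_abs_self (y.1 i ^ s - 1)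
          have h3 := hbp s hsS i
          rw [abs_of_neg hs] at h3
          linarith
        simpa using this
      rw [Finset.sum_add_distrib, Finset.sum_ite_eq' Finset.univ j0 (fun _ => x ^ s - 1)] at u1
      simp only [Finset.sum_const, Finset.card_univ, Fintype.card_fin, nsmul_eq_mul,
        Finset.mem_univ, if_true] at u1
      have u5 : 2 * n * C1 * (-s) < w * (-s) := by
        apply mul_lt_mul_of_pos_right _ (by linarith)
        rw [hC] at hw4
        have : 0 ≤ 2 * (n : ℝ) * C1 := by positivity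
        linarith
      linarith
  have d0 : e1 y 0 < 0 := by
    unfold e1
    simp only [Real.rpow_zero, one_mul]
    have u1 : ∑ k, Real.log (y.2 k) ≤ ∑ k, (Λ + if k = j0 then Real.log x else 0) := by
      apply Finset.sum_le_sum
      intro k _
      by_cases hk : k = j0
      · subst hk
        rw [hyz k hj0]
        simp only [if_true]
        linarith
      · simp only [hk, if_false, add_zero]
        by_cases hk0 : r k = 0
        · rw [hyz k hk0]
          linarith
        · exact (le_abs_self _).trans (hlogy k hk0)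
    have u2 : -(n * Λ) ≤ ∑ i, Real.log (y.1 i) := by
      have : ∑ _i : Fin n, (-Λ) ≤ ∑ i, Real.log (y.1 i) := by
        apply Finset.sum_le_sum
        intro i _
        have := neg_abs_le (Real.log (p i))
        have h3 := hΛp i
        rw [hy1]
        linarith
      simpa using this
    rw [Finset.sum_add_distrib, Finset.sum_ite_eq' Finset.univ j0 (fun _ => Real.log x)] at u1
    simp only [Finset.sum_const, Finset.card_univ, Fintype.card_fin, nsmul_eq_mul,
      Finset.mem_univ, if_true] at u1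
    have : 0 < C := by linarith
    linarith
  have hfull : Full y := by
    refine ⟨hypos, g1, ?_, neg_s, g3, d0⟩
    intro s hs hs1
    rcases le_total s η with h5 | h5
    · exact small_pos s hs h5
    · exact g2 s h5 hs1
  obtain ⟨q, hq0, hqp, hq⟩ := suff_eq hfull hc (by rw [hy1]; exact hs1) hys (j := j) (j' := j0) htop
    (by
      intro i
      rw [hyz j0 hj0, hy1]
      linarith [h2x i])
  refine ⟨q, hq0, hqp, hq.trans (Maj.tp ?_ q hqp)⟩
  refine ⟨by rw [sum_ms, sum_ms, hys, hs2], ?_⟩
  intro t ht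
  rcases le_total x t with h5 | h5
  · rw [Phi_ms, Phi_ms]
    apply Finset.sum_le_sum
    intro k _
    by_cases hk : r k = 0
    · rw [hyz k hk, max_eq_right (by linarith)]
      exact le_max_right _ _
    · rw [hynz k hk]
      apply max_le_max _ le_rfl
      have := hr k
      nlinarith
  · rw [Phi_eq_of_le (ms y.2) t (by
      intro a ha
      rw [mem_ms] at ha
      obtain ⟨k, rfl⟩ := ha
      by_cases hk : r k = 0
      · rw [hyz k hk]; exact h5
      · rw [hynz k hk]
        exact h5.trans (hxr k hk).le)]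
    have := Phi_ge (ms r) t
    rw [card_ms, sum_ms, hs2] at this
    rw [card_ms, sum_ms, hys]
    exact this

end Pool.Agent.H94Flex
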