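import Mathlib
import Pool.Agent.H94Flex.StepA

/-! From an infinite chain to a single catalyst, multiset level. -/

namespace Pool.Agent.H94Flex

open Set Filter Topology

theorem exists_gap {y : Multiset ℝ} {a : ℝ} (ha : 0 < a) (h : ∀ b ∈ y, b < a) :
    ∃ β : ℝ, 0 < β ∧ β < a ∧ ∀ b ∈ y, b ≤ β := by
  induction y using Multiset.induction_on with
  | empty => exact ⟨a / 2, by linarith, by linarith, by simp⟩
  | cons b y ih =>
    obtain ⟨β, h1, h2, h3⟩ := ih (fun c hc => h c (by simp [hc]))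
    refine ⟨max β b, lt_max_of_lt_left h1, max_lt h2 (h b (by simp)), ?_⟩
    intro c hc
    rw [Multiset.mem_cons] at hc
    rcases hc with rfl | hc
    · exact le_max_right _ _
    · exact (h3 c hc).trans (le_max_left _ _)

theorem exists_gap' {y : Multiset ℝ} {a : ℝ} (h : ∀ b ∈ y, a < b) :
    ∃ β : ℝ, a < β ∧ ∀ b ∈ y, β ≤ b := by
  induction y using Multiset.induction_on with
  | empty => exact ⟨a + 1, by linarith, by simp⟩
  | cons b y ih =>
    obtain ⟨β, h1, h3⟩ := ih (fun c hc => h c (by simp [hc]))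
    refine ⟨min β b, lt_min h1 (h b (by simp)), ?_⟩
    intro c hc
    rw [Multiset.mem_cons] at hc
    rcases hc with rfl | hc
    · exact min_le_right _ _
    · exact (min_le_left _ _).trans (h3 c hc)

theorem m_le_card {y : Multiset ℝ} {s B : ℝ} (h : ∀ b ∈ y, b ^ s ≤ B) : m y s ≤ y.card * B := by
  unfold m
  have : (y.map (fun a : ℝ => a ^ s)).sum ≤ (y.map (fun _ => B)).sum :=
    Multiset.sum_map_le_sum_map _ _ h
  simpa using this

theorem rpow_le_m {x : Multiset ℝ} (hx : ∀ b ∈ x, 0 < b) {a : ℝ} (ha : a ∈ x) (s : ℝ) :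
    a ^ s ≤ m x s := by
  obtain ⟨y, rfl⟩ := Multiset.exists_cons_of_mem ha
  rw [m_cons]
  have h2 : 0 ≤ m y s := by
    unfold m
    apply Multiset.sum_nonneg
    intro b hb
    rw [Multiset.mem_map] at hb
    obtain ⟨c, hc, rfl⟩ := hb
    exact Real.rpow_nonneg (hx c (by simp [hc])).le s
  linarith

theorem dominate_large {x y : Multiset ℝ} (hx : ∀ b ∈ x, 0 < b) (hy : ∀ b ∈ y, 0 < b)
    {a : ℝ} (ha : a ∈ x) (h : ∀ b ∈ y, b < a) : ∃ s : ℝ, 1 < s ∧ m y s < m x s := by
  have ha0 := hx a ha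
  obtain ⟨β, hβ, hβa, hβ'⟩ := exists_gap ha0 h
  obtain ⟨S, hS1, hS⟩ := exists_S0 y.card (show 1 < a / β by rw [lt_div_iff₀ hβ]; linarith)
  refine ⟨S, hS1, ?_⟩
  have h1 : m y S ≤ y.card * β ^ S := m_le_card (fun b hb =>
    Real.rpow_le_rpow (hy b hb).le (hβ' b hb) (by linarith))
  have h2 := rpow_le_m hx ha S
  have h3 := hS S le_rfl
  have hβS : 0 < β ^ S := Real.rpow_pos_of_pos hβ S
  rw [Real.div_rpow ha0.le hβ.le, lt_div_iff₀ hβS] at h3
  linarith

theorem dominate_small {x y : Multiset ℝ} (hx : ∀ b ∈ x, 0 < b)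
    {a : ℝ} (ha : a ∈ x) (h : ∀ b ∈ y, a < b) : ∃ s : ℝ, s < 0 ∧ m y s < m x s := by
  have ha0 := hx a ha
  obtain ⟨β, hβa, hβ'⟩ := exists_gap' h
  have hβ : 0 < β := ha0.trans hβa
  obtain ⟨S, hS1, hS⟩ := exists_S0 y.card (show 1 < β / a by rw [lt_div_iff₀ ha0]; linarith)
  refine ⟨-S, by linarith, ?_⟩
  have h1 : m y (-S) ≤ y.card * β ^ (-S) := m_le_card (fun b hb =>
    Real.rpow_le_rpow_of_nonpos hβ (hβ' b hb) (by linarith))
  have h2 := rpow_le_m hx ha (-S)
  have h3 := hS S le_rfl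
  have haS : 0 < a ^ S := Real.rpow_pos_of_pos ha0 S
  have hbS : 0 < β ^ S := Real.rpow_pos_of_pos hβ S
  rw [Real.div_rpow hβ.le ha0.le, lt_div_iff₀ haS] at h3
  rw [Real.rpow_neg hβ.le] at h1
  rw [Real.rpow_neg ha0.le] at h2
  have h4 : y.card * (β ^ S)⁻¹ < (a ^ S)⁻¹ := by
    rw [← div_eq_mul_inv, div_lt_iff₀ hbS, inv_mul_eq_div, lt_div_iff₀ haS]
    exact h3
  linarith

/-- the difference of the power sums of two disjoint multisets is not locally zero -/
theorem not_locally_zero {p r p' r' c : Multiset ℝ} (hp : ∀ a ∈ p, 0 < a) (hr : ∀ a ∈ r, 0 < a)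
    (hpc : p = c + p') (hrc : r = c + r') (hdis : ∀ a ∈ p', a ∉ r') (hp0 : p' ≠ 0) (α : ℝ) :
    ¬ ∀ᶠ z in 𝓝 (α : ℂ), M r z - M p z = 0 := by
  intro h
  have han : AnalyticOnNhd ℂ (fun z => M r z - M p z) Set.univ := by
    intro z _
    exact ((differentiable_M hr).sub (differentiable_M hp)).analyticAt z
  have h2 := han.eqOn_zero_of_preconnected_of_eventuallyEq_zero isPreconnected_univ
    (Set.mem_univ (α : ℂ)) h
  have hms : ∀ s : ℝ, m r s = m p s := by
    intro s
    have h3 := h2 (Set.mem_univ (s : ℂ))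
    simp only [Pi.zero_apply] at h3
    rw [M_ofReal hr, M_ofReal hp, sub_eq_zero] at h3
    exact_mod_cast h3
  have hms' : ∀ s : ℝ, m r' s = m p' s := by
    intro s
    have := hms s
    rw [hpc, hrc, m_add, m_add] at this
    linarith
  have hp' : ∀ a ∈ p', 0 < a := fun a ha => hp a (by rw [hpc]; simp [ha])
  have hr' : ∀ a ∈ r', 0 < a := fun a ha => hr a (by rw [hrc]; simp [ha])
  have hne : (p' + r').toFinset.Nonempty := by
    obtain ⟨a, ha⟩ := Multiset.exists_mem_of_ne_zero hp0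
    exact ⟨a, by simp [ha]⟩
  obtain ⟨a, ha, hmax⟩ := Finset.exists_max_image (p' + r').toFinset id hne
  rw [Multiset.mem_toFinset, Multiset.mem_add] at ha
  have hmax' : ∀ b, b ∈ p' ∨ b ∈ r' → b ≤ a := by
    intro b hb
    have := hmax b (by rw [Multiset.mem_toFinset, Multiset.mem_add]; exact hb)
    exact this
  rcases ha with ha | ha
  · obtain ⟨s, -, hs⟩ := dominate_large hp' hr' ha (fun b hb =>
      lt_of_le_of_ne (hmax' b (Or.inr hb)) (fun e => hdis a ha (e ▸ hb)))
    rw [hms' s] at hs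
    exact lt_irrefl _ hs
  · obtain ⟨s, -, hs⟩ := dominate_large hr' hp' ha (fun b hb =>
      lt_of_le_of_ne (hmax' b (Or.inl hb)) (fun e => hdis b hb (e ▸ ha)))
    rw [hms' s] at hs
    exact lt_irrefl _ hs

theorem m_replicate_zero (x : Multiset ℝ) (k : ℕ) {s : ℝ} (hs : s ≠ 0) :
    m (x + Multiset.replicate k 0) s = m x s := by
  rw [m_add]
  have : m (Multiset.replicate k 0) s = 0 := by
    unfold m
    rw [Multiset.map_replicate, Real.zero_rpow hs]
    simp
  rw [this, add_zero]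

theorem Maj_of_replicate {x r' q : Multiset ℝ} {k : ℕ}
    (h : Maj x (tp (r' + Multiset.replicate k 0) q)) : Maj x (tp r' q) := by
  rw [tp_add_left] at h
  have hz : ∀ a ∈ tp (Multiset.replicate k 0) q, a = 0 := by
    intro a ha
    obtain ⟨b, hb, c, hc, rfl⟩ := mem_tp ha
    rw [Multiset.eq_of_mem_replicate hb, zero_mul]
  refine ⟨?_, ?_⟩
  · rw [h.1, Multiset.sum_add, Multiset.sum_eq_zero hz, add_zero]
  · intro t ht
    have := h.2 t ht
    rwa [Phi_add, Phi_eq_zero (tp (Multiset.replicate k 0) q) t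
      (fun a ha => by rw [hz a ha]; exact ht), add_zero] at this

theorem ee_ms {n : ℕ} (v w : Fin n → ℝ) (s : ℝ) :
    ee ((v, w) : PairV n) s = m (ms w) s - m (ms v) s := by
  rw [m_ms, m_ms]
  rfl

theorem e1_ms {n : ℕ} (v w : Fin n → ℝ) (s : ℝ) :
    e1 ((v, w) : PairV n) s = m1 (ms w) s - m1 (ms v) s := by
  unfold m1 e1
  rw [sum_map_ms, sum_map_ms]

theorem m1_add (x y : Multiset ℝ) (s : ℝ) : m1 (x + y) s = m1 x s + m1 y s := by simp [m1]

theorem m1_replicate_zero (x : Multiset ℝ) (k : ℕ) :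
    m1 (x + Multiset.replicate k 0) 1 = m1 x 1 := by
  rw [m1_add]
  have : m1 (Multiset.replicate k 0) 1 = 0 := by
    unfold m1
    rw [Multiset.map_replicate]
    simp
  rw [this, add_zero]

theorem m_lt_of_G {α : ℝ} {p r : Multiset ℝ} (h1 : α ≠ 1) (h0 : α ≠ 0) (h : G α p < G α r) :
    (0 < α * (α - 1) → m p α < m r α) ∧ (α * (α - 1) < 0 → m r α < m p α) := by
  rw [G_eq h1 h0, G_eq h1 h0] at h
  constructor
  · intro h2
    exact (div_lt_div_iff_of_pos_right h2).mp h
  · intro h2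
    exact (div_lt_div_right_of_neg h2).mp h

theorem m_zero (x : Multiset ℝ) : m x 0 = x.card := by
  unfold m
  simp

theorem assembly {p r : Multiset ℝ} {q : ℕ → Multiset ℝ} (hp : PV p) (hr : PV r)
    (h : Chain p r q) :
    ∃ q' : Multiset ℝ, q' ≠ 0 ∧ (∀ b ∈ q', 0 < b) ∧ Maj (tp p q') (tp r q') := by
  classical
  set c := p ∩ r with hc
  set p' := p - c with hp'def
  set r' := r - c with hr'def
  have hpc : p = c + p' := (add_tsub_cancel_of_le Multiset.inter_le_left).symm
  have hrc : r = c + r' := (add_tsub_cancel_of_le Multiset.inter_le_right).symm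
  have hdis : ∀ a ∈ p', a ∉ r' := by
    intro a ha hb
    rw [← Multiset.count_pos, hp'def, Multiset.count_sub, hc, Multiset.count_inter] at ha
    rw [← Multiset.count_pos, hr'def, Multiset.count_sub, hc, Multiset.count_inter] at hb
    omega
  have hp' : ∀ a ∈ p', 0 < a := fun a ha => hp.1 a (by rw [hpc]; simp [ha])
  have hr' : ∀ a ∈ r', 0 < a := fun a ha => hr.1 a (by rw [hrc]; simp [ha])
  have hsum : p'.sum = r'.sum := by
    have h1 := hp.2
    have h2 := hr.2
    rw [hpc, Multiset.sum_add] at h1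
    rw [hrc, Multiset.sum_add] at h2
    linarith
  have sum_pos : ∀ x : Multiset ℝ, (∀ a ∈ x, 0 < a) → x ≠ 0 → 0 < x.sum := by
    intro x hx h0
    have := m_pos hx h0 1
    rwa [m_one] at this
  by_cases hp0 : p' = 0
  · have hr0 : r' = 0 := by
      by_contra hcon
      have := sum_pos r' hr' hcon
      rw [← hsum, hp0] at this
      simp at this
    refine ⟨{1}, by simp, by simp, ?_⟩
    rw [hpc, hrc, hp0, hr0]
    exact Maj.refl _
  have hr0 : r' ≠ 0 := by
    intro hcon
    have := sum_pos p' hp' hp0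
    rw [hsum, hcon] at this
    simp at this
  have hnl := fun α : ℝ => not_locally_zero hp.1 hr.1 hpc hrc hdis hp0 α
  have hdm : ∀ s, m r s - m p s = m r' s - m p' s := by
    intro s
    rw [hpc, hrc, m_add, m_add]; ring
  have hdm1 : ∀ s, m1 r s - m1 p s = m1 r' s - m1 p' s := by
    intro s
    rw [hpc, hrc, m1_add, m1_add]; ring
  have hA : ∀ s, 1 < s → m p' s < m r' s := by
    intro s hs
    have h1 := chain_strict hp hr h (lt_trans one_pos hs) (hnl s)
    have h2 := (m_lt_of_G hs.ne' (by linarith) h1).1 (mul_pos (by linarith) (by linarith))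
    linarith [hdm s]
  have hB : ∀ s, 0 < s → s < 1 → m r' s < m p' s := by
    intro s hs hs1
    have h1 := chain_strict hp hr h hs (hnl s)
    have h2 := (m_lt_of_G hs1.ne hs.ne' h1).2 (mul_neg_of_pos_of_neg hs (by linarith))
    linarith [hdm s]
  have hD : m1 p' 1 < m1 r' 1 := by
    have h1 := chain_strict hp hr h one_pos (hnl 1)
    rw [← m1_one, ← m1_one] at h1
    linarith [hdm1 1]
  -- top entry
  have hne : (p' + r').toFinset.Nonempty := by
    obtain ⟨a, ha⟩ := Multiset.exists_mem_of_ne_zero hp0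
    exact ⟨a, by simp [ha]⟩
  obtain ⟨a, ha, htop⟩ : ∃ a ∈ r', ∀ b ∈ p', b < a := by
    obtain ⟨a, ha, hmax⟩ := Finset.exists_max_image (p' + r').toFinset id hne
    rw [Multiset.mem_toFinset, Multiset.mem_add] at ha
    have hmax' : ∀ b, b ∈ p' ∨ b ∈ r' → b ≤ a := by
      intro b hb
      have := hmax b (by rw [Multiset.mem_toFinset, Multiset.mem_add]; exact hb)
      exact this
    rcases ha with ha | ha
    · obtain ⟨s, hs1, hs⟩ := dominate_large hp' hr' ha (fun b hb =>
        lt_of_le_of_ne (hmax' b (Or.inr hb)) (fun e => hdis a ha (e ▸ hb)))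
      exact absurd (hA s hs1) (not_lt.mpr hs.le)
    · exact ⟨a, ha, fun b hb => lt_of_le_of_ne (hmax' b (Or.inl hb)) (fun e => hdis b hb (e ▸ ha))⟩
  -- cardinalities
  have hcard : r'.card ≤ p'.card := by
    have c1 : Tendsto (m r') (𝓝[>] 0) (𝓝 (m r' 0)) :=
      (hasDerivAt_m hr' 0).continuousAt.tendsto.mono_left nhdsWithin_le_nhds
    have c2 : Tendsto (m p') (𝓝[>] 0) (𝓝 (m p' 0)) :=
      (hasDerivAt_m hp' 0).continuousAt.tendsto.mono_left nhdsWithin_le_nhds
    rw [m_zero] at c1 c2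
    have h3 : (r'.card : ℝ) ≤ p'.card := by
      apply le_of_tendsto_of_tendsto c1 c2
      filter_upwards [Ioo_mem_nhdsGT (show (0 : ℝ) < 1 by norm_num)] with s hs
      exact (hB s hs.1 hs.2).le
    exact_mod_cast h3
  obtain ⟨v, hv⟩ := exists_ms p' rfl
  have hvp : ∀ i, 0 < v i := fun i => hp' _ (by rw [← hv]; exact mem_ms.mpr ⟨i, rfl⟩)
  have hs1 : ∑ i, v i = p'.sum := by rw [← sum_ms, hv]
  have hsp := sum_pos p' hp' hp0
  suffices hmain : ∃ q' : Multiset ℝ, q' ≠ 0 ∧ (∀ b ∈ q', 0 < b) ∧ Maj (tp p' q') (tp r' q') by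
    obtain ⟨q', h1, h2, h3⟩ := hmain
    refine ⟨q', h1, h2, ?_⟩
    rw [hpc, hrc, tp_add_left, tp_add_left]
    exact h3.add _
  rcases lt_or_eq_of_le hcard with hlt | heq
  · -- fewer entries in `r'`
    set k := p'.card - r'.card with hk
    have hk0 : 0 < k := by omega
    have hcw : (r' + Multiset.replicate k (0 : ℝ)).card = p'.card := by
      rw [Multiset.card_add, Multiset.card_replicate]; omega
    obtain ⟨w, hw⟩ := exists_ms (r' + Multiset.replicate k (0 : ℝ)) hcw
    have hw0 : ∀ j, 0 ≤ w j := by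
      intro j
      have : w j ∈ r' + Multiset.replicate k (0 : ℝ) := by rw [← hw]; exact mem_ms.mpr ⟨j, rfl⟩
      rw [Multiset.mem_add] at this
      rcases this with h1 | h1
      · exact (hr' _ h1).le
      · rw [Multiset.eq_of_mem_replicate h1]
    obtain ⟨j0, hj0⟩ : ∃ j0, w j0 = 0 := by
      have : (0 : ℝ) ∈ ms w := by
        rw [hw, Multiset.mem_add]
        exact Or.inr (Multiset.mem_replicate.mpr ⟨hk0.ne', rfl⟩)
      exact mem_ms.mp this
    obtain ⟨j, hj⟩ : ∃ j, w j = a := by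
      have : a ∈ ms w := by
        rw [hw, Multiset.mem_add]
        exact Or.inl ha
      exact mem_ms.mp this
    have hs2 : ∑ i, w i = p'.sum := by
      rw [← sum_ms, hw, Multiset.sum_add, Multiset.sum_replicate, smul_zero, add_zero, hsum]
    obtain ⟨q', h1, h2, h3⟩ := suff_lt hvp hw0 hj0 hsp hs1 hs2
      (by
        intro s hs
        rw [ee_ms, hv, hw, m_replicate_zero _ _ (by linarith)]
        linarith [hA s hs])
      (by
        intro s hs hs1
        rw [ee_ms, hv, hw, m_replicate_zero _ _ (by linarith)]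
        linarith [hB s hs hs1])
      (by
        rw [e1_ms, hv, hw, m1_replicate_zero]
        linarith)
      (j := j)
      (by
        intro i
        rw [hj]
        exact htop _ (by rw [← hv]; exact mem_ms.mpr ⟨i, rfl⟩))
    refine ⟨q', h1, h2, ?_⟩
    rw [hv, hw] at h3
    exact Maj_of_replicate h3
  · -- equal cardinalities
    have hceq : p.card = r.card := by
      rw [hpc, hrc, Multiset.card_add, Multiset.card_add, heq]
    obtain ⟨q₁, N, b, hch, hb, hb1, hq₁⟩ := exists_bounded_chain hp hr hceq h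
    have hBC : BChain p r q₁ N b :=
      ⟨hp, hr, hceq, hch, hb, hb1, fun n => (hq₁ n).1, fun n => (hq₁ n).2⟩
    have hC : ∀ s, s < 0 → m p' s < m r' s := by
      intro s hs
      have h1 := hBC.strict hs.le (hnl s)
      have h2 := (m_lt_of_G (by linarith) hs.ne h1).1 (mul_pos_of_neg_of_neg hs (by linarith))
      linarith [hdm s]
    have hD0 : m1 r' 0 < m1 p' 0 := by
      have h1 := hBC.strict le_rfl (hnl 0)
      have e : ∀ x : Multiset ℝ, G 0 x = - m1 x 0 := by
        intro x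
        unfold G m1 gf
        simp only [zero_ne_one, if_false, if_true, Real.rpow_zero, one_mul]
        rw [Multiset.sum_map_neg]
      rw [e, e] at h1
      linarith [hdm1 0]
    obtain ⟨w, hw⟩ := exists_ms r' heq
    have hwp : ∀ i, 0 < w i := fun i => hr' _ (by rw [← hw]; exact mem_ms.mpr ⟨i, rfl⟩)
    obtain ⟨j, hj⟩ : ∃ j, w j = a := mem_ms.mp (by rw [hw]; exact ha)
    obtain ⟨a', ha', hbot⟩ : ∃ a ∈ r', ∀ b ∈ p', a < b := by
      obtain ⟨a, ha, hmin⟩ := Finset.exists_min_image (p' + r').toFinset id hne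
      rw [Multiset.mem_toFinset, Multiset.mem_add] at ha
      have hmin' : ∀ b, b ∈ p' ∨ b ∈ r' → a ≤ b := by
        intro b hb
        have := hmin b (by rw [Multiset.mem_toFinset, Multiset.mem_add]; exact hb)
        exact this
      rcases ha with ha | ha
      · obtain ⟨s, hs1, hs⟩ := dominate_small hp' ha (fun b hb =>
          lt_of_le_of_ne (hmin' b (Or.inr hb)) (fun e => hdis a ha (e.symm ▸ hb)))
        exact absurd (hC s hs1) (not_lt.mpr hs.le)
      · exact ⟨a, ha, fun b hb => lt_of_le_of_ne (hmin' b (Or.inl hb))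
          (fun e => hdis b hb (e ▸ ha))⟩
    obtain ⟨j', hj'⟩ : ∃ j, w j = a' := mem_ms.mp (by rw [hw]; exact ha')
    have hs2 : ∑ i, w i = p'.sum := by rw [← sum_ms, hw, hsum]
    have hfull : Full ((v, w) : PairV p'.card) := by
      refine ⟨⟨hvp, hwp⟩, ?_, ?_, ?_, ?_, ?_⟩
      · intro s hs
        rw [ee_ms, hv, hw]
        linarith [hA s hs]
      · intro s hs hs1
        rw [ee_ms, hv, hw]
        linarith [hB s hs hs1]
      · intro s hs
        rw [ee_ms, hv, hw]
        linarith [hC s hs]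
      · rw [e1_ms, hv, hw]
        linarith
      · rw [e1_ms, hv, hw]
        linarith
    obtain ⟨q', h1, h2, h3⟩ := suff_eq hfull hsp hs1 hs2 (j := j) (j' := j')
      (by
        intro i
        show v i < w j
        rw [hj]
        exact htop _ (by rw [← hv]; exact mem_ms.mpr ⟨i, rfl⟩))
      (by
        intro i
        show w j' < v i
        rw [hj']
        exact hbot _ (by rw [← hv]; exact mem_ms.mpr ⟨i, rfl⟩))
    refine ⟨q', h1, h2, ?_⟩
    have h3' : Maj (tp (ms v) q') (tp (ms w) q') := h3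
    rwa [hv, hw] at h3'

end Pool.Agent.H94Flex
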